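import Mathlib
import Pool.Agent.U214.PT.Sieve

/-!
# Upper bound sieve for the values of a polynomial in a residue class, uniform version
-/

set_option autoImplicit false

namespace Pool.Agent.U214.UN

open Finset Polynomial Pool.Agent.U214.PT
open Pool.Agent.W262.RK (PS PP mem_PS)
open Pool.Agent.H474R2.PG (rho)

set_option maxHeartbeats 1000000 in
/-- upper bound sieve in a residue class, uniform in the polynomial; `Me` is the dimension -/
theorem svpU (d Me : ℕ) : ∃ (K y0 : ℕ), 1 ≤ K ∧ ∀ (f : ℤ[X]) (z : ℕ), 2 * d + 2 ≤ z →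
    (∀ p : ℕ, p.Prime → z < p → rho f p ≤ d) → ∀ C1 : ℝ, 0 ≤ C1 →
    ∀ X y : ℕ, y0 ≤ y → z < y → ∏ p ∈ PS z y, (1 - (rho f p : ℝ) / p) ≤
      C1 / (Real.log y) ^ Me → y ^ K ≤ X → ∀ m r : ℕ, 1 ≤ m → m ^ 4 ≤ X →
      (((Icc 1 X).filter (fun t : ℕ => t ≡ r [MOD m] ∧ ∀ p ∈ PS z y, ¬ p ∣ m →
        ¬ (p : ℤ) ∣ f.eval (t : ℤ))).card : ℝ) ≤
        (4 * C1 + 1) * (X / m) * (∏ p ∈ m.primeFactors.filter (fun p => p ∈ PS z y),
          ((p : ℝ) / ((p : ℝ) - rho f p))) / (Real.log y) ^ Me := by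
  classical
  obtain ⟨K', x0', hK', hF⟩ := Pool.Agent.H373R2.T7.sys_fund (d + 1) (by omega) 1 one_pos
  refine ⟨2 * (K' + Me), max x0' 3, by omega,
    fun f z hz hρd C1 hC1 X y hy hzy hP hyX m r hm1 hmX4 => ?_⟩
  have hy0 : x0' ≤ y := (le_max_left _ _).trans hy
  have hy3 : 3 ≤ y := (le_max_right _ _).trans hy
  have hmpos : 0 < m := hm1
  have hm0 : m ≠ 0 := hmpos.ne'
  have hr := count_le f z y X m r
  have hnu : ∀ p ∈ PS z y, ¬ p ∣ m →
      Pool.Agent.H373R2.T7.nuB (Qf f z y ((r % m : ℕ) : ℤ) m) p = rho f p := by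
    intro p hp hpm
    rw [← rho_prog (mem_PS.1 hp).2 f ((r % m : ℕ) : ℤ) (m : ℤ)
      (fun h => hpm (Int.natCast_dvd_natCast.1 h))]
    unfold Pool.Agent.H373R2.T7.nuB
    congr 1
    refine filter_congr fun n _ => ?_
    unfold Qf
    exact ⟨fun h => h.2.2, fun h => ⟨hp, hpm, h⟩⟩
  have hnu0 : ∀ p, ¬ (p ∈ PS z y ∧ ¬ p ∣ m) →
      Pool.Agent.H373R2.T7.nuB (Qf f z y ((r % m : ℕ) : ℤ) m) p = 0 := by
    intro p hp
    unfold Pool.Agent.H373R2.T7.nuB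
    rw [card_eq_zero, filter_eq_empty_iff]
    intro n _ hn
    exact hp ⟨hn.1, hn.2.1⟩
  have hPer : Pool.Agent.H373R2.T7.PerB (Qf f z y ((r % m : ℕ) : ℤ) m) (d + 1) := by
    refine ⟨fun p n => Qf_per f z y _ m p n, fun p _ => ?_⟩
    by_cases h : p ∈ PS z y ∧ ¬ p ∣ m
    · rw [hnu p h.1 h.2]
      exact (hρd p (mem_PS.1 h.1).2 (mem_PS.1 h.1).1.1).trans (Nat.le_succ d)
    · rw [hnu0 p h]
      exact Nat.zero_le _
  have hfund := hF (y ^ K') y hy0 le_rfl (Qf f z y ((r % m : ℕ) : ℤ) m) hPer (X / m + 1)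
  have hprod : ∏ p ∈ Pool.Agent.H373R2.T7.pz y,
      (1 - ((Pool.Agent.H373R2.T7.nuB (Qf f z y ((r % m : ℕ) : ℤ) m) p : ℕ) : ℝ) / p) =
      ∏ p ∈ (PS z y).filter (fun p => ¬ p ∣ m), (1 - (rho f p : ℝ) / p) := by
    have h1 : ∏ p ∈ (PS z y).filter (fun p => ¬ p ∣ m),
        (1 - ((Pool.Agent.H373R2.T7.nuB (Qf f z y ((r % m : ℕ) : ℤ) m) p : ℕ) : ℝ) / p) =
        ∏ p ∈ Pool.Agent.H373R2.T7.pz y,
      (1 - ((Pool.Agent.H373R2.T7.nuB (Qf f z y ((r % m : ℕ) : ℤ) m) p : ℕ) : ℝ) / p) := by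
      apply prod_subset
      · intro p hp
        rw [mem_filter, mem_PS] at hp
        exact Pool.Agent.H373R2.T7.mem_pz.2 ⟨hp.1.1.2, hp.1.2⟩
      · intro p _ hp
        rw [mem_filter] at hp
        rw [hnu0 p hp]
        simp
    rw [← h1]
    refine prod_congr rfl fun p hp => ?_
    rw [mem_filter] at hp
    rw [hnu p hp.1 hp.2]
  rw [hprod] at hfund
  obtain ⟨A, hA⟩ : ∃ A : ℝ, A = ∏ p ∈ (PS z y).filter (fun p => ¬ p ∣ m),
    (1 - (rho f p : ℝ) / p) := ⟨_, rfl⟩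
  obtain ⟨B, hB⟩ : ∃ B : ℝ, B = ∏ p ∈ m.primeFactors.filter (fun p => p ∈ PS z y),
    (1 - (rho f p : ℝ) / p) := ⟨_, rfl⟩
  obtain ⟨D, hD⟩ : ∃ D : ℝ, D = ∏ p ∈ m.primeFactors.filter (fun p => p ∈ PS z y),
    ((p : ℝ) / ((p : ℝ) - rho f p)) := ⟨_, rfl⟩
  have hzc : ∀ p ∈ PS z y, (rho f p : ℝ) + 1 ≤ p := by
    intro p hp
    have h1 := (mem_PS.1 hp).1.1
    have h2 := hρd p (mem_PS.1 hp).2 h1
    exact_mod_cast (by omega : rho f p + 1 ≤ p)
  have hfpos : ∀ p ∈ PS z y, 0 < 1 - (rho f p : ℝ) / p := by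
    intro p hp
    have h1 := hzc p hp
    have hp0 : (0 : ℝ) < p := by exact_mod_cast (mem_PS.1 hp).2.pos
    rw [sub_pos, div_lt_one hp0]
    linarith
  have hApos : 0 < A := by
    rw [hA]; exact prod_pos fun p hp => hfpos p (mem_filter.1 hp).1
  have hBpos : 0 < B := by
    rw [hB]; exact prod_pos fun p hp => hfpos p (mem_filter.1 hp).2
  have hAB : A * B = ∏ p ∈ PS z y, (1 - (rho f p : ℝ) / p) := by
    have h1 : m.primeFactors.filter (fun p => p ∈ PS z y) = (PS z y).filter (fun p => ¬ ¬ p ∣ m) := by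
      ext p
      rw [mem_filter, mem_filter, not_not]
      constructor
      · rintro ⟨hp, hp2⟩
        exact ⟨hp2, Nat.dvd_of_mem_primeFactors hp⟩
      · rintro ⟨h2, h3⟩
        exact ⟨Nat.mem_primeFactors.2 ⟨(mem_PS.1 h2).2, h3, hm0⟩, h2⟩
    rw [hA, hB, h1]
    exact prod_filter_mul_prod_filter_not _ _ _
  have hDB : D * B = 1 := by
    rw [hD, hB, ← prod_mul_distrib]
    apply prod_eq_one
    intro p hp
    have h1 := hzc p (mem_filter.1 hp).2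
    have hp0 : (0 : ℝ) < p := by
      exact_mod_cast (mem_PS.1 (mem_filter.1 hp).2).2.pos
    have h2 : (p : ℝ) - rho f p ≠ 0 := by
      have : 0 < (p : ℝ) - rho f p := by linarith
      exact this.ne'
    field_simp
  have hD1 : 1 ≤ D := by
    rw [hD]
    have h1 : ∀ p ∈ m.primeFactors.filter (fun p => p ∈ PS z y),
        (1 : ℝ) ≤ (p : ℝ) / ((p : ℝ) - rho f p) := by
      intro p hp
      have h1 := hzc p (mem_filter.1 hp).2
      have h2 : 0 < (p : ℝ) - rho f p := by linarith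
      rw [le_div_iff₀ h2]
      have : (0 : ℝ) ≤ rho f p := Nat.cast_nonneg _
      linarith
    calc (1 : ℝ) = ∏ p ∈ m.primeFactors.filter (fun p => p ∈ PS z y), (1 : ℝ) := by
          rw [prod_const_one]
      _ ≤ _ := prod_le_prod (fun _ _ => zero_le_one) h1
  have hDpos : 0 < D := by linarith
  have hAle : A ≤ (C1 / (Real.log y) ^ Me) * D := by
    have h1 : A = (A * B) * D := by
      calc A = A * (D * B) := by rw [hDB, mul_one]
        _ = _ := by ring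
    rw [h1, hAB]
    exact mul_le_mul_of_nonneg_right hP hDpos.le
  have hyr : (3 : ℝ) ≤ y := by exact_mod_cast hy3
  have hl1 : 1 < Real.log y := by
    rw [Real.lt_log_iff_exp_lt (by linarith)]
    have := Real.exp_one_lt_d9
    linarith
  have hly : Real.log y ≤ y := by
    have := Real.log_le_sub_one_of_pos (by linarith : (0 : ℝ) < y)
    linarith
  have hLpos : 0 < (Real.log y) ^ Me := by positivity
  have hmX : m * y ^ (K' + Me) ≤ X := by
    have h1 : (m * y ^ (K' + Me)) ^ 4 ≤ X ^ 4 := by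
      calc (m * y ^ (K' + Me)) ^ 4 = m ^ 4 * (y ^ (K' + Me)) ^ 4 := by rw [mul_pow]
        _ ≤ m ^ 4 * (y ^ (K' + Me)) ^ 6 := by
          apply Nat.mul_le_mul_left
          exact Nat.pow_le_pow_right (pow_pos (by omega) _) (by norm_num)
        _ = m ^ 4 * (y ^ (2 * (K' + Me))) ^ 3 := by ring
        _ ≤ X * X ^ 3 := Nat.mul_le_mul hmX4 (Nat.pow_le_pow_left hyX 3)
        _ = X ^ 4 := by ring
    exact (Nat.pow_le_pow_iff_left (by norm_num)).1 h1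
  have hmX' : m ≤ X := by
    refine le_trans ?_ hmX
    exact Nat.le_mul_of_pos_right _ (pow_pos (by omega) _)
  have hmr : (0 : ℝ) < m := by exact_mod_cast hmpos
  have hcnt : (((Icc 1 X).filter (fun t : ℕ => t ≡ r [MOD m] ∧ ∀ p ∈ PS z y, ¬ p ∣ m →
      ¬ (p : ℤ) ∣ f.eval (t : ℤ))).card : ℝ) ≤
      2 * (((X / m + 1 : ℕ) : ℝ) * A) + √((y ^ K' : ℕ) : ℝ) := by
    have h1 : (((Icc 1 X).filter (fun t : ℕ => t ≡ r [MOD m] ∧ ∀ p ∈ PS z y, ¬ p ∣ m →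
        ¬ (p : ℤ) ∣ f.eval (t : ℤ))).card : ℝ) ≤
      (((Icc 1 (X / m + 1)).filter
        (fun n : ℕ => ∀ p ∈ Pool.Agent.H373R2.T7.pz y,
          ¬ Qf f z y ((r % m : ℕ) : ℤ) m p n)).card : ℝ) := by
      exact_mod_cast hr
    have h2 := (abs_le.1 hfund).2
    rw [one_mul, ← hA] at h2
    linarith
  have hX' : ((X / m + 1 : ℕ) : ℝ) ≤ 2 * (X / m) := by
    have h1 : (X / m + 1) * m ≤ 2 * X := by
      have := Nat.div_mul_le_self X m
      rw [add_mul, one_mul]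
      omega
    have h2 : ((X / m + 1 : ℕ) : ℝ) * m ≤ 2 * X := by exact_mod_cast h1
    rw [← mul_div_assoc, le_div_iff₀ hmr]
    exact h2
  have hsq : √((y ^ K' : ℕ) : ℝ) ≤ (X / m) * D / (Real.log y) ^ Me := by
    have h1 : (1 : ℝ) ≤ ((y ^ K' : ℕ) : ℝ) := by
      exact_mod_cast Nat.one_le_iff_ne_zero.2 (pow_ne_zero _ (by omega))
    have h2 : √((y ^ K' : ℕ) : ℝ) ≤ ((y ^ K' : ℕ) : ℝ) := by
      rw [Real.sqrt_le_left (by linarith)]
      nlinarith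
    refine h2.trans ?_
    rw [le_div_iff₀ hLpos]
    have h3 : (Real.log y) ^ Me ≤ (y : ℝ) ^ Me := pow_le_pow_left₀ (by linarith) hly _
    have h4 : (m : ℝ) * (y : ℝ) ^ (K' + Me) ≤ X := by exact_mod_cast hmX
    have h5 : (y : ℝ) ^ (K' + Me) ≤ X / m := by
      rw [le_div_iff₀ hmr, mul_comm]
      exact h4
    push_cast
    calc (y : ℝ) ^ K' * (Real.log y) ^ Me ≤ (y : ℝ) ^ K' * (y : ℝ) ^ Me :=
          mul_le_mul_of_nonneg_left h3 (by positivity)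
      _ = (y : ℝ) ^ (K' + Me) := by rw [pow_add]
      _ ≤ X / m := h5
      _ = (X / m) * 1 := (mul_one _).symm
      _ ≤ (X / m) * D := mul_le_mul_of_nonneg_left hD1 (by positivity)
  have hmain : 2 * (((X / m + 1 : ℕ) : ℝ) * A) ≤ 4 * C1 * (X / m) * D / (Real.log y) ^ Me := by
    calc 2 * (((X / m + 1 : ℕ) : ℝ) * A) ≤
        2 * ((2 * (X / m)) * ((C1 / (Real.log y) ^ Me) * D)) := by gcongr
      _ = _ := by ring
  rw [← hD]
  calc (((Icc 1 X).filter (fun t : ℕ => t ≡ r [MOD m] ∧ ∀ p ∈ PS z y, ¬ p ∣ m →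
      ¬ (p : ℤ) ∣ f.eval (t : ℤ))).card : ℝ)
      ≤ 2 * (((X / m + 1 : ℕ) : ℝ) * A) + √((y ^ K' : ℕ) : ℝ) := hcnt
    _ ≤ 4 * C1 * (X / m) * D / (Real.log y) ^ Me + (X / m) * D / (Real.log y) ^ Me :=
        add_le_add hmain hsq
    _ = (4 * C1 + 1) * (X / m) * D / (Real.log y) ^ Me := by ring

end Pool.Agent.U214.UN
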