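import Mathlib
import Pool.Agent.U214.UN.Sieve
import Pool.Agent.U214.GT.Cnt

/-!
# The number of `t` with prescribed small prime factors, signs and residues, uniform version
-/

set_option autoImplicit false

namespace Pool.Agent.U214.UN

open Finset Polynomial Pool.Agent.U214.PT Pool.Agent.U214.GT
open Pool.Agent.W262.RK (PS PP mem_PS dv_prime dv_squarefree dv_pos dv_ne_zero PP_ne_zero)
open Pool.Agent.H474R2.PG (rho)
open Pool.Agent.W372.RK2 (sq_pow_dvd card_W WW)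

/-- the primes `> z` dividing the value do not divide the derivative -/
def Dr (f : ℤ[X]) (z : ℕ) (t : ℤ) : Prop :=
  ∀ p : ℕ, p.Prime → z < p → (p : ℤ) ∣ f.eval t → ¬ (p : ℤ) ∣ (derivative f).eval t

section

variable {f : ℤ[X]} {z y Y s v u : ℕ} {t t' : ℤ}

/-- two counted `t` with the same residues are congruent -/
lemma congr_ofU (hd : Dr f z t') (hzy : z < y) (hs : s ∈ (PP z y).divisors)
    (hv : v ∈ (PP z y).divisors) (hu : u ∈ (PP y Y).divisors) (g : Gt f z y s v u t)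
    (g' : Gt f z y s v u t') (h1 : ∀ p : ℕ, p.Prime → p ∣ s * v * u → (p : ℤ) ∣ t - t')
    (h2 : ∀ p : ℕ, p.Prime → p ∣ s → (p : ℤ) ^ 2 ∣ f.eval t - f.eval t') :
    ((s ^ 2 * v ^ 2 * u : ℕ) : ℤ) ∣ t - t' := by
  have a1 : ((s ^ 2 : ℕ) : ℤ) ∣ t - t' := by
    rw [Nat.cast_pow]
    refine sq_pow_dvd (dv_squarefree hs) 2 _ fun p hp hps => ?_
    refine lift_inj hp (h1 p hp ((hps.mul_right v).mul_right u)) (h2 p hp hps) ?_
    exact hd p hp (mem_PS.1 (g'.fs hp hps).1).1.1 (g'.fs hp hps).2.1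
  have a2 : ((v ^ 2 : ℕ) : ℤ) ∣ t - t' := by
    rw [Nat.cast_pow]
    refine sq_pow_dvd (dv_squarefree hv) 2 _ fun p hp hpv => ?_
    refine lift_inj hp (h1 p hp ((hpv.mul_left s).mul_right u))
      (dvd_sub (g.fv hp hpv).2 (g'.fv hp hpv).2) ?_
    exact hd p hp (mem_PS.1 (g'.fv hp hpv).1).1.1
      ((dvd_pow_self (p : ℤ) two_ne_zero).trans (g'.fv hp hpv).2)
  have a3 : (u : ℤ) ∣ t - t' := by
    have := sq_pow_dvd (dv_squarefree hu) 1 (t - t') fun p hp hpu => by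
      rw [pow_one]
      exact h1 p hp (hpu.mul_left _)
    rwa [pow_one] at this
  have c1 : IsCoprime ((s ^ 2 : ℕ) : ℤ) ((v ^ 2 : ℕ) : ℤ) :=
    Nat.isCoprime_iff_coprime.2 (g.cop.pow 2 2)
  have c2 : IsCoprime ((s ^ 2 * v ^ 2 : ℕ) : ℤ) (u : ℤ) := by
    rw [← mul_pow]
    exact Nat.isCoprime_iff_coprime.2 ((g.copu hs hv hu).pow_left 2)
  rw [Nat.cast_mul]
  refine c2.mul_dvd ?_ a3
  rw [Nat.cast_mul]
  exact c1.mul_dvd a1 a2

lemma Ph_congrU {t t' : ℕ} (hd : Dr f z (t' : ℤ)) (hzy : z < y) (hs : s ∈ (PP z y).divisors)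
    (hv : v ∈ (PP z y).divisors) (hu : u ∈ (PP y Y).divisors) (g : Gt f z y s v u (t : ℤ))
    (g' : Gt f z y s v u (t' : ℤ)) (h : Ph f s v u t = Ph f s v u t') :
    ((s ^ 2 * v ^ 2 * u : ℕ) : ℤ) ∣ (t : ℤ) - t' := by
  have hne : s * v * u ≠ 0 := by
    have h1 := dv_ne_zero hs
    have h2 := dv_ne_zero hv
    have h3 := dv_ne_zero hu
    positivity
  refine congr_ofU hd hzy hs hv hu g g' (fun p hp hpd => ?_) (fun p hp hps => ?_)
  · have h1 := congrFun h ⟨p, Nat.mem_primeFactors.2 ⟨hp, hpd, hne⟩⟩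
    unfold Ph at h1
    have h2 : t % p = t' % p := congrArg Prod.fst h1
    have h3 : t ≡ t' [MOD p] := h2
    have h4 := (Nat.modEq_iff_dvd.1 h3.symm)
    exact h4
  · have h1 := congrFun h ⟨p, Nat.mem_primeFactors.2 ⟨hp, (hps.mul_right v).mul_right u, hne⟩⟩
    unfold Ph at h1
    have h2 : (if p ∣ s then ((f.eval (t : ℤ) / (p : ℤ)) % (p : ℤ)).toNat else 0) =
      (if p ∣ s then ((f.eval (t' : ℤ) / (p : ℤ)) % (p : ℤ)).toNat else 0) :=
      congrArg Prod.snd h1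
    rw [if_pos hps, if_pos hps] at h2
    have hpos : (0 : ℤ) < p := by exact_mod_cast hp.pos
    have h3 : (f.eval (t : ℤ) / (p : ℤ)) % (p : ℤ) = (f.eval (t' : ℤ) / (p : ℤ)) % (p : ℤ) := by
      have h4 := Int.emod_nonneg (f.eval (t : ℤ) / (p : ℤ)) hpos.ne'
      have h5 := Int.emod_nonneg (f.eval (t' : ℤ) / (p : ℤ)) hpos.ne'
      omega
    have h6 : (p : ℤ) ∣ f.eval (t : ℤ) / (p : ℤ) - f.eval (t' : ℤ) / (p : ℤ) :=
      Int.ModEq.dvd (Eq.symm h3)
    have h7 : f.eval (t : ℤ) = p * (f.eval (t : ℤ) / p) :=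
      (Int.mul_ediv_cancel' (g.fs hp hps).2.1).symm
    have h8 : f.eval (t' : ℤ) = p * (f.eval (t' : ℤ) / p) :=
      (Int.mul_ediv_cancel' (g'.fs hp hps).2.1).symm
    rw [h7, h8, ← mul_sub, sq]
    exact mul_dvd_mul_left _ h6

end

/-- **the count**, uniform in the polynomial -/
theorem cntqU (d Me : ℕ) : ∃ (K y0 : ℕ), 1 ≤ K ∧ ∀ (f : ℤ[X]) (z : ℕ), 2 * d + 2 ≤ z →
    (∀ p : ℕ, p.Prime → z < p → rho f p ≤ d) → ∀ C1 : ℝ, 0 ≤ C1 →
    ∀ X y Y : ℕ, y0 ≤ y → z < y → ∏ p ∈ PS z y, (1 - (rho f p : ℝ) / p) ≤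
      C1 / (Real.log y) ^ Me → y ^ K ≤ X → ∀ s ∈ (PP z y).divisors,
      ∀ v ∈ (PP z y).divisors, ∀ u ∈ (PP y Y).divisors, (s * v * u) ^ 8 ≤ X →
      ∀ (E : Finset ℕ) (θ : ℕ → ℕ) (T : Finset ℕ), T ⊆ Icc 1 X →
      (∀ t ∈ T, Dr f z (t : ℤ) ∧ Gt f z y s v u (t : ℤ) ∧
        ngs (f.eval (t : ℤ)) s = E ∧ ∀ p ∈ s.primeFactors, t % p = θ p) →
      (T.card : ℝ) ≤
        (4 * C1 + 1) * X * (1 / 2) ^ s.primeFactors.card * gh (h0 f) s *
          ((d : ℝ) ^ v.primeFactors.card * (gh (h0 f) v / v)) *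
          ((d : ℝ) ^ u.primeFactors.card / u) / (Real.log y) ^ Me := by
  classical
  obtain ⟨K, y0, hK, hSV'⟩ := svpU d Me
  refine ⟨K, y0, hK, ?_⟩
  intro f z hzd hρd C1 hC1 X y Y hy0 hzy hPr hX s hs v hv u hu hsvu E θ T hTX hgood'
  obtain ⟨C, hCd⟩ : ∃ C : ℝ, C = 4 * C1 + 1 := ⟨_, rfl⟩
  have hC : 0 ≤ C := by rw [hCd]; positivity
  have hSV := hSV' f z hzd hρd C1 hC1 X y hy0 hzy hPr hX
  rw [← hCd] at hSV ⊢
  have hz : 2 ≤ z := by omega
  have hlog : 0 ≤ (Real.log y) ^ Me := pow_nonneg (Real.log_natCast_nonneg y) _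
  have hsub : ∀ p : ℕ, p.Prime → z < p → 0 < (p : ℝ) - rho f p := by
    intro p hp hzp
    have h1 := hρd p hp hzp
    have h3 : ((rho f p : ℕ) : ℝ) < p := by exact_mod_cast (by omega : rho f p < p)
    linarith
  have hgh : ∀ n ∈ (PP z y).divisors, 0 ≤ gh (h0 f) n := by
    intro n hn
    unfold gh h0
    refine prod_nonneg fun p hp => div_nonneg zero_le_one (hsub p ?_ ?_).le
    · exact Nat.prime_of_mem_primeFactors hp
    · exact (dv_prime hn (Nat.prime_of_mem_primeFactors hp) (Nat.dvd_of_mem_primeFactors hp)).1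
  have hgs := hgh s hs
  have hgv := hgh v hv
  have hgood : ∀ t ∈ T, Gt f z y s v u (t : ℤ) ∧ ngs (f.eval (t : ℤ)) s = E ∧
      ∀ p ∈ s.primeFactors, t % p = θ p := fun t ht => (hgood' t ht).2
  rcases T.eq_empty_or_nonempty with hTe | ⟨t0, ht0⟩
  · rw [hTe, card_empty, Nat.cast_zero]
    positivity
  obtain ⟨m, hm⟩ : ∃ m, m = s ^ 2 * v ^ 2 * u := ⟨_, rfl⟩
  have hs1 := dv_pos hs
  have hv1 := dv_pos hv
  have hu1 := dv_pos hu
  have hm1 : 1 ≤ m := by rw [hm]; exact Nat.succ_le_of_lt (by positivity)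
  have hm4 : m ^ 4 ≤ X := by
    refine le_trans ?_ hsvu
    have h1 : m ≤ (s * v * u) ^ 2 := by
      rw [hm]
      calc s ^ 2 * v ^ 2 * u ≤ s ^ 2 * v ^ 2 * (u * u) := by
            apply Nat.mul_le_mul_left
            nlinarith
        _ = (s * v * u) ^ 2 := by ring
    calc m ^ 4 ≤ ((s * v * u) ^ 2) ^ 4 := Nat.pow_le_pow_left h1 4
      _ = (s * v * u) ^ 8 := by rw [← pow_mul]
  have hsq := (hgood t0 ht0).1
  obtain ⟨B, hBdef⟩ : ∃ B, B = C * (X / m) * (∏ p ∈ m.primeFactors.filter (fun p => p ∈ PS z y),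
        (p : ℝ) / ((p : ℝ) - rho f p)) / (Real.log y) ^ Me := ⟨_, rfl⟩
  have hfib : ∀ φ : (s * v * u).primeFactors → ℕ × ℕ,
      ((T.filter (fun t : ℕ => Ph f s v u t = φ)).card : ℝ) ≤ B := by
    intro φ
    rcases (T.filter (fun t : ℕ => Ph f s v u t = φ)).eq_empty_or_nonempty with
      he | ⟨r, hr⟩
    · rw [he, card_empty, Nat.cast_zero, hBdef]
      exact le_trans (Nat.cast_nonneg _) (hSV m 0 hm1 hm4)
    · rw [hBdef]
      refine le_trans ?_ (hSV m r hm1 hm4)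
      rw [Nat.cast_le]
      apply card_le_card
      intro t ht
      rw [mem_filter] at ht hr
      have g := (hgood t ht.1).1
      have g' := (hgood r hr.1).1
      have htX : t ∈ Icc 1 X := hTX ht.1
      rw [mem_filter]
      refine ⟨htX, ?_, ?_⟩
      · have h1 := Ph_congrU (hgood' r hr.1).1 hzy hs hv hu g g' (ht.2.trans hr.2.symm)
        rw [← hm] at h1
        exact ((Nat.modEq_iff_dvd.2 h1)).symm
      · intro p hpP hpm hpf
        have hp := (mem_PS.1 hpP).2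
        apply hpm
        rw [hm]
        by_cases h2 : (p : ℤ) ^ 2 ∣ f.eval (t : ℤ)
        · have h3 : p ∣ v := by
            rw [← g.hv]
            exact (dvd_t2 hp).2 ⟨hpP, h2⟩
          exact ((h3.pow two_ne_zero).mul_left _).mul_right _
        · have h3 : p ∣ s := by
            rw [← g.hs]
            exact (dvd_t1 hp).2 ⟨hpP, hpf, h2⟩
          exact ((h3.pow two_ne_zero).mul_right _).mul_right _
  have hB0 : 0 ≤ B := by
    rw [hBdef]
    exact le_trans (Nat.cast_nonneg _) (hSV m 0 hm1 hm4)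
  have hcard : (T.card : ℝ) ≤
      ((Fintype.piFinset (fun p : (s * v * u).primeFactors => Wq f s E θ p.1)).card : ℝ) * B := by
    rw [card_eq_sum_card_fiberwise (f := fun t : ℕ => Ph f s v u t)
      (t := Fintype.piFinset (fun p : (s * v * u).primeFactors => Wq f s E θ p.1))
      (fun t ht => Ph_memq hs hv hu (hgood t ht).1 (hgood t ht).2.1 (hgood t ht).2.2)]
    rw [Nat.cast_sum]
    refine (sum_le_sum fun φ _ => hfib φ).trans ?_
    rw [sum_const, nsmul_eq_mul]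
  refine hcard.trans ((mul_le_mul_of_nonneg_right (card_Phq hz hsq hs hv hu E θ) hB0).trans ?_)
  have hmp : ∏ p ∈ m.primeFactors.filter (fun p => p ∈ PS z y),
      (p : ℝ) / ((p : ℝ) - rho f p) =
      (∏ p ∈ s.primeFactors, (p : ℝ) / ((p : ℝ) - rho f p)) *
        ∏ p ∈ v.primeFactors, (p : ℝ) / ((p : ℝ) - rho f p) := by
    rw [hm, mod_primes hs hv hu, hsq.cop.primeFactors_mul,
      prod_union hsq.cop.disjoint_primeFactors]
  have hu' : ∏ p ∈ u.primeFactors, (rho f p : ℝ) ≤ (d : ℝ) ^ u.primeFactors.card := by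
    rw [← prod_const]
    refine prod_le_prod (fun p _ => Nat.cast_nonneg _) fun p hp => ?_
    have h1 := dv_prime hu (Nat.prime_of_mem_primeFactors hp) (Nat.dvd_of_mem_primeFactors hp)
    exact_mod_cast hρd p (Nat.prime_of_mem_primeFactors hp) (by omega)
  have hv' : ∏ p ∈ v.primeFactors, (rho f p : ℝ) ≤ (d : ℝ) ^ v.primeFactors.card := by
    rw [← prod_const]
    refine prod_le_prod (fun p _ => Nat.cast_nonneg _) fun p hp => ?_
    have h1 := dv_prime hv (Nat.prime_of_mem_primeFactors hp) (Nat.dvd_of_mem_primeFactors hp)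
    exact_mod_cast hρd p (Nat.prime_of_mem_primeFactors hp) (by omega)
  have es : (∏ p ∈ s.primeFactors, ((1 / 2) * (p : ℝ))) *
      (∏ p ∈ s.primeFactors, (p : ℝ) / ((p : ℝ) - rho f p)) =
      (1 / 2) ^ s.primeFactors.card * (s : ℝ) ^ 2 * gh (h0 f) s := by
    rw [cast_pf hs, ← prod_pow]
    unfold gh h0
    rw [← prod_const, ← prod_mul_distrib, ← prod_mul_distrib, ← prod_mul_distrib]
    refine prod_congr rfl fun p hp => ?_
    ring
  have ev : (∏ p ∈ v.primeFactors, (p : ℝ) / ((p : ℝ) - rho f p)) = (v : ℝ) * gh (h0 f) v := by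
    rw [cast_pf hv]
    unfold gh h0
    rw [← prod_mul_distrib]
    refine prod_congr rfl fun p hp => ?_
    ring
  have hs0 : (s : ℝ) ≠ 0 := by positivity
  have hv0 : (v : ℝ) ≠ 0 := by positivity
  have hu0 : (u : ℝ) ≠ 0 := by positivity
  have hmc : (m : ℝ) = (s : ℝ) ^ 2 * (v : ℝ) ^ 2 * u := by
    rw [hm]
    push_cast
    ring
  rw [hBdef, hmp, hmc]
  obtain ⟨a, ha⟩ : ∃ a, a = ∏ p ∈ s.primeFactors, ((1 / 2) * (p : ℝ)) := ⟨_, rfl⟩
  obtain ⟨a', ha'⟩ : ∃ a', a' = ∏ p ∈ s.primeFactors, (p : ℝ) / ((p : ℝ) - rho f p) := ⟨_, rfl⟩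
  obtain ⟨b, hb⟩ : ∃ b, b = ∏ p ∈ v.primeFactors, (rho f p : ℝ) := ⟨_, rfl⟩
  obtain ⟨b', hb'⟩ : ∃ b', b' = ∏ p ∈ v.primeFactors, (p : ℝ) / ((p : ℝ) - rho f p) := ⟨_, rfl⟩
  have hb0 : 0 ≤ b := by rw [hb]; exact prod_nonneg fun p _ => Nat.cast_nonneg _
  rw [← ha, ← ha'] at es
  rw [← hb'] at ev
  rw [← hb] at hv'
  rw [← ha, ← hb, ← ha', ← hb']
  calc a * b * (∏ p ∈ u.primeFactors, (rho f p : ℝ)) *
        (C * (X / ((s : ℝ) ^ 2 * (v : ℝ) ^ 2 * u)) * (a' * b') / (Real.log y) ^ Me)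
      = C * X * ((a * a') * (b * b')) * (∏ p ∈ u.primeFactors, (rho f p : ℝ)) /
          ((s : ℝ) ^ 2 * (v : ℝ) ^ 2 * u) / (Real.log y) ^ Me := by ring
    _ = C * X * (1 / 2) ^ s.primeFactors.card * gh (h0 f) s * (b * (gh (h0 f) v / v)) *
          ((∏ p ∈ u.primeFactors, (rho f p : ℝ)) / u) / (Real.log y) ^ Me := by
        rw [es, ev]
        field_simp
    _ ≤ _ := by
        apply div_le_div_of_nonneg_right _ hlog
        refine mul_le_mul (mul_le_mul_of_nonneg_left (mul_le_mul_of_nonneg_right hv' ?_)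
          (by positivity)) (div_le_div_of_nonneg_right hu' (Nat.cast_nonneg u)) ?_ ?_
        · exact div_nonneg hgv (Nat.cast_nonneg _)
        · exact div_nonneg (prod_nonneg fun p _ => Nat.cast_nonneg _) (Nat.cast_nonneg _)
        · exact mul_nonneg (by positivity) (mul_nonneg (by positivity)
            (div_nonneg hgv (Nat.cast_nonneg _)))

end Pool.Agent.U214.UN
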