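import Mathlib
import Pool.Agent.U214.UN.Cnt
import Pool.Agent.U214.GT.Loc

/-!
# The homogeneous values and the residues `m / n` modulo `p`
-/

set_option autoImplicit false

namespace Pool.Agent.U214.UN

open Finset Polynomial Pool.Agent.U214.PT Pool.Agent.U214.GT
open Pool.Agent.H474R2.PG (rho)

/-- the homogeneous value `n ^ deg f * f (m / n)` -/
noncomputable def ev (f : ℤ[X]) (n : ℕ) (m : ℤ) : ℤ := (f.scaleRoots (n : ℤ)).eval m

/-- the residue of `m / n` -/
noncomputable def th (p n : ℕ) (m : ℤ) : ℕ := ((m : ZMod p) * (n : ZMod p)⁻¹).val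

lemma ev_mul (f g : ℤ[X]) (n : ℕ) (m : ℤ) : ev (f * g) n m = ev f n m * ev g n m := by
  unfold ev
  rw [mul_scaleRoots_of_noZeroDivisors, eval_mul]

lemma ev_neg (f : ℤ[X]) (n : ℕ) (m : ℤ) : ev (-f) n m = -ev f n m := by
  unfold ev
  have : (-f).scaleRoots (n : ℤ) = -(f.scaleRoots (n : ℤ)) := by
    ext i
    rw [coeff_scaleRoots, coeff_neg, coeff_neg, coeff_scaleRoots, natDegree_neg]
    ring
  rw [this, eval_neg]

lemma ev_one (f : ℤ[X]) (m : ℤ) : ev f 1 m = f.eval m := by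
  unfold ev
  rw [Nat.cast_one, scaleRoots_one]

section

variable {p : ℕ} (hp : p.Prime) {n : ℕ} (hn : ¬ p ∣ n)

include hp hn

lemma nz : (n : ZMod p) ≠ 0 := by
  haveI : Fact p.Prime := ⟨hp⟩
  intro h
  exact hn ((ZMod.natCast_eq_zero_iff n p).1 h)

lemma sc_map (f : ℤ[X]) :
    (f.scaleRoots (n : ℤ)).map (Int.castRingHom (ZMod p)) =
      C ((n : ZMod p) ^ f.natDegree) *
        (f.map (Int.castRingHom (ZMod p))).comp (C (n : ZMod p)⁻¹ * X) := by
  haveI : Fact p.Prime := ⟨hp⟩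
  have h0 := nz hp hn
  ext i
  rw [coeff_map, coeff_scaleRoots, coeff_C_mul, comp_C_mul_X_coeff, coeff_map]
  rcases Nat.lt_or_ge f.natDegree i with h | h
  · rw [coeff_eq_zero_of_natDegree_lt h]
    simp
  · rw [map_mul, map_pow]
    have h1 : (n : ZMod p) ^ f.natDegree = (n : ZMod p) ^ (f.natDegree - i) * (n : ZMod p) ^ i := by
      rw [← pow_add, Nat.sub_add_cancel h]
    rw [h1, inv_pow]
    have h2 : (n : ZMod p) ^ i ≠ 0 := pow_ne_zero _ h0
    simp only [eq_intCast, Int.cast_natCast]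
    field_simp

lemma th_cast (m : ℤ) : ((th p n m : ℕ) : ZMod p) = (m : ZMod p) * (n : ZMod p)⁻¹ := by
  haveI : Fact p.Prime := ⟨hp⟩
  unfold th
  rw [ZMod.natCast_zmod_val]

lemma th_lt (m : ℤ) : th p n m < p := by
  haveI : Fact p.Prime := ⟨hp⟩
  exact ZMod.val_lt _

lemma ev_z (f : ℤ[X]) (m : ℤ) : ((ev f n m : ℤ) : ZMod p) =
    (n : ZMod p) ^ f.natDegree * ((f.eval ((th p n m : ℕ) : ℤ) : ℤ) : ZMod p) := by
  have h1 : ((ev f n m : ℤ) : ZMod p) =
      ((f.scaleRoots (n : ℤ)).map (Int.castRingHom (ZMod p))).eval (m : ZMod p) := by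
    unfold ev
    rw [eval_intCast_map]
    simp
  have h2 : ((f.eval ((th p n m : ℕ) : ℤ) : ℤ) : ZMod p) =
      (f.map (Int.castRingHom (ZMod p))).eval ((m : ZMod p) * (n : ZMod p)⁻¹) := by
    rw [← th_cast hp hn m]
    have h3 := eval_intCast_map (Int.castRingHom (ZMod p)) f ((th p n m : ℕ) : ℤ)
    simp only [Int.cast_natCast] at h3
    rw [h3]
    simp
  rw [h1, h2, sc_map hp hn, eval_mul, eval_C, eval_comp, eval_mul, eval_C, eval_X, mul_comm (m : ZMod p)]

/-- divisibility in terms of the residue -/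
lemma dvd_ev (f : ℤ[X]) (m : ℤ) : (p : ℤ) ∣ ev f n m ↔ (p : ℤ) ∣ f.eval ((th p n m : ℕ) : ℤ) := by
  haveI : Fact p.Prime := ⟨hp⟩
  rw [← ZMod.intCast_zmod_eq_zero_iff_dvd, ← ZMod.intCast_zmod_eq_zero_iff_dvd, ev_z hp hn f m,
    mul_eq_zero]
  exact or_iff_right (pow_ne_zero _ (nz hp hn))

lemma ev_sub (f : ℤ[X]) (m : ℤ) :
    (p : ℤ) ∣ ev f n m - (n : ℤ) ^ f.natDegree * f.eval ((th p n m : ℕ) : ℤ) := by
  haveI : Fact p.Prime := ⟨hp⟩
  rw [← ZMod.intCast_zmod_eq_zero_iff_dvd]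
  push_cast
  rw [ev_z hp hn f m, sub_self]

/-- the derivative -/
lemma der_z (f : ℤ[X]) (m : ℤ) :
    (((derivative (f.scaleRoots (n : ℤ))).eval m : ℤ) : ZMod p) * (n : ZMod p) =
    (n : ZMod p) ^ f.natDegree * (((derivative f).eval ((th p n m : ℕ) : ℤ) : ℤ) : ZMod p) := by
  haveI : Fact p.Prime := ⟨hp⟩
  have h1 : (((derivative (f.scaleRoots (n : ℤ))).eval m : ℤ) : ZMod p) =
      (derivative ((f.scaleRoots (n : ℤ)).map (Int.castRingHom (ZMod p)))).eval (m : ZMod p) := by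
    rw [derivative_map, eval_intCast_map]
    simp
  have h2 : (((derivative f).eval ((th p n m : ℕ) : ℤ) : ℤ) : ZMod p) =
      (derivative (f.map (Int.castRingHom (ZMod p)))).eval ((m : ZMod p) * (n : ZMod p)⁻¹) := by
    rw [← th_cast hp hn m, derivative_map]
    have h3 := eval_intCast_map (Int.castRingHom (ZMod p)) (derivative f) ((th p n m : ℕ) : ℤ)
    simp only [Int.cast_natCast] at h3
    rw [h3]
    simp
  rw [h1, h2, sc_map hp hn, derivative_C_mul, derivative_comp, derivative_C_mul, derivative_X,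
    mul_one, eval_mul, eval_mul, eval_C, eval_C, eval_comp, eval_mul, eval_C, eval_X,
    mul_comm (m : ZMod p)]
  have h0 := nz hp hn
  field_simp

lemma der_nd (f : ℤ[X]) (m : ℤ)
    (h : ¬ (p : ℤ) ∣ (derivative f).eval ((th p n m : ℕ) : ℤ)) :
    ¬ (p : ℤ) ∣ (derivative (f.scaleRoots (n : ℤ))).eval m := by
  haveI : Fact p.Prime := ⟨hp⟩
  intro h1
  rw [← ZMod.intCast_zmod_eq_zero_iff_dvd] at h1 h
  have h2 := der_z hp hn f m
  rw [h1, zero_mul] at h2
  rcases mul_eq_zero.1 h2.symm with h3 | h3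
  · exact pow_ne_zero _ (nz hp hn) h3
  · exact h h3

/-- the quadratic character -/
lemma jac_ev {f : ℤ[X]} (hsq : IsSquare ((n : ℤ) ^ f.natDegree)) (m x : ℤ) :
    jacobiSym (f.eval ((th p n m : ℕ) : ℤ) * x) p = jacobiSym (ev f n m * x) p := by
  haveI : Fact p.Prime := ⟨hp⟩
  have hpi : Prime (p : ℤ) := Nat.prime_iff_prime_int.1 hp
  obtain ⟨ν, hν⟩ := hsq
  have hνn : ¬ (p : ℤ) ∣ ν := by
    intro h
    have h1 : (p : ℤ) ∣ (n : ℤ) ^ f.natDegree := by rw [hν]; exact h.mul_right _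
    exact hn (Int.natCast_dvd_natCast.1 (hpi.dvd_of_dvd_pow h1))
  have h2 : jacobiSym (ν ^ 2) p = 1 := by
    apply jacobiSym.sq_one'
    rw [← Int.isCoprime_iff_gcd_eq_one]
    exact ((Prime.coprime_iff_not_dvd hpi).2 hνn).symm
  have h3 : jacobiSym (ev f n m * x) p =
      jacobiSym (ν ^ 2 * (f.eval ((th p n m : ℕ) : ℤ) * x)) p := by
    apply jac_cong
    have h4 := ev_sub hp hn f m
    rw [hν] at h4
    have h5 : ev f n m * x - ν ^ 2 * (f.eval ((th p n m : ℕ) : ℤ) * x) =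
        (ev f n m - ν * ν * f.eval ((th p n m : ℕ) : ℤ)) * x := by ring
    rw [h5]
    exact h4.mul_right _
  rw [h3, jacobiSym.mul_left (ν ^ 2), h2, one_mul]

end

/-- the polynomial in the variable `t = m - u` -/
noncomputable def pu (f : ℤ[X]) (n : ℕ) (u : ℤ) : ℤ[X] := (f.scaleRoots (n : ℤ)).comp (X + C u)

lemma pu_eval (f : ℤ[X]) (n : ℕ) (u t : ℤ) : (pu f n u).eval t = ev f n (t + u) := by
  unfold pu ev
  rw [eval_comp, eval_add, eval_X, eval_C]

lemma pu_der (f : ℤ[X]) (n : ℕ) (u t : ℤ) :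
    (derivative (pu f n u)).eval t = (derivative (f.scaleRoots (n : ℤ))).eval (t + u) := by
  unfold pu
  rw [derivative_comp, derivative_add, derivative_X, derivative_C, add_zero, one_mul, eval_comp,
    eval_add, eval_X, eval_C]

/-- the number of the roots -/
lemma rho_pu {p : ℕ} (hp : p.Prime) {n : ℕ} (hn : ¬ p ∣ n) (f : ℤ[X]) (u : ℤ) :
    rho (pu f n u) p = rho f p := by
  classical
  haveI : Fact p.Prime := ⟨hp⟩
  have h0 := nz hp hn
  rw [rho_eq_z hp, rho_eq_z hp]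
  have hev : ∀ a : ZMod p, ((pu f n u).map (Int.castRingHom (ZMod p))).eval a =
      (n : ZMod p) ^ f.natDegree *
        (f.map (Int.castRingHom (ZMod p))).eval ((n : ZMod p)⁻¹ * (a + u)) := by
    intro a
    unfold pu
    rw [Polynomial.map_comp, sc_map hp hn, Polynomial.map_add, map_X, map_C, eval_comp, eval_mul,
      eval_C, eval_comp, eval_mul, eval_C, eval_X, eval_add, eval_X, eval_C]
    simp
  refine Finset.card_bij (fun a _ => (n : ZMod p)⁻¹ * (a + u)) ?_ ?_ ?_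
  · intro a ha
    rw [mem_filter, hev] at ha
    rw [mem_filter]
    refine ⟨mem_univ _, ?_⟩
    rcases mul_eq_zero.1 ha.2 with h | h
    · exact absurd h (pow_ne_zero _ h0)
    · exact h
  · intro a _ b _ hab
    have h1 := mul_left_cancel₀ (inv_ne_zero h0) hab
    exact add_right_cancel h1
  · intro b hb
    rw [mem_filter] at hb
    refine ⟨(n : ZMod p) * b - u, ?_, ?_⟩
    · rw [mem_filter, hev]
      refine ⟨mem_univ _, ?_⟩
      have e1 : (n : ZMod p)⁻¹ * ((n : ZMod p) * b - u + u) = b := by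
        rw [sub_add_cancel, ← mul_assoc, inv_mul_cancel₀ h0, one_mul]
      rw [e1, hb.2, mul_zero]
    · rw [sub_add_cancel, ← mul_assoc, inv_mul_cancel₀ h0, one_mul]

/-- modulo a divisor of `n` -/
lemma dvd_n {p : ℕ} (hp : p.Prime) {n : ℕ} (hn : p ∣ n) (f : ℤ[X]) (m : ℤ)
    (h : (p : ℤ) ∣ ev f n m) : (p : ℤ) ∣ f.leadingCoeff * m ^ f.natDegree := by
  have h1 : (p : ℤ) ∣ ev f n m - f.leadingCoeff * m ^ f.natDegree := by
    unfold ev
    rw [eval_eq_sum_range, natDegree_scaleRoots, sum_range_succ, coeff_scaleRoots, Nat.sub_self,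
      pow_zero, mul_one, coeff_natDegree, add_sub_cancel_right]
    refine Finset.dvd_sum fun i hi => ?_
    rw [coeff_scaleRoots]
    have h2 : (p : ℤ) ∣ (n : ℤ) ^ (f.natDegree - i) := by
      have h3 := mem_range.1 hi
      exact dvd_pow (Int.natCast_dvd_natCast.2 hn) (by omega)
    exact (h2.mul_left _).mul_right _
  have h2 := dvd_sub h h1
  rwa [sub_sub_cancel] at h2

end Pool.Agent.U214.UN
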