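import Mathlib
import Pool.Agent.U214.UN.Rank
import Pool.Agent.U214.UN.Main
import Pool.Agent.U214.GT.Asm

/-!
# The uniform moments: assembly
-/

set_option autoImplicit false

namespace Pool.Agent.U214.UN

open Finset Polynomial Pool.Agent.W262.RK Pool.Agent.U214.PT Pool.Agent.U214.GT
open UniqueFactorizationMonoid
open Pool.Agent.W307.RT (S1 S2 Gd)
open Pool.Agent.H474R2.PG (rho)

variable {A B D : ℤ[X]} {d z n : ℕ} {m : ℤ}

/-- the size of the values -/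
lemma ev_bound (f : ℤ[X]) : ∃ L : ℕ, ∀ (n : ℕ) (m : ℤ) (M : ℕ), 1 ≤ M → n ≤ M → m.natAbs ≤ M →
    (ev f n m).natAbs ≤ L * M ^ f.natDegree := by
  refine ⟨∑ i ∈ range (f.natDegree + 1), (f.coeff i).natAbs, fun n m M hM hn hm => ?_⟩
  unfold ev
  rw [eval_eq_sum_range, natDegree_scaleRoots]
  refine (Int.natAbs_sum_le _ _).trans ?_
  rw [sum_mul]
  refine sum_le_sum fun i hi => ?_
  rw [coeff_scaleRoots, Int.natAbs_mul, Int.natAbs_mul, Int.natAbs_pow, Int.natAbs_pow,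
    Int.natAbs_natCast, mul_assoc]
  refine Nat.mul_le_mul_left _ ?_
  have h1 := mem_range.1 hi
  calc n ^ (f.natDegree - i) * m.natAbs ^ i ≤ M ^ (f.natDegree - i) * M ^ i :=
        Nat.mul_le_mul (Nat.pow_le_pow_left hn _) (Nat.pow_le_pow_left hm _)
    _ = M ^ f.natDegree := by
        rw [← pow_add]
        congr 1
        omega

lemma WtJ.mono {z1 z2 : ℕ} {C0 : ℝ} (h : WtJ A B D d z1 C0) (hz : z1 ≤ z2) :
    WtJ A B D d z2 C0 where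
  pg := Pg.mono h.pg hz
  d1 := h.d1
  w1 := h.w1.mono hz
  wj := fun j => (h.wj j).mono hz
  sv := fun z hz' => h.sv z (hz.trans hz')

lemma ad_one (A B D : ℤ[X]) : Ad A B D 1 where
  sub := fun m => by rw [ev_one, ev_one, ev_one, eval_sub]
  sq := fun j k _ => by
    rw [Nat.cast_one, one_pow]
    exact ⟨1, rfl⟩

/-- the points -/
noncomputable def Pt (f : ℤ[X]) (n : ℕ) (u : ℤ) (X : ℕ) : Finset ℤ :=
  (Ioc u (u + X)).filter (fun m => IsCoprime m (n : ℤ) ∧ ev f n m ≠ 0)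

lemma cp_of {z1 : ℕ} (hlc : ∀ p : ℕ, p.Prime → z1 < p → ¬ (p : ℤ) ∣ (ft A B D).leadingCoeff)
    (h : IsCoprime m (n : ℤ)) : Cp A B D z1 n m := by
  intro p hp hz hpd hpn
  have hpi : Prime (p : ℤ) := Nat.prime_iff_prime_int.1 hp
  rcases hpi.dvd_or_dvd (dvd_n hp hpn _ _ hpd) with h1 | h1
  · exact hlc p hp hz h1
  · exact hpi.not_unit (h.isUnit_of_dvd' (hpi.dvd_of_dvd_pow h1) (Int.natCast_dvd_natCast.2 hpn))

/-- the moments away from the zeros, uniformly -/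
theorem coreU {Q : ℤ → ℤ → ℝ} (hQ : QL Q) (hs : Sep (ft A B D))
    (hd : 0 < (ft A B D).natDegree) {r : ℕ} {e : ℝ} (hE : Ex A B D r e) (K : ℕ) :
    ∃ C : ℝ, ∀ X n : ℕ, ∀ u : ℤ, 1 ≤ X → 1 ≤ n → n ≤ X ^ K → u.natAbs ≤ X ^ K → Ad A B D n →
      ∑ m ∈ Pt (ft A B D) n u X, Q (ev A n m * ev D n m) (ev B n m * ev D n m) ^ r ≤
        C * (wd (ft A B D).natDegree n * X * (1 + Real.log X) ^ e) := by
  classical
  obtain ⟨z0, C0, hW0⟩ := wtJ_of hs hd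
  have hn : ft A B D ≠ 0 := fun h => by
    rw [h, natDegree_zero] at hd
    exact absurd hd (lt_irrefl 0)
  obtain ⟨z1, hz1⟩ : ∃ z1, z1 = z0 + (ft A B D).leadingCoeff.natAbs := ⟨_, rfl⟩
  have hW := WtJ.mono hW0 (show z0 ≤ z1 by omega)
  have hlc : ∀ p : ℕ, p.Prime → z1 < p → ¬ (p : ℤ) ∣ (ft A B D).leadingCoeff := by
    intro p hp hz h
    have h1 := Nat.le_of_dvd (Int.natAbs_pos.2 (leadingCoeff_ne_zero.2 hn)) (Int.natCast_dvd.1 h)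
    omega
  obtain ⟨L, hL⟩ := ev_bound (ft A B D)
  obtain ⟨d, hdd⟩ : ∃ d, d = (ft A B D).natDegree := ⟨_, rfl⟩
  rw [← hdd] at hW hL hd ⊢
  obtain ⟨R, hR⟩ : ∃ R : ℕ × ℤ → ℝ, R = fun ω : ℕ × ℤ =>
    Q (ev A ω.1 ω.2 * ev D ω.1 ω.2) (ev B ω.1 ω.2 * ev D ω.1 ω.2) ^ r := ⟨_, rfl⟩
  have hR0 : ∀ ω, 0 ≤ R ω := fun ω => by
    rw [hR]
    exact pow_nonneg (hQ.nn _ _) _
  -- the worst case
  obtain ⟨S, hS⟩ : ∃ S : ℕ → ℕ × ℤ → ℝ, S = fun X ω =>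
    ∑ m ∈ Pt (ft A B D) ω.1 ω.2 X, R (ω.1, m) := ⟨_, rfl⟩
  have hwc : ∀ X : ℕ, ∃ ω : ℕ × ℤ, ω.1 ≠ 0 ∧ (1 ≤ X → ω.1 ≤ X ^ K ∧ ω.2.natAbs ≤ X ^ K ∧
      Ad A B D ω.1 ∧ ∀ ω' : ℕ × ℤ, 1 ≤ ω'.1 → ω'.1 ≤ X ^ K → ω'.2.natAbs ≤ X ^ K →
        Ad A B D ω'.1 → S X ω' / wd d ω'.1 ≤ S X ω / wd d ω.1) := by
    intro X
    by_cases hX : 1 ≤ X
    swap
    · exact ⟨(1, 0), one_ne_zero, fun h => absurd h hX⟩
    obtain ⟨F, hF⟩ : ∃ F : Finset (ℕ × ℤ), F = ((Icc 1 (X ^ K)) ×ˢ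
      (Icc (-((X ^ K : ℕ) : ℤ)) ((X ^ K : ℕ) : ℤ))).filter (fun ω => Ad A B D ω.1) := ⟨_, rfl⟩
    have h1K : 1 ≤ X ^ K := Nat.one_le_pow _ _ hX
    have hne : F.Nonempty := by
      refine ⟨(1, 0), ?_⟩
      rw [hF, mem_filter, mem_product, mem_Icc, mem_Icc]
      refine ⟨⟨⟨le_rfl, h1K⟩, ?_, ?_⟩, ad_one A B D⟩
      · show -((X ^ K : ℕ) : ℤ) ≤ 0
        omega
      · show (0 : ℤ) ≤ ((X ^ K : ℕ) : ℤ)
        omega
    obtain ⟨ω, hω, hmax⟩ := exists_max_image F (fun ω => S X ω / wd d ω.1) hne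
    rw [hF, mem_filter, mem_product, mem_Icc, mem_Icc] at hω
    refine ⟨ω, by omega, fun _ => ⟨hω.1.1.2, by omega, hω.2, fun ω' h1 h2 h3 h4 => ?_⟩⟩
    refine hmax ω' ?_
    rw [hF, mem_filter, mem_product, mem_Icc, mem_Icc]
    exact ⟨⟨⟨h1, h2⟩, by omega, by omega⟩, h4⟩
  choose W hW0 hW1 using hwc
  obtain ⟨T, hT⟩ : ∃ T : ℕ → Finset (ℕ × ℤ), T = fun X => if 1 ≤ X then
    (Pt (ft A B D) (W X).1 (W X).2 X).image (fun m => ((W X).1, m)) else ∅ := ⟨_, rfl⟩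
  have hTm : ∀ X, ∀ ω ∈ T X, 1 ≤ X ∧ ω.1 = (W X).1 ∧ ω.2 ∈ Pt (ft A B D) (W X).1 (W X).2 X := by
    intro X ω hω
    rw [hT] at hω
    simp only at hω
    split_ifs at hω with h1
    · obtain ⟨m, hm, rfl⟩ := mem_image.1 hω
      exact ⟨h1, rfl, hm⟩
    · simp at hω
  have hPt : ∀ X, ∀ ω ∈ T X, IsCoprime ω.2 (ω.1 : ℤ) ∧ ev (ft A B D) ω.1 ω.2 ≠ 0 ∧
      (W X).2 + 1 ≤ ω.2 ∧ ω.2 ≤ (W X).2 + X := by
    intro X ω hω
    obtain ⟨_, h1, h2⟩ := hTm X ω hω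
    unfold Pt at h2
    rw [mem_filter, mem_Ioc] at h2
    rw [h1]
    exact ⟨h2.2.1, h2.2.2, by omega, h2.1.2⟩
  obtain ⟨e0, he0⟩ : ∃ e0, e0 = (K + 2) * d + 1 := ⟨_, rfl⟩
  obtain ⟨C, hC⟩ := sum_RGU (E := ((4 : ℝ) ^ e0) ^ r) hW hE hn hlc (by rw [hdd])
    (one_le_pow₀ (one_le_pow₀ (by norm_num))) (fun X => (W X).1) hW0 (fun X => (W X).2) T
    (fun X ω hω => ⟨(hTm X ω hω).2.1, (hPt X ω hω).2.2⟩)
    (fun X ω hω => (hPt X ω hω).2.1) (fun X ω hω => cp_of hlc (hPt X ω hω).1) R hR0 (z2 := z1)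
    (y2 := L + 2) (fun z hz => by
      refine ⟨((4 : ℝ) ^ (z + 2)) ^ r, by positivity, fun X y k ω hω hy2y hyX hk => ?_⟩
      obtain ⟨hX1, hω1, -⟩ := hTm X ω hω
      obtain ⟨hcop, h0, hlo, hhi⟩ := hPt X ω hω
      obtain ⟨hnK, huK, had, -⟩ := hW1 X hX1
      have hX2 : 2 ≤ X := by omega
      have hpow : X ^ K + X ≤ X ^ (K + 2) := by
        have h1K : 1 ≤ X ^ K := Nat.one_le_pow _ _ hX1
        calc X ^ K + X ≤ X ^ K * X + X ^ K * X := by nlinarith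
          _ = X ^ K * X * 2 := by ring
          _ ≤ X ^ K * X * X := Nat.mul_le_mul_left _ hX2
          _ = X ^ (K + 2) := by ring
      have hF : (ev (ft A B D) ω.1 ω.2).natAbs ≤ X ^ e0 := by
        have h1 := hL ω.1 ω.2 (X ^ (K + 2)) (Nat.one_le_pow _ _ hX1)
          (by rw [hω1]; omega) (by omega)
        refine h1.trans ?_
        calc L * (X ^ (K + 2)) ^ d ≤ X * (X ^ (K + 2)) ^ d := Nat.mul_le_mul_right _ (by omega)
          _ = X ^ e0 := by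
              rw [he0]
              ring
      rw [← hω1] at had
      have h6 := rankGU hQ (Pg.mono hW.pg hz) had (fun p hp hzp => cp_of hlc hcop p hp (by omega))
        h0 hF (by omega) (by omega : 1 ≤ y) hk
      rw [hR]
      simp only
      refine (pow_le_pow_left₀ (hQ.nn _ _) h6 r).trans (le_of_eq ?_)
      rw [mul_pow, mul_pow, mul_pow, pow_right_comm _ k r,
        pow_right_comm _ (t2 z y (ev (ft A B D) ω.1 ω.2)).primeFactors.card r])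
  refine ⟨C, fun X n u hX hn1 hnK huK had => ?_⟩
  have h1 := hC X hX
  obtain ⟨-, -, -, hmax⟩ := hW1 X hX
  have h2 := hmax (n, u) hn1 hnK huK had
  have h3 : ∑ ω ∈ T X, R ω = S X (W X) := by
    rw [hT, hS]
    simp only
    rw [if_pos hX, sum_image]
    intro a _ b _ hab
    exact (Prod.ext_iff.1 hab).2
  rw [h3] at h1
  have hw1 := one_le_wd d (W X).1
  have hw2 := one_le_wd d n
  have h4 : S X (W X) / wd d (W X).1 ≤ C * (X * (1 + Real.log X) ^ e) := by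
    rw [div_le_iff₀ (by linarith)]
    refine h1.trans (le_of_eq ?_)
    ring
  have h5 := h2.trans h4
  rw [div_le_iff₀ (by linarith)] at h5
  have h6 : S X (n, u) = ∑ m ∈ Pt (ft A B D) n u X,
      Q (ev A n m * ev D n m) (ev B n m * ev D n m) ^ r := by
    rw [hS, hR]
  rw [← h6]
  refine h5.trans (le_of_eq ?_)
  ring

end Pool.Agent.U214.UN
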