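import Mathlib
import Pool.Agent.U214.UN.Asm

/-!
# The uniform moments in the families
-/

set_option autoImplicit false

namespace Pool.Agent.U214.UN

open Finset Polynomial Pool.Agent.W262.RK Pool.Agent.U214.PT Pool.Agent.U214.GT
open UniqueFactorizationMonoid
open Pool.Agent.H474R2.PG (rho)

variable {A B D : ℤ[X]} {d z n : ℕ} {m : ℤ} {Q : ℤ → ℤ → ℝ}

lemma ev_C (c : ℤ) (n : ℕ) (m : ℤ) : ev (C c) n m = c := by
  unfold ev
  rw [eval_eq_sum_range, natDegree_scaleRoots, natDegree_C, zero_add, range_one, sum_singleton,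
    coeff_scaleRoots, coeff_C_zero, natDegree_C, pow_zero, pow_zero, mul_one, mul_one]

lemma ev_pow (f : ℤ[X]) (k n : ℕ) (m : ℤ) : ev (f ^ k) n m = ev f n m ^ k := by
  induction k with
  | zero => rw [pow_zero, pow_zero, ← C_1, ev_C]
  | succ k ih => rw [pow_succ, ev_mul, ih, pow_succ]

lemma ev_const {f : ℤ[X]} (hf : f.natDegree = 0) (n : ℕ) (m : ℤ) : ev f n m = f.coeff 0 := by
  conv_lhs => rw [eq_C_of_natDegree_eq_zero hf]
  exact ev_C _ _ _

/-- the bound dominates a linear one -/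
lemma le_WL {C e w : ℝ} (hC : 0 ≤ C) (he : 0 ≤ e) (hw : 1 ≤ w) {X : ℕ} (hX : 1 ≤ X) :
    C * X ≤ C * (w * X * (1 + Real.log X) ^ e) := by
  have hXr : (1 : ℝ) ≤ X := by exact_mod_cast hX
  have h1 : (1 : ℝ) ≤ (1 + Real.log X) ^ e :=
    Real.one_le_rpow (by have := Real.log_nonneg hXr; linarith) he
  apply mul_le_mul_of_nonneg_left _ hC
  calc (X : ℝ) = 1 * X * 1 := by ring
    _ ≤ w * X * (1 + Real.log X) ^ e := by
        apply mul_le_mul _ h1 zero_le_one (by positivity)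
        exact mul_le_mul_of_nonneg_right hw (by linarith)

lemma card_Pt (f : ℤ[X]) (n : ℕ) (u : ℤ) (X : ℕ) : (Pt f n u X).card ≤ X := by
  unfold Pt
  refine (card_filter_le _ _).trans ?_
  rw [Int.card_Ioc]
  omega

/-- the moments away from the zeros, uniformly, in general -/
theorem coreU' (hQ : QL Q) (hs : Sep (ft A B D)) {r : ℕ} {e : ℝ} (hE : Ex A B D r e) (K : ℕ) :
    ∃ C : ℝ, ∀ X n : ℕ, ∀ u : ℤ, 1 ≤ X → 1 ≤ n → n ≤ X ^ K → u.natAbs ≤ X ^ K → Ad A B D n →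
      ∑ m ∈ Pt (ft A B D) n u X, Q (ev A n m * ev D n m) (ev B n m * ev D n m) ^ r ≤
        C * (wd (ft A B D).natDegree n * X * (1 + Real.log X) ^ e) := by
  rcases Nat.eq_zero_or_pos (ft A B D).natDegree with h | h
  swap
  · exact coreU hQ hs h hE K
  by_cases h0 : ft A B D = 0
  · refine ⟨0, fun X n u hX _ _ _ _ => ?_⟩
    unfold Pt
    rw [filter_false_of_mem, sum_empty]
    · simp
    · rintro m _ ⟨_, h1⟩
      apply h1
      rw [h0, ← C_0, ev_C]
  have h1 : ∀ j, ∀ (n : ℕ) (m : ℤ), ev (fj A B D j) n m = (fj A B D j).coeff 0 := by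
    intro j n m
    have h2 : (fj A B D j).natDegree = 0 := by
      rw [← fj_mul A B D j] at h h0
      rw [natDegree_mul (left_ne_zero_of_mul h0) (right_ne_zero_of_mul h0)] at h
      omega
    exact ev_const h2 n m
  have hA := h1 0
  have hB := h1 1
  have hD := h1 3
  rw [fj0] at hA
  rw [fj1] at hB
  rw [fj3] at hD
  refine ⟨Q (A.coeff 0 * D.coeff 0) (B.coeff 0 * D.coeff 0) ^ r, fun X n u hX _ _ _ _ => ?_⟩
  simp only [hA, hB, hD]
  refine le_trans ?_ (le_WL (pow_nonneg (hQ.nn _ _) _) hE.nn (one_le_wd _ _) hX)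
  rw [sum_const, nsmul_eq_mul, mul_comm]
  refine mul_le_mul_of_nonneg_left ?_ (pow_nonneg (hQ.nn _ _) _)
  exact_mod_cast card_Pt _ _ _ _

/-- the twist by a polynomial which is `D` up to squares -/
theorem allU (hQ : QL Q) {A B D D' G : ℤ[X]} {c : ℤ} (hc : c ≠ 0)
    (hD : C (c ^ 2) * D' = G ^ 2 * D) (hs : Sep (ft A B D)) {r : ℕ} {e : ℝ}
    (hE : Ex A B D r e) (K : ℕ) :
    ∃ C : ℝ, ∀ X n : ℕ, ∀ u : ℤ, 1 ≤ X → 1 ≤ n → n ≤ X ^ K → u.natAbs ≤ X ^ K → Ad A B D n →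
      ∑ m ∈ Pt (ft A B D') n u X, Q (ev A n m * ev D' n m) (ev B n m * ev D' n m) ^ r ≤
        C * (wd (ft A B D).natDegree n * X * (1 + Real.log X) ^ e) := by
  classical
  obtain ⟨C, hC⟩ := coreU' hQ hs hE K
  refine ⟨C, fun X n u hX hn1 hnK huK had => le_trans ?_ (hC X n u hX hn1 hnK huK had)⟩
  have hevD : ∀ m, c ^ 2 * ev D' n m = (ev G n m) ^ 2 * ev D n m := by
    intro m
    have := congrArg (fun f => ev f n m) hD
    simpa only [ev_mul, ev_C, ev_pow] using this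
  have hpt : ∀ m ∈ Pt (ft A B D') n u X, m ∈ Pt (ft A B D) n u X ∧
      Q (ev A n m * ev D' n m) (ev B n m * ev D' n m) ^ r =
        Q (ev A n m * ev D n m) (ev B n m * ev D n m) ^ r := by
    intro m hm
    unfold Pt at hm ⊢
    rw [mem_filter] at hm ⊢
    have h3 := hm.2.2
    have h0 := h3
    unfold ft at h3
    rw [ev_mul, ev_mul, ev_mul] at h3
    have hd' := right_ne_zero_of_mul h3
    have hab := right_ne_zero_of_mul (left_ne_zero_of_mul h3)
    have hb := right_ne_zero_of_mul (left_ne_zero_of_mul (left_ne_zero_of_mul h3))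
    have ha := left_ne_zero_of_mul (left_ne_zero_of_mul (left_ne_zero_of_mul h3))
    rw [had.sub] at hab
    have hprod : (ev G n m) ^ 2 * ev D n m ≠ 0 := by
      rw [← hevD m]
      exact mul_ne_zero (pow_ne_zero 2 hc) hd'
    have hd := right_ne_zero_of_mul hprod
    have hg : ev G n m ≠ 0 := fun h => hprod (by rw [h]; ring)
    refine ⟨⟨hm.1, hm.2.1, ?_⟩, ?_⟩
    · unfold ft
      rw [ev_mul, ev_mul, ev_mul, had.sub]
      exact mul_ne_zero (mul_ne_zero (mul_ne_zero ha hb) hab) hd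
    have hne : ∀ x : ℤ, x ≠ 0 → ev A n m * x ≠ ev B n m * x := fun x hx h =>
      hab (by rw [mul_right_cancel₀ hx h, sub_self])
    congr 1
    rw [← hQ.sq (mul_ne_zero ha hd') (mul_ne_zero hb hd') (hne _ hd') hc,
      ← hQ.sq (mul_ne_zero ha hd) (mul_ne_zero hb hd) (hne _ hd) hg,
      show c ^ 2 * (ev A n m * ev D' n m) =
        (ev G n m) ^ 2 * (ev A n m * ev D n m) by
          linear_combination ev A n m * hevD m,
      show c ^ 2 * (ev B n m * ev D' n m) =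
        (ev G n m) ^ 2 * (ev B n m * ev D n m) by
          linear_combination ev B n m * hevD m]
  calc ∑ m ∈ Pt (ft A B D') n u X, Q (ev A n m * ev D' n m) (ev B n m * ev D' n m) ^ r
      = ∑ m ∈ Pt (ft A B D') n u X, Q (ev A n m * ev D n m) (ev B n m * ev D n m) ^ r :=
        sum_congr rfl fun m hm => (hpt m hm).2
    _ ≤ _ := sum_le_sum_of_subset_of_nonneg (fun m hm => (hpt m hm).1)
        (fun m _ _ => pow_nonneg (hQ.nn _ _) _)

/-- the twisting polynomial is coprime to the others up to squares -/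
theorem sep_of_even {A B D : ℤ[X]} (hD : D ≠ 0)
    (hS : Squarefree ((A * B * (A - B)).map (Int.castRingHom ℚ)))
    (hev : ∀ P : ℚ[X], Irreducible P → P ∣ (A * B * (A - B)).map (Int.castRingHom ℚ) →
      Even (multiplicity P (D.map (Int.castRingHom ℚ)))) :
    ∃ (c : ℤ) (g f : ℤ[X]), c ≠ 0 ∧ g ≠ 0 ∧ f ≠ 0 ∧ Sep (ft A B f) ∧
      C (c ^ 2) * D = g ^ 2 * f := by
  obtain ⟨c, g, f, hc, hg, hf, hs, heq⟩ := sep_sq _ D rfl hD
  refine ⟨c, g, f, hc, hg, hf, ?_, heq⟩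
  apply sep_of_sqf
  unfold ft
  rw [Polynomial.map_mul, squarefree_mul_iff]
  refine ⟨?_, hS, sqf_of_sep hs⟩
  have hsf := sqf_of_sep hs
  refine WfDvdMonoid.isRelPrime_of_no_irreducible_factors (fun h => map_ne hf h.2) ?_
  intro P hP hPA hPf
  have hev' := hev P hP hPA
  have hPp : Prime P := hP.prime
  have hm : C ((c : ℚ) ^ 2) * D.map (Int.castRingHom ℚ) =
      (g.map (Int.castRingHom ℚ)) ^ 2 * f.map (Int.castRingHom ℚ) := by
    have := congrArg (Polynomial.map (Int.castRingHom ℚ)) heq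
    simpa only [Polynomial.map_mul, Polynomial.map_C, Polynomial.map_pow, Int.coe_castRingHom,
      Int.cast_pow] using this
  have hcq : ((c : ℚ) ^ 2) ≠ 0 := by
    have : (c : ℚ) ≠ 0 := by exact_mod_cast hc
    positivity
  have hfin : ∀ x : ℚ[X], x ≠ 0 → FiniteMultiplicity P x := fun x hx =>
    FiniteMultiplicity.of_prime_left hPp hx
  have hu : multiplicity P (C ((c : ℚ) ^ 2)) = 0 := by
    apply multiplicity_eq_zero.2
    intro h
    exact hP.not_isUnit (isUnit_of_dvd_unit h (isUnit_C.2 (isUnit_iff_ne_zero.2 hcq)))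
  have h3 := congrArg (multiplicity P) hm
  rw [multiplicity_mul hPp (hfin _ (mul_ne_zero (C_ne_zero.2 hcq) (map_ne hD))), hu, zero_add,
    multiplicity_mul hPp (hfin _ (mul_ne_zero (pow_ne_zero 2 (map_ne hg)) (map_ne hf))),
    FiniteMultiplicity.multiplicity_pow hPp (hfin _ (map_ne hg))] at h3
  have h4 : multiplicity P (f.map (Int.castRingHom ℚ)) = 1 := by
    refine multiplicity_eq_of_dvd_of_not_dvd (by rwa [pow_one]) ?_
    intro h
    rw [sq] at h
    exact hP.not_isUnit (hsf P h)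
  rw [h4] at h3
  rw [h3] at hev'
  obtain ⟨k, hk⟩ := hev'
  omega

/-- `n = 1` -/
lemma wd_one (d : ℕ) : wd d 1 = 1 := by
  unfold wd
  rw [Nat.primeFactors_one, filter_empty, prod_empty]

/-- **the moments in short intervals** -/
theorem famU (hQ : QL Q) {A B D : ℤ[X]} (hD : D ≠ 0)
    (hS : Squarefree ((A * B * (A - B)).map (Int.castRingHom ℚ)))
    (hev : ∀ P : ℚ[X], Irreducible P → P ∣ (A * B * (A - B)).map (Int.castRingHom ℚ) →
      Even (multiplicity P (D.map (Int.castRingHom ℚ))))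
    {r : ℕ} {e : ℝ} (he : 0 ≤ e)
    (h0 : ((2 : ℝ) ^ r - 1) * (nf A - ((nf B : ℝ) + nf (A - B)) / 2 ^ r) ≤ e)
    (h1 : ((2 : ℝ) ^ r - 1) * (nf B - ((nf A : ℝ) + nf (A - B)) / 2 ^ r) ≤ e)
    (h2 : ((2 : ℝ) ^ r - 1) * (nf (A - B) - ((nf A : ℝ) + nf B) / 2 ^ r) ≤ e) (K : ℕ) :
    ∃ C : ℝ, ∀ X : ℕ, ∀ u : ℤ, 1 ≤ X → u.natAbs ≤ X ^ K →
      ∑ t ∈ (Ioc u (u + X)).filter (fun t => (A * B * (A - B) * D).eval t ≠ 0),
        Q (A.eval t * D.eval t) (B.eval t * D.eval t) ^ r ≤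
        C * (X * (1 + Real.log X) ^ e) := by
  classical
  obtain ⟨c, g, f, hc, hg, hf, hs, heq⟩ := sep_of_even hD hS hev
  obtain ⟨C, hC⟩ := allU (D := f) (r := r) (e := e) hQ hc heq hs ⟨he, h0, h1, h2⟩ K
  refine ⟨C, fun X u hX hu => ?_⟩
  have h3 := hC X 1 u hX le_rfl (Nat.one_le_pow _ _ hX) hu (ad_one A B f)
  rw [wd_one, one_mul] at h3
  refine le_trans (le_of_eq ?_) h3
  have h4 : Pt (ft A B D) 1 u X =
      (Ioc u (u + X)).filter (fun t => (A * B * (A - B) * D).eval t ≠ 0) := by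
    unfold Pt ft
    refine filter_congr fun m _ => ?_
    rw [ev_one]
    simp [isCoprime_one_right]
  rw [h4]
  refine sum_congr rfl fun m _ => ?_
  rw [ev_one, ev_one, ev_one]

end Pool.Agent.U214.UN
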