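import Mathlib
import Pool.Agent.U214.PT.Ant

/-!
# The summation of Nair and Tenenbaum, the main sum depends on `X`
-/

set_option autoImplicit false

namespace Pool.Agent.U214.UN

open Finset Pool.Agent.W262.RK Pool.Agent.W307.RT Pool.Agent.W45.RT Pool.Agent.U214.PT

variable {J : Type} [Fintype J] [DecidableEq J] {Ω : Type}

variable {h : ℕ → ℝ} {B C0 M : ℝ} {z : ℕ}

open Classical in
/-- **the summation** -/
theorem antX (H : Wt h B C0 M z) (hgr : GR) {f : Ω → J → ℤ} {T : ℕ → Finset Ω} {S : ℕ → ℝ}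
    {G : ℕ → ℕ → (J → ℕ) → ℝ} {R : Ω → ℝ} {C D A1 Q κ : ℝ} {K y0 Me : ℕ}
    (hz : 2 ≤ z) (hS1 : ∀ X, 1 ≤ X → 1 ≤ S X)
    (hB : ∀ X, ∀ ω ∈ T X, Gd z (f ω)) (hG : ∀ X y s, 0 ≤ G X y s) (hR : ∀ ω, 0 ≤ R ω)
    (hC : 0 ≤ C) (hD : 1 ≤ D) (hK : 1 ≤ K) (hQ : 0 ≤ Q) (hκ : 0 ≤ κ)
    (h1 : ∀ X y, z < y → ∑ s ∈ Tup J z y, G X y s * (∏ j, gh h (s j)) *
      (∏ j, (s j : ℝ)) ^ (16 * (Real.log D + 1) / Real.log y) ≤
      A1 * (1 + Real.log y) ^ κ * (Real.log y) ^ Me)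
    (hH : ∀ X y Y k : ℕ, y0 ≤ y → z < y → y ^ K ≤ X → X < (y + 1) ^ k → ∀ s ∈ Tup J z y,
      ∀ v ∈ Tup J z y, ∀ u ∈ Tup J y Y, (∏ j, s j * v j * u j) ^ 8 ≤ X →
      ∀ T' : Finset Ω, T' ⊆ T X → (∀ ω ∈ T', S1 z y (f ω) = s ∧ S2 z y (f ω) = v ∧
        ∀ j, (u j : ℤ) ∣ f ω j) → ∑ ω ∈ T', R ω ≤
        C * D ^ k * S X * (G X y s * ∏ j, gh h (s j)) *
          (∏ j, Q ^ (v j).primeFactors.card * (gh h (v j) / v j)) *
          (∏ j, B ^ (u j).primeFactors.card / (u j : ℝ)) / (Real.log y) ^ Me) :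
    ∃ C2 : ℝ, ∀ X : ℕ, 1 ≤ X → ∑ ω ∈ T X, R ω ≤ C2 * (S X * (1 + Real.log X) ^ κ) := by
  classical
  have hlogD : 0 ≤ Real.log D := Real.log_nonneg hD
  set lam : ℝ := 16 * (Real.log D + 1) with hlam
  have hlam0 : 0 ≤ lam := by rw [hlam]; linarith
  obtain ⟨A2', hA2'⟩ := rvW H hQ J lam hz hlam0
  obtain ⟨A3', hA3'⟩ := ruW H.B0 J lam hlam0
  set A2 := max A2' 0 with hA2d
  set A3 := max A3' 0 with hA3d
  have hA2 : ∀ y, z < y → ∑ v ∈ Tup J z y, bW Q h v *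
      (∏ j, (v j : ℝ)) ^ (lam / Real.log y) ≤ A2 := fun y hy =>
    (hA2' y hy).trans (le_max_left _ _)
  have hA3 : ∀ y Y : ℕ, 3 ≤ y → Y ≤ (y + 1) ^ 2 → ∑ u ∈ Tup J y Y, (∏ j, B ^ (u j).primeFactors.card / (u j : ℝ)) *
      (∏ j, (u j : ℝ)) ^ (lam / Real.log y) ≤ A3 := fun y Y h1 h2 =>
    (hA3' y Y h1 h2).trans (le_max_left _ _)
  have hA20 : 0 ≤ A2 := le_max_right _ _
  have hA30 : 0 ≤ A3 := le_max_right _ _
  -- the constant `A1` is nonnegative
  have hB0 := H.B0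
  have hA10 : 0 ≤ A1 := by
    have h1 := h1 0 (z + 2) (by omega)
    have h2 : 0 ≤ ∑ s ∈ Tup J z (z + 2), G 0 (z + 2) s * (∏ j, gh h (s j)) *
        (∏ j, (s j : ℝ)) ^ (lam / Real.log ((z + 2 : ℕ) : ℝ)) := sum_nonneg fun s hs => by
      have hp1 := prod_cast_ge_one hs
      exact mul_nonneg (mul_nonneg (hG _ _ _) (prod_nonneg fun j _ => gh_nn H hs j))
        (by positivity)
    have hlz : 0 < Real.log ((z + 2 : ℕ) : ℝ) := by
      apply Real.log_pos
      exact_mod_cast (by omega : 1 < z + 2)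
    have h3 : 0 < (1 + Real.log ((z + 2 : ℕ) : ℝ)) ^ κ *
        (Real.log ((z + 2 : ℕ) : ℝ)) ^ Me := by positivity
    have h4 := h2.trans h1
    rw [mul_assoc] at h4
    exact nonneg_of_mul_nonneg_left h4 h3
  have hA1X : ∀ X y : ℕ, z < y → y ≤ X →
      ∑ s ∈ Tup J z y, G X y s * (∏ j, gh h (s j)) *
      (∏ j, (s j : ℝ)) ^ (lam / Real.log y) ≤
      (A1 * (1 + Real.log X) ^ κ) * (Real.log y) ^ Me := by
    intro X y hy hyX
    refine (h1 X y hy).trans ?_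
    have hy0 : (0 : ℝ) < y := by exact_mod_cast (by omega : 0 < y)
    have h2 : Real.log y ≤ Real.log X := Real.log_le_log hy0 (by exact_mod_cast hyX)
    have h3 : 0 ≤ Real.log y := Real.log_natCast_nonneg y
    refine mul_le_mul_of_nonneg_right (mul_le_mul_of_nonneg_left ?_ hA10) (by positivity)
    exact Real.rpow_le_rpow (by linarith) (by linarith) hκ
  set K0 : ℕ := K + 16 with hK0
  have hK01 : 1 ≤ K0 := by omega
  set Ys : ℕ := y0 + z + 3 with hYs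
  set M : ℕ := PP z (Ys ^ 2) with hM
  set X0 : ℕ := Ys ^ K0 + M ^ 8 with hX0
  set B0 : ℝ := C * D ^ K0 * A1 * A2 with hB0
  set B1 : ℝ := C * A1 * A2 * A3 with hB1
  have hB00 : 0 ≤ B0 := by positivity
  have hB10 : 0 ≤ B1 := by positivity
  set R0 : ℝ := ∑ X ∈ range X0, ∑ t ∈ T X, R t with hR0
  have hR00 : 0 ≤ R0 := sum_nonneg fun X _ => sum_nonneg fun t _ => hR t
  refine ⟨R0 + B0 + B1 * 2, fun X hX => ?_⟩
  have hXr : (1 : ℝ) ≤ S X := hS1 X hX
  have hlX : 0 ≤ Real.log X := Real.log_natCast_nonneg X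
  have hE1 : 1 ≤ (1 + Real.log X) ^ κ := Real.one_le_rpow (by linarith) hκ
  set E : ℝ := (1 + Real.log X) ^ κ with hE
  have hE0 : 0 ≤ E := by linarith
  have hSE : 1 ≤ S X * E := one_le_mul_of_one_le_of_one_le hXr hE1
  rcases Nat.lt_or_ge X X0 with hXX | hXX
  · have h1 : ∑ t ∈ T X, R t ≤ R0 := by
      rw [hR0]
      exact single_le_sum (f := fun X => ∑ t ∈ T X, R t)
        (fun X _ => sum_nonneg fun t _ => hR t) (mem_range.2 hXX)
    nlinarith
  -- the last level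
  have hex : ∃ i, yy K0 X (i + 1) < Ys := by
    refine ⟨X, ?_⟩
    by_contra hcon
    have h1 : 2 ≤ yy K0 X (X + 1) := by omega
    have h2 := (yy_pow hK01 hX (X + 1)).2
    have h3 : 2 ^ X ≤ (yy K0 X (X + 1)) ^ (K0 * 2 ^ (X + 1)) := by
      refine (Nat.pow_le_pow_left h1 X).trans (Nat.pow_le_pow_right (by omega) ?_)
      have h4 : X < 2 ^ X := Nat.lt_two_pow_self
      have h5 : 2 ^ (X + 1) = 2 * 2 ^ X := by rw [pow_succ, mul_comm]
      nlinarith
    have h4 : X < 2 ^ X := Nat.lt_two_pow_self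
    exact absurd (h3.trans h2) (not_le.2 h4)
  set I := Nat.find hex with hI
  have hI1 : yy K0 X (I + 1) < Ys := Nat.find_spec hex
  have hIge : ∀ i, i ≤ I → Ys ≤ yy K0 X i := by
    intro i hi
    rcases Nat.eq_zero_or_pos i with h | h
    · subst h
      apply le_yy hK01
      rw [pow_zero, mul_one]
      exact le_trans (Nat.le_add_right _ _) hXX
    · have h2 := Nat.find_min hex (m := i - 1) (by omega)
      rw [show i - 1 + 1 = i by omega] at h2
      omega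
  -- the level sets
  set T0 := (T X).filter (fun t : Ω => (∏ j, rp z (yy K0 X 0) (f t j)) ^ 8 ≤ X) with hT0
  set Ti : ℕ → Finset Ω := fun i => (T X).filter (fun t : Ω =>
      (∏ j, rp z (yy K0 X (i + 1)) (f t j)) ^ 8 ≤ X ∧
      X < (∏ j, rp z (yy K0 X i) (f t j)) ^ 8) with hTi
  have hlast : ∀ t ∈ T X, (∏ j, rp z (yy K0 X I) (f t j)) ^ 8 ≤ X := by
    intro t ht
    have h1 : ∏ j, rp z (yy K0 X I) (f t j) ∣ PP z (yy K0 X I) :=
      Tup_prod_dvd (rpG_mem (hB X t ht) le_rfl)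
    have h2 : yy K0 X I ≤ Ys ^ 2 :=
      (yy_sq hK01 hX I).le.trans (Nat.pow_le_pow_left (by omega) 2)
    have h3 : PP z (yy K0 X I) ∣ M := by
      apply prod_dvd_prod_of_subset
      intro p hp
      rw [mem_PS] at hp ⊢
      exact ⟨⟨hp.1.1, hp.1.2.trans h2⟩, hp.2⟩
    have h4 : ∏ j, rp z (yy K0 X I) (f t j) ≤ M :=
      Nat.le_of_dvd (Nat.pos_of_ne_zero (PP_ne_zero _ _)) (h1.trans h3)
    have h5 := Nat.pow_le_pow_left h4 8
    exact h5.trans (le_trans (Nat.le_add_left _ _) hXX)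
  have hcov : T X ⊆ T0 ∪ (range I).biUnion Ti := by
    intro t ht
    have hex2 : ∃ i, (∏ j, rp z (yy K0 X i) (f t j)) ^ 8 ≤ X := ⟨I, hlast t ht⟩
    have hle : Nat.find hex2 ≤ I := Nat.find_min' hex2 (hlast t ht)
    rw [mem_union]
    rcases Nat.eq_zero_or_pos (Nat.find hex2) with h | h
    · left
      rw [hT0, mem_filter]
      refine ⟨ht, ?_⟩
      have := Nat.find_spec hex2
      rwa [h] at this
    · right
      rw [mem_biUnion]
      refine ⟨Nat.find hex2 - 1, mem_range.2 (by omega), ?_⟩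
      rw [hTi, mem_filter, show Nat.find hex2 - 1 + 1 = Nat.find hex2 by omega]
      refine ⟨ht, Nat.find_spec hex2, ?_⟩
      have := Nat.find_min hex2 (m := Nat.find hex2 - 1) (by omega)
      omega
  have hSX0 : 0 ≤ S X := by linarith
  have hAE : 0 ≤ A1 * E := mul_nonneg hA10 hE0
  have hT0b : ∑ t ∈ T0, R t ≤ B0 * (S X * E) := by
    have hz0 := hIge 0 (Nat.zero_le _)
    have hp := yy_pow hK01 hX 0
    have hl := yy_lt (X := X) hK01 0
    rw [pow_zero, mul_one] at hp hl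
    have hyX : yy K0 X 0 ≤ X := le_trans (Nat.le_self_pow (by omega) _) hp.2
    have h := lev0 H hSX0 hQ (hB X) (hG _ _) hR hC hD hA20 hlam0
      (hA1X X (yy K0 X 0) (by omega) hyX) (hA2 (yy K0 X 0) (by omega))
      (hH X (yy K0 X 0) (yy K0 X 0) K0 (by omega) (by omega)
        (le_trans (Nat.pow_le_pow_right hp.1 (by omega)) hp.2) hl)
      (by omega) (by omega)
    refine h.trans (le_of_eq ?_)
    rw [hB0]
    ring
  have hTb : ∀ i ∈ range I, ∑ t ∈ Ti i, R t ≤ B1 * (S X * E) * (1 / 2) ^ i := by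
    intro i hi
    rw [mem_range] at hi
    have hz0 := hIge (i + 1) (by omega)
    have hp := yy_pow hK01 hX (i + 1)
    have hp' := yy_pow hK01 hX i
    have hl := yy_lt (X := X) hK01 (i + 1)
    have hk1 : K0 ≤ K0 * 2 ^ (i + 1) := Nat.le_mul_of_pos_right _ (by positivity)
    have hk2 : K0 ≤ K0 * 2 ^ i := Nat.le_mul_of_pos_right _ (by positivity)
    have hyX : yy K0 X (i + 1) ≤ X := le_trans (Nat.le_self_pow (by omega) _) hp.2
    have h1 := lev H hSX0 hQ (hB X) (hG _ _) hR hC hD hA20 hA30 hgr hlam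
      (hA1X X (yy K0 X (i + 1)) (by omega) hyX) (hA2 _ (by omega))
      (hA3 _ (yy K0 X i) (by omega) (yy_sq hK01 hX i).le)
      (hH X (yy K0 X (i + 1)) (yy K0 X i) (K0 * 2 ^ (i + 1)) (by omega) (by omega)
        (le_trans (Nat.pow_le_pow_right hp.1 (by omega)) hp.2) hl)
      (by omega) (by omega) hp.2
      (yy_anti hK01 hX i)
      (le_trans (Nat.pow_le_pow_right hp'.1 (by omega)) hp'.2)
    refine h1.trans ?_
    have e0 : C * (A1 * E) * A2 * A3 * S X = B1 * (S X * E) := by rw [hB1]; ring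
    rw [e0]
    refine mul_le_mul_of_nonneg_left ?_ (by positivity)
    have h2 : (i : ℝ) ≤ ((K0 * 2 ^ (i + 1) : ℕ) : ℝ) := by
      have h3 : i < 2 ^ i := Nat.lt_two_pow_self
      have h4 : 2 ^ (i + 1) = 2 * 2 ^ i := by rw [pow_succ, mul_comm]
      exact_mod_cast (by nlinarith : i ≤ K0 * 2 ^ (i + 1))
    calc Real.exp (-((K0 * 2 ^ (i + 1) : ℕ) : ℝ)) ≤ Real.exp (-(i : ℝ)) :=
          Real.exp_le_exp.2 (by linarith)
      _ = (Real.exp (-1)) ^ i := by rw [← Real.exp_nat_mul]; congr 1; ring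
      _ ≤ (1 / 2) ^ i := by
          apply pow_le_pow_left₀ (Real.exp_pos _).le
          rw [Real.exp_neg, ← one_div]
          apply one_div_le_one_div_of_le (by norm_num)
          have := Real.exp_one_gt_d9
          linarith
  have hgeo : ∑ i ∈ range I, ((1 : ℝ) / 2) ^ i ≤ 2 := by
    rw [geom_sum_eq (by norm_num)]
    have h1 : (0 : ℝ) ≤ (1 / 2 : ℝ) ^ I := by positivity
    rw [div_le_iff_of_neg (by norm_num)]
    linarith
  calc ∑ t ∈ T X, R t
      ≤ ∑ t ∈ T0 ∪ (range I).biUnion Ti, R t :=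
        sum_le_sum_of_subset_of_nonneg hcov (fun t _ _ => hR t)
    _ ≤ ∑ t ∈ T0, R t + ∑ t ∈ (range I).biUnion Ti, R t := by
        rw [← sum_union_inter]
        exact le_add_of_nonneg_right (sum_nonneg fun t _ => hR t)
    _ ≤ ∑ t ∈ T0, R t + ∑ i ∈ range I, ∑ t ∈ Ti i, R t := by
        gcongr
        apply splitSum hR
        intro t ht
        rw [mem_biUnion] at ht
        exact ht
    _ ≤ B0 * (S X * E) + ∑ i ∈ range I, B1 * (S X * E) * (1 / 2) ^ i :=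
        add_le_add hT0b (sum_le_sum hTb)
    _ ≤ B0 * (S X * E) + B1 * (S X * E) * 2 := by
        rw [← mul_sum]
        gcongr
    _ ≤ (R0 + B0 + B1 * 2) * (S X * E) := by nlinarith

end Pool.Agent.U214.UN
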