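import Mathlib
import Pool.Agent.U214.GT.AT6
import Pool.Agent.U214.GT.Spl

/-!
# The abstract bound with constants which do not depend on the characters
-/

set_option autoImplicit false

namespace Pool.Agent.U214.UN

open Finset Pool.Agent.U214.PT Pool.Agent.W262.RK Pool.Agent.U214.GT Pool.Agent.U214.GT.AG
open Pool.Agent.W262.RK.AT (VV YY BW lg cl cell cell_sub cell_zero cell_one cell_two cell_three
  patterns one_le_log three_le_VV VV_le_YY VV_ge VV_le log_YY_ge log_YY_le log_VV_pow_le exp_neg_pow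
  one_le_log_VV sum_others hh_mul_le hh_prod_le)

variable {ι : Type} [Fintype ι] [DecidableEq ι]

variable {g : ι → ℕ → ℝ} {h : ι → ℕ → ℝ} {w ex : ι → ℝ} {L : ι → ι → Bool} {κ0 : ι → ℕ → ℝ} {N z : ℕ}
  {C : ℝ}

/-- a huge variable -/
lemma tail_caseU (hB0 : Bd g ex κ0 N z C) (A : ℕ) {K : ℝ} (hK : 0 ≤ K) (π : ι → Fin 4) {k : ι}
    (hk : π k = 3) : ∃ C' : ℝ, ∀ κ : ι → ℕ → ℝ, Bd g ex κ N z C → ∀ y, z < y →
      |∑ d ∈ Fintype.piFinset (fun b => cell z y (VV A (Real.log y)) (YY A (Real.log y)) (π b)),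
        HG g L κ d| ≤ C' * (Real.log y) ^ K := by
  have hC0 : 0 ≤ C := zero_le_one.trans hB0.C1
  refine ⟨C ^ (Fintype.card ι + 1) * (N * (Fintype.card ι + 1)).factorial, fun κ hB y hy => ?_⟩
  have hly := one_le_log hB.z2 hy
  have hly0 : 0 < Real.log y := by linarith
  set l := Real.log y with hl
  set V := VV A l with hV
  set Y := YY A l with hY
  refine (triv hB fun i => cell_sub _ _ _ _ _).trans ?_
  have h1 : ∏ i, ∑ m ∈ cell z y V Y (π i), g i m ≤
      ∏ i, ∑ m ∈ cell z y V Y (π i), g i m * hh m := by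
    apply prod_le_prod
    · intro i _
      exact sum_nonneg fun m hm => hB.g0 i _ _ (cell_sub _ _ _ _ _ hm)
    · intro i _
      exact sum_le_sum fun m hm => gl_hh hB i (cell_sub _ _ _ _ _ hm)
  refine h1.trans ?_
  rw [← mul_prod_erase univ _ (mem_univ k), hk]
  have h2 : ∑ m ∈ cell z y V Y 3, g k m * hh m ≤ C * Real.exp (-l) * l ^ N := by
    have hV3 := three_le_VV A l
    have hVY := VV_le_YY A l
    calc ∑ m ∈ cell z y V Y 3, g k m * hh m
        ≤ ∑ m ∈ (PP z y).divisors.filter (fun d => Y < d), g k m * hh m := by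
          apply sum_le_sum_of_subset_of_nonneg
          · intro m hm
            rw [mem_filter]
            exact ⟨cell_sub _ _ _ _ _ hm, cell_three hm⟩
          · intro m hm _
            exact gk_nonneg hB k (mem_filter.1 hm).1
      _ ≤ C * Real.exp (-(Real.log Y / Real.log y)) * (Real.log y) ^ N :=
          hB.F3 k y Y hy (by omega)
      _ ≤ C * Real.exp (-l) * l ^ N := by
          apply mul_le_mul_of_nonneg_right _ (by positivity)
          apply mul_le_mul_of_nonneg_left _ hC0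
          apply Real.exp_le_exp.2
          rw [neg_le_neg_iff, le_div_iff₀ hly0]
          have := log_YY_ge A l
          nlinarith
  have h3 : ∏ b ∈ univ.erase k, ∑ m ∈ cell z y V Y (π b), g b m * hh m ≤
      (C * l ^ N) ^ (Fintype.card ι) := by
    have hCl : 1 ≤ C * l ^ N := by
      have h1 : 1 ≤ l ^ N := one_le_pow₀ hly
      nlinarith [hB.C1]
    calc _ ≤ ∏ b ∈ univ.erase k, (C * l ^ N) := by
          apply prod_le_prod
          · intro b _
            exact sum_nonneg fun m hm => gk_nonneg hB b (cell_sub _ _ _ _ _ hm)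
          · intro b _
            exact cs_any hB hy V Y b (π b)
      _ = (C * l ^ N) ^ (univ.erase k).card := by rw [prod_const]
      _ ≤ _ := by
          apply pow_le_pow_right₀ hCl
          exact (card_le_card (erase_subset _ _)).trans (le_of_eq card_univ)
  have h4 : 1 ≤ l ^ K := Real.one_le_rpow hly hK
  have h5 := exp_neg_pow (N * (Fintype.card ι + 1)) hly
  calc _ ≤ C * Real.exp (-l) * l ^ N * (C * l ^ N) ^ (Fintype.card ι) := by
        apply mul_le_mul h2 h3 _ (by positivity)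
        exact prod_nonneg fun b _ => sum_nonneg fun m hm => gk_nonneg hB b (cell_sub _ _ _ _ _ hm)
    _ = C ^ (Fintype.card ι + 1) * (Real.exp (-l) * l ^ (N * (Fintype.card ι + 1))) := by
        rw [mul_pow, ← pow_mul]
        ring
    _ ≤ C ^ (Fintype.card ι + 1) * (N * (Fintype.card ι + 1)).factorial :=
        mul_le_mul_of_nonneg_left h5 (by positivity)
    _ ≤ _ := le_mul_of_one_le_right (by positivity) h4

/-- two linked large variables -/
lemma link_caseU (hB0 : Bd g ex κ0 N z C) {C2 : ℝ} {E2 : ℕ} (hC2 : 0 ≤ C2) (h2 : BW C2 E2)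
    (hL : ∀ i, L i i = false) {A : ℕ} (hA : 6 * (N * Fintype.card ι + 2 * E2) ≤ A) {K : ℝ} (hK : 0 ≤ K)
    (π : ι → Fin 4) {i j : ι} (hi : π i = 2) (hj : π j = 2) (hij : L i j ≠ L j i) :
    ∃ C' : ℝ, ∀ κ : ι → ℕ → ℝ, Bd g ex κ N z C → ∀ y, z < y →
      |∑ d ∈ Fintype.piFinset (fun b => cell z y (VV A (Real.log y)) (YY A (Real.log y)) (π b)),
        HG g L κ d| ≤ C' * (Real.log y) ^ K := by
  have hC0 : 0 ≤ C := zero_le_one.trans hB0.C1
  refine ⟨C ^ (Fintype.card ι) * C2 * (A + 3) ^ E2, fun κ hB y hy => ?_⟩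
  have hly := one_le_log hB.z2 hy
  have hly0 : 0 < Real.log y := by linarith
  set l := Real.log y with hl
  set V := VV A l with hV
  set Y := YY A l with hY
  have hV3 : 3 ≤ V := three_le_VV A l
  have hVY : V ≤ Y := VV_le_YY A l
  have hne : i ≠ j := by rintro rfl; exact hij rfl
  have hc2 : ∀ b, π b = 2 → cell z y V Y (π b) = lg z y V Y := fun b hb => by
    rw [hb]; exact cell_two (by omega)
  have hmain : |∑ d ∈ Fintype.piFinset (fun b => cell z y V Y (π b)), HG g L κ d| ≤
      (C * l ^ N) ^ (Fintype.card ι) * (C2 * (Real.log Y) ^ E2 * (V : ℝ) ^ (-(1 / 6 : ℝ))) := by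
    rcases h1 : L i j with _ | _
    · rcases h1' : L j i with _ | _
      · rw [h1, h1'] at hij; exact absurd rfl hij
      · exact pair_case hB hC2 h2 hne.symm (hL j) h1' h1 hy (by omega) hVY
          (fun b => cell_sub _ _ _ _ _) (hc2 j hj) (hc2 i hi)
    · rcases h1' : L j i with _ | _
      · exact pair_case hB hC2 h2 hne (hL i) h1 h1' hy (by omega) hVY
          (fun b => cell_sub _ _ _ _ _) (hc2 i hi) (hc2 j hj)
      · rw [h1, h1'] at hij; exact absurd rfl hij
  refine hmain.trans ?_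
  have h3 : Real.log Y ≤ (A + 3) * l ^ 2 := log_YY_le hly
  have h3' : 0 ≤ Real.log Y := Real.log_natCast_nonneg Y
  have h4 : (V : ℝ) ^ (-(1 / 6 : ℝ)) ≤ (l ^ (N * Fintype.card ι + 2 * E2))⁻¹ := by
    have h5 : l ^ (6 * (N * Fintype.card ι + 2 * E2)) ≤ V :=
      (pow_le_pow_right₀ hly hA).trans (VV_ge A l)
    have h6 : (0 : ℝ) < l ^ (6 * (N * Fintype.card ι + 2 * E2)) := by positivity
    have h7 : (V : ℝ) ^ (-(1 / 6 : ℝ)) ≤ (l ^ (6 * (N * Fintype.card ι + 2 * E2))) ^ (-(1 / 6 : ℝ)) :=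
      Real.rpow_le_rpow_of_nonpos h6 h5 (by norm_num)
    refine h7.trans (le_of_eq ?_)
    rw [← Real.rpow_natCast l, ← Real.rpow_mul hly0.le, ← Real.rpow_natCast l,
      ← Real.rpow_neg hly0.le]
    congr 1
    push_cast
    ring
  have h8 : (1 : ℝ) ≤ l ^ K := Real.one_le_rpow hly hK
  calc (C * l ^ N) ^ (Fintype.card ι) * (C2 * (Real.log Y) ^ E2 * (V : ℝ) ^ (-(1 / 6 : ℝ)))
      ≤ (C * l ^ N) ^ (Fintype.card ι) * (C2 * ((A + 3) * l ^ 2) ^ E2 *
          (l ^ (N * Fintype.card ι + 2 * E2))⁻¹) := by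
        apply mul_le_mul_of_nonneg_left _ (by positivity)
        apply mul_le_mul _ h4 (by positivity) (by positivity)
        exact mul_le_mul_of_nonneg_left (pow_le_pow_left₀ h3' h3 _) hC2
    _ = C ^ (Fintype.card ι) * C2 * (A + 3) ^ E2 := by
        rw [mul_pow, mul_pow, ← pow_mul, ← pow_mul, pow_add]
        field_simp
    _ ≤ _ := le_mul_of_one_le_right (by positivity) h8

/-- unlinked large variables: the trivial bound -/
lemma triv_caseU (hB0 : Bd g ex κ0 N z C) (A : ℕ) {K : ℝ} (π : ι → Fin 4) (h3 : ∀ k, π k ≠ 3)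
    (hK : ∑ k ∈ univ.filter (fun k => π k = 2), ex k < K) :
    ∃ C' : ℝ, ∀ κ : ι → ℕ → ℝ, Bd g ex κ N z C → ∀ y, z < y →
      |∑ d ∈ Fintype.piFinset (fun b => cell z y (VV A (Real.log y)) (YY A (Real.log y)) (π b)),
        HG g L κ d| ≤ C' * (Real.log y) ^ K := by
  have hC0 : 0 ≤ C := zero_le_one.trans hB0.C1
  set S := ∑ k ∈ univ.filter (fun k => π k = 2), ex k with hS
  obtain ⟨C1, hC1, h1⟩ := log_VV_pow_le A (N * Fintype.card ι) (sub_pos.2 hK)
  refine ⟨C ^ (Fintype.card ι) * C1, fun κ hB y hy => ?_⟩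
  have hly := one_le_log hB.z2 hy
  have hly0 : 0 < Real.log y := by linarith
  set l := Real.log y with hl
  set V := VV A l with hV
  set Y := YY A l with hY
  refine (triv hB fun i => cell_sub _ _ _ _ _).trans ?_
  have e1 : ∏ i, ∑ m ∈ cell z y V Y (π i), g i m ≤
      ∏ i, ∑ m ∈ cell z y V Y (π i), g i m * hh m := by
    apply prod_le_prod
    · intro i _
      exact sum_nonneg fun m hm => hB.g0 i _ _ (cell_sub _ _ _ _ _ hm)
    · intro i _
      exact sum_le_sum fun m hm => gl_hh hB i (cell_sub _ _ _ _ _ hm)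
  refine e1.trans ((prod_low hB hy (three_le_VV A l) π univ fun k _ => h3 k).trans ?_)
  rw [← hS]
  calc C ^ (Fintype.card ι) * l ^ S * (Real.log V) ^ (N * Fintype.card ι)
      ≤ C ^ (Fintype.card ι) * l ^ S * (C1 * l ^ (K - S)) :=
        mul_le_mul_of_nonneg_left (h1 l hly) (by positivity)
    _ = C ^ (Fintype.card ι) * C1 * (l ^ S * l ^ (K - S)) := by ring
    _ = _ := by rw [← Real.rpow_add hly0]; congr 2; ring

/-- all variables are 1 or large and unlinked -/
lemma diag_caseU (hB0 : Bd g ex κ0 N z C) (A : ℕ) {K : ℝ} (π : ι → Fin 4)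
    (h3 : ∀ k, π k = 0 ∨ π k = 2) (hK : ∑ k ∈ univ.filter (fun k => π k = 2), ex k ≤ K) :
    ∃ C' : ℝ, ∀ κ : ι → ℕ → ℝ, Bd g ex κ N z C → ∀ y, z < y →
      |∑ d ∈ Fintype.piFinset (fun b => cell z y (VV A (Real.log y)) (YY A (Real.log y)) (π b)),
        HG g L κ d| ≤ C' * (Real.log y) ^ K := by
  have hC0 : 0 ≤ C := zero_le_one.trans hB0.C1
  refine ⟨C ^ (Fintype.card ι), fun κ hB y hy => ?_⟩
  have hly := one_le_log hB.z2 hy
  have hly0 : 0 < Real.log y := by linarith
  set l := Real.log y with hl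
  set V := VV A l with hV
  set Y := YY A l with hY
  refine (triv hB fun i => cell_sub _ _ _ _ _).trans ?_
  have e1 : ∀ k ∈ (univ : Finset ι), ∑ m ∈ cell z y V Y (π k), g k m ≤
      C * (if π k = 2 then l ^ (ex k) else 1) := by
    intro k _
    rcases h3 k with h | h
    · rw [h, if_neg (by decide)]
      calc ∑ m ∈ cell z y V Y 0, g k m ≤ ∑ m ∈ ({1} : Finset ℕ), g k m := by
            apply sum_le_sum_of_subset_of_nonneg
            · intro m hm
              rw [mem_singleton]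
              exact cell_zero hm
            · intro m hm _
              rw [mem_singleton] at hm
              rw [hm, hB.g1]
              exact zero_le_one
        _ ≤ C * 1 := by
            rw [sum_singleton, hB.g1, mul_one]
            exact hB.C1
    · rw [if_pos h]
      calc ∑ m ∈ cell z y V Y (π k), g k m ≤ ∑ m ∈ cell z y V Y (π k), g k m * hh m :=
            sum_le_sum fun m hm => gl_hh hB k (cell_sub _ _ _ _ _ hm)
        _ ≤ ∑ m ∈ (PP z y).divisors, g k m * hh m :=
            sum_le_sum_of_subset_of_nonneg (cell_sub _ _ _ _ _) fun m hm _ => gk_nonneg hB k hm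
        _ ≤ _ := hB.F1 k y hy
  calc ∏ k, ∑ m ∈ cell z y V Y (π k), g k m
      ≤ ∏ k, (C * (if π k = 2 then l ^ (ex k) else 1)) := by
        apply prod_le_prod _ e1
        intro k _
        exact sum_nonneg fun m hm => hB.g0 k _ _ (cell_sub _ _ _ _ _ hm)
    _ = C ^ (Fintype.card ι) * l ^ (∑ k ∈ univ.filter (fun k => π k = 2), ex k) := by
        rw [prod_mul_distrib, prod_const, prod_ite, prod_const_one, mul_one,
          ← Real.rpow_sum_of_pos hly0, card_univ]
    _ ≤ _ := by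
        apply mul_le_mul_of_nonneg_left _ (by positivity)
        exact Real.rpow_le_rpow_of_exponent_le hly hK

/-- the small variable `j` is the largest and linked with the large variable `i` -/
lemma one_jU (hB0 : Bd g ex κ0 N z C) (hL : ∀ i, L i i = false) (A : ℕ)
    {K θ δ C3 : ℝ} (hδ : 0 ≤ δ) (hS : SS h w z θ (δ * Fintype.card ι) δ C3)
    (hθ : ∀ y : ℕ, z < y → (VV A (Real.log y) : ℝ) ^ θ ≤ Real.log y) (π : ι → Fin 4)
    (h3 : ∀ k, π k ≠ 3) {i j : ι} (hi : π i = 2) (hj : π j = 1) (hij : L i j ≠ L j i)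
    (hK : ∑ k ∈ univ.filter (fun k => π k = 2), ex k ≤ K) :
    ∃ C' : ℝ, ∀ κ : ι → ℕ → ℝ, Bd g ex κ N z C → EE g h w ex κ z C → ∀ y, z < y →
      |∑ d ∈ Fintype.piFinset (fun b => cell z y (VV A (Real.log y)) (YY A (Real.log y)) (π b)),
        (if ∀ b ∈ univ.filter (fun k => π k = 1), d b ≤ d j then HG g L κ d else 0)| ≤
        C' * (Real.log y) ^ K := by
  classical
  have hC0 : 0 ≤ C := zero_le_one.trans hB0.C1
  have hC30 := hS.C0
  obtain ⟨S, hSS⟩ : ∃ S, S = ∑ k ∈ univ.filter (fun k => π k = 2), ex k := ⟨_, rfl⟩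
  obtain ⟨M, hM⟩ : ∃ M, M = Fintype.card ι := ⟨_, rfl⟩
  obtain ⟨C1, hC1, h1⟩ := log_VV_pow_le A (N * M + N) (hB0.w0 i)
  refine ⟨C * (2 * C3 * (C + C3) ^ M) + C ^ M * C1 * (C + C * N.factorial), fun κ hB hE y hy => ?_⟩
  have hly := one_le_log hB.z2 hy
  have hly0 : 0 < Real.log y := by linarith
  obtain ⟨l, hl⟩ : ∃ l, l = Real.log y := ⟨_, rfl⟩
  obtain ⟨V, hV⟩ : ∃ V, V = VV A l := ⟨_, rfl⟩
  obtain ⟨Y, hY⟩ : ∃ Y, Y = YY A l := ⟨_, rfl⟩
  rw [← hl, ← hV, ← hY]
  rw [← hl] at hly hly0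
  have hV3 : 3 ≤ V := by rw [hV]; exact three_le_VV A l
  have hVY : V ≤ Y := by rw [hV, hY]; exact VV_le_YY A l
  have hlV : 1 ≤ Real.log V := by rw [hV]; exact one_le_log_VV A l
  have hlV0 : 0 ≤ Real.log V := by linarith
  obtain ⟨S1, hS1⟩ : ∃ S1, S1 = univ.filter (fun k => π k = 1) := ⟨_, rfl⟩
  have hiS1 : i ∉ S1 := by
    rw [hS1, mem_filter]
    rintro ⟨-, h⟩
    rw [hi] at h
    exact absurd h (by decide)
  have hjS1 : j ∈ S1 := by rw [hS1, mem_filter]; exact ⟨mem_univ j, hj⟩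
  have hji : j ≠ i := by rintro rfl; exact hiS1 hjS1
  have hms := main_sum (κ := κ) hB hδ hS π h3 hi hj hij (V := V) (Y := Y) hy (by
    rw [hV, hl]; exact hθ y hy)
  rw [← hS1] at hms ⊢
  rw [sum_update (fun b => cell z y V Y (π b)) i]
  simp only [hi]
  have hti : cell z y V Y 2 = (PP z y).divisors.filter (fun m => V < m ∧ m ≤ Y) :=
    cell_two (by omega)
  obtain ⟨T', hT'⟩ : ∃ T', T' = Fintype.piFinset
    (Function.update (fun b => cell z y V Y (π b)) i {1}) := ⟨_, rfl⟩
  rw [← hT'] at hms ⊢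
  obtain ⟨Q, hQ⟩ : ∃ Q, Q = C * (Real.log V) ^ (ex i) +
    C * Real.exp (-(Real.log Y / l)) * l ^ N := ⟨_, rfl⟩
  have hQ0 : 0 ≤ Q := by
    rw [hQ]
    positivity
  have hstep : ∀ e ∈ T', |∑ m ∈ cell z y V Y 2, (if ∀ b ∈ S1, Function.update e i m b ≤
      Function.update e i m j then HG g L κ (Function.update e i m) else 0)| ≤
      C * l ^ (ex i) * (if ∀ b ∈ S1, e b ≤ e j then
        (∏ b ∈ univ.erase i, g b (e b) * hh (e b)) *
          ∑ t : Bool, ph (h i) (w i) (κ i) z y (lk L i e) t else 0) +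
      (∏ b ∈ univ.erase i, g b (e b) * hh (e b)) * Q := by
    intro e he
    rw [hT'] at he
    have he' : ∀ b, e b ∈ (PP z y).divisors := by
      intro b
      have h1 := Fintype.mem_piFinset.1 he b
      by_cases hbi : b = i
      · subst hbi
        rw [Function.update_self, mem_singleton] at h1
        rw [h1]
        exact one_mem_dv z y
      · rw [Function.update_of_ne hbi] at h1
        exact cell_sub _ _ _ _ _ h1
    have hP0 : 0 ≤ ∏ b ∈ univ.erase i, g b (e b) * hh (e b) :=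
      prod_nonneg fun b _ => gk_nonneg hB b (he' b)
    have hcond : ∀ m, (∀ b ∈ S1, Function.update e i m b ≤ Function.update e i m j) ↔
        ∀ b ∈ S1, e b ≤ e j := by
      intro m
      constructor
      · intro h b hb
        have hbi : b ≠ i := by rintro rfl; exact hiS1 hb
        have := h b hb
        rwa [Function.update_of_ne hbi, Function.update_of_ne hji] at this
      · intro h b hb
        have hbi : b ≠ i := by rintro rfl; exact hiS1 hb
        rw [Function.update_of_ne hbi, Function.update_of_ne hji]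
        exact h b hb
    by_cases hc : ∀ b ∈ S1, e b ≤ e j
    · rw [if_pos hc]
      have h2 : ∑ m ∈ cell z y V Y 2, (if ∀ b ∈ S1, Function.update e i m b ≤
          Function.update e i m j then HG g L κ (Function.update e i m) else 0) =
          ∑ m ∈ (PP z y).divisors.filter (fun m => V < m ∧ m ≤ Y),
            HG g L κ (Function.update e i m) := by
        rw [hti]
        refine sum_congr rfl fun m _ => ?_
        rw [if_pos ((hcond m).2 hc)]
      rw [h2]
      refine (inner hB hE i (hL i) hy (by omega) hVY he').trans (le_of_eq ?_)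
      rw [hQ, ← hl]
      ring
    · rw [if_neg hc, sum_eq_zero fun m _ => if_neg (fun h => hc ((hcond m).1 h)), abs_zero]
      have := mul_nonneg hP0 hQ0
      linarith
  refine (abs_sum_le_sum_abs _ _).trans ((sum_le_sum hstep).trans ?_)
  rw [sum_add_distrib, ← mul_sum, ← sum_mul, hT',
    sum_others i (fun b => cell z y V Y (π b)) (fun b m => g b m * hh m), ← hT']
  have hPL := prod_low hB hy (V := V) (Y := Y) hV3 π (univ.erase i) fun k _ => h3 k
  have hsum : ∑ k ∈ (univ.erase i).filter (fun k => π k = 2), ex k = S - ex i := by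
    have : (univ.erase i).filter (fun k => π k = 2) = (univ.filter (fun k => π k = 2)).erase i := by
      ext k
      simp only [mem_filter, mem_erase, mem_univ, and_true, true_and]
    rw [this, hSS, ← add_sum_erase _ _ (show i ∈ univ.filter (fun k => π k = 2) by
      rw [mem_filter]; exact ⟨mem_univ i, hi⟩)]
    ring
  rw [hsum, ← hl] at hPL hms
  have hlY : l ≤ Real.log Y / l := by
    rw [le_div_iff₀ hly0]
    have := log_YY_ge A l
    rw [hY]
    nlinarith
  have hbr : Q ≤ (C + C * N.factorial) * (Real.log V) ^ N := by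
    have hlVN : 1 ≤ (Real.log V) ^ N := one_le_pow₀ hlV
    have e2 : (Real.log V) ^ (ex i) ≤ (Real.log V) ^ N := by
      rw [← Real.rpow_natCast]
      exact Real.rpow_le_rpow_of_exponent_le hlV (hB.w1 i)
    have e3 : Real.exp (-(Real.log Y / l)) * l ^ N ≤ N.factorial := by
      have a1 : Real.exp (-(Real.log Y / l)) ≤ Real.exp (-l) := Real.exp_le_exp.2 (by linarith)
      have a2 := exp_neg_pow N hly
      exact (mul_le_mul_of_nonneg_right a1 (by positivity)).trans a2
    have e4 : C * Real.exp (-(Real.log Y / l)) * l ^ N ≤ C * N.factorial * (Real.log V) ^ N := by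
      have b1 : C * (Real.exp (-(Real.log Y / l)) * l ^ N) ≤ C * N.factorial :=
        mul_le_mul_of_nonneg_left e3 hC0
      have b2 : C * N.factorial ≤ C * N.factorial * (Real.log V) ^ N :=
        le_mul_of_one_le_right (by positivity) hlVN
      calc _ = C * (Real.exp (-(Real.log Y / l)) * l ^ N) := by ring
        _ ≤ _ := b1.trans b2
    have e6 := mul_le_mul_of_nonneg_left e2 hC0
    rw [hQ]
    calc _ ≤ C * (Real.log V) ^ N + C * N.factorial * (Real.log V) ^ N := add_le_add e6 e4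
      _ = _ := by ring
  have hVp := h1 l hly
  rw [← hV] at hVp
  have hlK : l ^ S ≤ l ^ K := Real.rpow_le_rpow_of_exponent_le hly (by rw [hSS]; exact hK)
  have hA1 : C * l ^ (ex i) * (2 * C3 * (C + C3) ^ (Fintype.card ι) * l ^ (S - ex i)) =
      C * (2 * C3 * (C + C3) ^ M) * l ^ S := by
    have : l ^ (ex i) * l ^ (S - ex i) = l ^ S := by
      rw [← Real.rpow_add hly0]; congr 1; ring
    rw [← this, hM]
    ring
  have hA2 : (∏ b ∈ univ.erase i, ∑ m ∈ cell z y V Y (π b), g b m * hh m) * Q ≤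
      C ^ M * C1 * (C + C * N.factorial) * l ^ S := by
    calc _ ≤ (C ^ M * l ^ (S - ex i) * (Real.log V) ^ (N * M)) *
          ((C + C * N.factorial) * (Real.log V) ^ N) := by
          refine mul_le_mul ?_ hbr hQ0 (by positivity)
          rw [hM]
          exact hPL
      _ = C ^ M * (C + C * N.factorial) * l ^ (S - ex i) * (Real.log V) ^ (N * M + N) := by
          rw [pow_add]; ring
      _ ≤ C ^ M * (C + C * N.factorial) * l ^ (S - ex i) * (C1 * l ^ (ex i)) :=
          mul_le_mul_of_nonneg_left hVp (by positivity)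
      _ = C ^ M * C1 * (C + C * N.factorial) * (l ^ (S - ex i) * l ^ (ex i)) := by ring
      _ = _ := by rw [← Real.rpow_add hly0]; congr 2; ring
  calc _ ≤ C * l ^ (ex i) * (2 * C3 * (C + C3) ^ (Fintype.card ι) * l ^ (S - ex i)) +
        C ^ M * C1 * (C + C * N.factorial) * l ^ S := by
        refine add_le_add (mul_le_mul_of_nonneg_left hms (by positivity)) hA2
    _ = (C * (2 * C3 * (C + C3) ^ M) + C ^ M * C1 * (C + C * N.factorial)) * l ^ S := by
        rw [hA1]; ring
    _ ≤ _ := mul_le_mul_of_nonneg_left hlK (by positivity)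

/-- maximal unlinked large variables and a small variable different from 1 -/
lemma max_caseU (hB0 : Bd g ex κ0 N z C) (hL : ∀ i, L i i = false) (A : ℕ)
    {K θ δ C3 : ℝ} (hδ : 0 ≤ δ) (hS : SS h w z θ (δ * Fintype.card ι) δ C3)
    (hθ : ∀ y : ℕ, z < y → (VV A (Real.log y) : ℝ) ^ θ ≤ Real.log y) (π : ι → Fin 4)
    (h3 : ∀ k, π k ≠ 3) (hne : ∃ j, π j = 1)
    (hlk : ∀ j, π j = 1 → ∃ i, π i = 2 ∧ L i j ≠ L j i)
    (hK : ∑ k ∈ univ.filter (fun k => π k = 2), ex k ≤ K) :
    ∃ C' : ℝ, ∀ κ : ι → ℕ → ℝ, Bd g ex κ N z C → EE g h w ex κ z C → ∀ y, z < y →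
      |∑ d ∈ Fintype.piFinset (fun b => cell z y (VV A (Real.log y)) (YY A (Real.log y)) (π b)),
        HG g L κ d| ≤ C' * (Real.log y) ^ K := by
  classical
  have hex : ∀ j : ι, ∃ C' : ℝ, j ∈ univ.filter (fun k => π k = 1) →
      ∀ κ : ι → ℕ → ℝ, Bd g ex κ N z C → EE g h w ex κ z C → ∀ y, z < y →
      |∑ d ∈ Fintype.piFinset (fun b => cell z y (VV A (Real.log y)) (YY A (Real.log y)) (π b)),
        (if ∀ b ∈ univ.filter (fun k => π k = 1), d b ≤ d j then HG g L κ d else 0)| ≤
        C' * (Real.log y) ^ K := by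
    intro j
    by_cases hj : π j = 1
    · obtain ⟨i, hi, hij⟩ := hlk j hj
      obtain ⟨C', h⟩ := one_jU hB0 hL A hδ hS hθ π h3 hi hj hij hK
      exact ⟨C', fun _ => h⟩
    · exact ⟨0, fun h => absurd (mem_filter.1 h).2 hj⟩
  choose C' hC' using hex
  refine ⟨∑ j ∈ univ.filter (fun k => π k = 1), C' j, fun κ hB hE y hy => ?_⟩
  obtain ⟨j0, hj0⟩ := hne
  rw [mx_split π (univ.filter (fun k => π k = 1)) ⟨j0, by simp [hj0]⟩ (fun b hb =>
    (mem_filter.1 hb).2) g L κ, sum_mul]
  exact (abs_sum_le_sum_abs _ _).trans (sum_le_sum fun j hj => hC' j hj κ hB hE y hy)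

/-- all patterns -/
lemma patU (hB0 : Bd g ex κ0 N z C) {C2 : ℝ} {E2 : ℕ} (hC2 : 0 ≤ C2)
    (h2 : BW C2 E2) (hL : ∀ i, L i i = false) {A : ℕ} (hA : 6 * (N * Fintype.card ι + 2 * E2) ≤ A)
    {K θ δ C3 : ℝ} (hδ : 0 ≤ δ) (hS : SS h w z θ (δ * Fintype.card ι) δ C3)
    (hθ : ∀ y : ℕ, z < y → (VV A (Real.log y) : ℝ) ^ θ ≤ Real.log y)
    (hK : ∀ U : Finset ι, (∀ i ∈ U, ∀ j ∈ U, L i j = L j i) → ∑ i ∈ U, ex i ≤ K)
    (π : ι → Fin 4) : ∃ C' : ℝ, ∀ κ : ι → ℕ → ℝ, Bd g ex κ N z C → EE g h w ex κ z C → ∀ y, z < y →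
      |∑ d ∈ Fintype.piFinset (fun b => cell z y (VV A (Real.log y)) (YY A (Real.log y)) (π b)),
        HG g L κ d| ≤ C' * (Real.log y) ^ K := by
  have hK0 : 0 ≤ K := by simpa using hK ∅ (by simp)
  by_cases h3 : ∃ k, π k = 3
  · obtain ⟨k, hk⟩ := h3
    obtain ⟨C', h⟩ := tail_caseU (L := L) hB0 _ hK0 π hk
    exact ⟨C', fun κ hB _ => h κ hB⟩
  push Not at h3
  by_cases hl : ∃ i j, π i = 2 ∧ π j = 2 ∧ L i j ≠ L j i
  · obtain ⟨i, j, hi, hj, hij⟩ := hl
    obtain ⟨C', h⟩ := link_caseU hB0 hC2 h2 hL hA hK0 π hi hj hij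
    exact ⟨C', fun κ hB _ => h κ hB⟩
  push Not at hl
  have hSm : ∑ k ∈ univ.filter (fun k => π k = 2), ex k ≤ K := by
    apply hK
    intro i hi j hj
    exact hl i j (mem_filter.1 hi).2 (mem_filter.1 hj).2
  rcases hSm.lt_or_eq with hlt | heq
  · obtain ⟨C', h⟩ := triv_caseU (L := L) hB0 _ π h3 hlt
    exact ⟨C', fun κ hB _ => h κ hB⟩
  by_cases h1 : ∃ j, π j = 1
  · refine max_caseU hB0 hL A hδ hS hθ π h3 h1 (fun j hj => ?_) hSm
    by_contra hcon
    push Not at hcon
    have hjn : j ∉ univ.filter (fun k => π k = 2) := by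
      rw [mem_filter, hj]
      rintro ⟨-, h⟩
      exact absurd h (by decide)
    have := hK (insert j (univ.filter (fun k => π k = 2))) (by
      intro a ha b hb
      rw [mem_insert] at ha hb
      rcases ha with rfl | ha
      · rcases hb with rfl | hb
        · rfl
        · exact (hcon b (mem_filter.1 hb).2).symm
      · rcases hb with rfl | hb
        · exact hcon a (mem_filter.1 ha).2
        · exact hl a b (mem_filter.1 ha).2 (mem_filter.1 hb).2)
    rw [sum_insert hjn, heq] at this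
    have := hB0.w0 j
    linarith
  · push Not at h1
    have hd : ∀ k, π k = 0 ∨ π k = 2 := by
      intro k
      have a1 := h1 k
      have a3 := h3 k
      revert a1 a3
      generalize π k = r
      revert r
      decide
    obtain ⟨C', h⟩ := diag_caseU (L := L) hB0 A π hd hSm
    exact ⟨C', fun κ hB _ => h κ hB⟩

end Pool.Agent.U214.UN
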