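import Mathlib
import Pool.Agent.U214.UN.AT

/-!
# The abstract bound with constants which do not depend on the characters: the theorem
-/

set_option autoImplicit false

namespace Pool.Agent.U214.UN

open Finset Pool.Agent.U214.PT Pool.Agent.W262.RK Pool.Agent.U214.GT
open Pool.Agent.W262.RK.AT (VV YY BW patterns one_le_log VV_le three_le_VV)

/-- **The abstract bound** with general weights -/
theorem at_gU (ι : Type) [Fintype ι] [DecidableEq ι] (w : ι → ℝ) (L : ι → ι → Bool)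
    (h : ι → ℕ → ℝ) (B C0 : ℝ) (M : ι → ℝ) (z1 : ℕ) (K : ℝ)
    (H : ∀ i, Wt (h i) B C0 (M i) z1)
    (hw : ∀ i, 0 < w i ∧ w i * B ≤ 1) (hL : ∀ i, L i i = false)
    (hK : ∀ U : Finset ι, (∀ i ∈ U, ∀ j ∈ U, L i j = L j i) → ∑ i ∈ U, w i * M i ≤ K) :
    ∃ z0 : ℕ, ∀ z, z0 ≤ z → ∃ C : ℝ, ∀ κ : ι → ℕ → ℝ, (∀ i p, |κ i p| ≤ 1) → ∀ y, z < y →
      |∑ d ∈ Tup ι z y, (∏ i, gh (fun p => w i * h i p) (d i)) * SymG L κ d| ≤
        C * (Real.log y) ^ K := by
  classical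
  obtain ⟨C2, E2, h2⟩ := Pool.Agent.W655.RK.blw_of
    (_root_.W37.RK.bl_of Pool.Agent.W505.RK.ls)
  have hM := fun i => (H i).M0
  have hwM : ∀ i, 0 < w i * M i := fun i => mul_pos (hw i).1 (hM i)
  obtain ⟨N, hN⟩ : ∃ N, N = ⌈3 * ∑ i, w i * M i⌉₊ + 1 := ⟨_, rfl⟩
  have hNi : ∀ i, 3 * (w i * M i) ≤ N := by
    intro i
    have h1 : w i * M i ≤ ∑ i, w i * M i := single_le_sum (f := fun i => w i * M i)
      (fun j _ => (hwM j).le) (mem_univ i)
    have h3 := Nat.le_ceil (3 * ∑ i, w i * M i)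
    rw [hN]
    push_cast
    linarith
  obtain ⟨A, hA⟩ : ∃ A, A = 6 * (N * Fintype.card ι + 2 * E2) + 6 := ⟨_, rfl⟩
  have hA6 : 6 ≤ A := by omega
  have hA6' : (6 : ℝ) ≤ A := by exact_mod_cast hA6
  obtain ⟨θ, hθ⟩ : ∃ θ : ℝ, θ = 1 / (2 * (A : ℝ)) := ⟨_, rfl⟩
  have hθ0 : 0 < θ := by rw [hθ]; positivity
  have hθ6 : θ ≤ 1 / 6 := by
    rw [hθ]
    apply one_div_le_one_div_of_le (by norm_num)
    linarith
  obtain ⟨ci, hci⟩ : ∃ ci : ι → ℝ, ci = fun i => min (1 / 2) (w i * M i * θ / 4) := ⟨_, rfl⟩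
  have hci0 : ∀ i, 0 < ci i := fun i => by
    rw [hci]
    have := hwM i
    exact lt_min (by norm_num) (by positivity)
  obtain ⟨c, hc⟩ : ∃ c : ℝ, c = (1 + ∑ i, (ci i)⁻¹)⁻¹ := ⟨_, rfl⟩
  have hs0 : 0 ≤ ∑ i, (ci i)⁻¹ := sum_nonneg fun i _ => inv_nonneg.2 (hci0 i).le
  have hc0 : 0 < c := by rw [hc]; positivity
  have hcc : ∀ i, c ≤ ci i := by
    intro i
    have h1 : (ci i)⁻¹ ≤ ∑ i, (ci i)⁻¹ := single_le_sum (f := fun i => (ci i)⁻¹)
      (fun j _ => inv_nonneg.2 (hci0 j).le) (mem_univ i)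
    rw [hc]
    exact inv_le_of_inv_le₀ (hci0 i) (by linarith)
  obtain ⟨δ, hδ⟩ : ∃ δ : ℝ, δ = c / 2 / (Fintype.card ι + 1) := ⟨_, rfl⟩
  have hδ0 : 0 < δ := by rw [hδ]; positivity
  have hδc : δ * Fintype.card ι ≤ c / 2 := by
    rw [hδ, div_mul_eq_mul_div, div_le_iff₀ (by positivity)]
    apply mul_le_mul_of_nonneg_left _ (by positivity)
    linarith
  obtain ⟨Ct, hCt0, hCt⟩ := tail_conv hδ0
  refine ⟨z1 + 150 + ⌈8 / c⌉₊ + ⌈4 / δ⌉₊, fun z hz => ?_⟩
  have Hz := fun i => (H i).mono (show z1 ≤ z by omega)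
  have hz3 : 3 ≤ z := by omega
  have hz8 : 8 / c ≤ z := (Nat.le_ceil _).trans (by exact_mod_cast (by omega : ⌈8 / c⌉₊ ≤ z))
  have hz4 : 4 / δ ≤ z := (Nat.le_ceil _).trans (by exact_mod_cast (by omega : ⌈4 / δ⌉₊ ≤ z))
  have hex : ∀ i, ∃ C : ℝ, 0 ≤ C ∧ ∀ ψ : ℕ → ℝ, (∀ p, |ψ p| ≤ 1) → ∀ V y m0 : ℕ, z < y → 1 ≤ m0 →
      (V : ℝ) ^ θ ≤ Real.log y →
      ∑ m ∈ (PP z y).divisors.filter (fun m => 1 < m ∧ m0 ≤ m ∧ m ≤ V), hh m / m *
        Real.exp (-(w i * ∑ p ∈ PS z y, h i p * (1 - ψ p * Jr p m))) ≤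
        C * (m0 : ℝ) ^ (-(ci i / 2)) := by
    intro i
    have h1 : 8 / ci i ≤ z := by
      refine le_trans ?_ hz8
      exact div_le_div_of_nonneg_left (by norm_num) hc0 (hcc i)
    rw [hci] at h1 ⊢
    exact sav2 (Hz i) hθ0 hθ6 (hw i).1 h1 hz3
  choose CS hCS0 hCS using hex
  choose CF hCF0 hCF1 hCF2 hCF3 using fun i => fullW (Hz i) (hw i).1 (hw i).2 hz3 N (hNi i)
  obtain ⟨C, hC⟩ : ∃ C : ℝ, C = 1 + ∑ i, (CF i + Real.exp (w i * C0)) := ⟨_, rfl⟩
  have hsum : ∀ i, CF i + Real.exp (w i * C0) ≤ ∑ i, (CF i + Real.exp (w i * C0)) := fun i =>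
    single_le_sum (f := fun i => CF i + Real.exp (w i * C0))
      (fun j _ => add_nonneg (hCF0 j) (Real.exp_pos _).le) (mem_univ i)
  have hsum0 : 0 ≤ ∑ i, (CF i + Real.exp (w i * C0)) :=
    sum_nonneg fun j _ => add_nonneg (hCF0 j) (Real.exp_pos _).le
  have hC1 : 1 ≤ C := by rw [hC]; linarith
  have hCF' : ∀ i, CF i ≤ C := fun i => by
    have := hsum i
    have := Real.exp_pos (w i * C0)
    rw [hC]; linarith
  have hCE' : ∀ i, Real.exp (w i * C0) ≤ C := fun i => by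
    have := hsum i
    have := hCF0 i
    rw [hC]; linarith
  have hB : ∀ κ : ι → ℕ → ℝ, (∀ i p, |κ i p| ≤ 1) →
      AG.Bd (fun i => gh (fun p => w i * h i p)) (fun i => w i * M i) κ N z C := fun κ hκ =>
    { ps := hκ
      w0 := hwM
      w1 := fun i => by have := hNi i; have := hwM i; linarith
      N1 := by omega
      z3 := hz3
      C1 := hC1
      g0 := fun i y m hm => gh_nonneg (Hz i) (hw i).1.le hm
      g1 := fun i => gh_one _
      gl := fun i y m hm => gh_le (Hz i) (hw i).1.le (hw i).2 hm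
      F1 := fun i y hy => (hCF1 i y hy).trans (mul_le_mul_of_nonneg_right (hCF' i)
        (Real.rpow_nonneg (Real.log_natCast_nonneg y) _))
      F2 := fun i y V hy hV => (hCF2 i y V hy hV).trans (mul_le_mul_of_nonneg_right (hCF' i)
        (Real.rpow_nonneg (Real.log_natCast_nonneg V) _))
      F3 := fun i y Y hy hY => (hCF3 i y Y hy hY).trans (by
        apply mul_le_mul_of_nonneg_right _ (pow_nonneg (Real.log_natCast_nonneg y) _)
        exact mul_le_mul_of_nonneg_right (hCF' i) (Real.exp_pos _).le) }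
  have hE : ∀ κ : ι → ℕ → ℝ, (∀ i p, |κ i p| ≤ 1) →
      AG.EE (fun i => gh (fun p => w i * h i p)) h w (fun i => w i * M i) κ z C := by
    intro κ hκ i y R r e hy hR
    refine (epG (Hz i) (hw i).1 (hw i).2 hz3 (hκ i) y R r e hy hR).trans ?_
    apply mul_le_mul_of_nonneg_right _ (hh_nonneg _)
    apply mul_le_mul_of_nonneg_right _ (Real.exp_pos _).le
    exact mul_le_mul_of_nonneg_right (hCE' i) (Real.rpow_nonneg (Real.log_natCast_nonneg y) _)
  have hS : AG.SS h w z θ (δ * Fintype.card ι) δ (Ct + ∑ i, CS i) := by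
    have hs : 0 ≤ ∑ i, CS i := sum_nonneg fun i _ => hCS0 i
    refine ⟨by positivity, ?_, ?_⟩
    · intro i ψ hψ V y m0 hy hm0 hV
      refine (hCS i ψ hψ V y m0 hy hm0 hV).trans ?_
      have hm0' : (1 : ℝ) ≤ m0 := by exact_mod_cast hm0
      have h1 : (m0 : ℝ) ^ (-(ci i / 2)) ≤ (m0 : ℝ) ^ (-(δ * Fintype.card ι)) := by
        apply Real.rpow_le_rpow_of_exponent_le hm0'
        have := hcc i
        linarith
      have h3 : CS i ≤ ∑ i, CS i := single_le_sum (f := CS) (fun j _ => hCS0 j) (mem_univ i)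
      exact mul_le_mul (by linarith) h1 (by positivity) (by positivity)
    · intro y
      have := hCt z hz4 hz3 y
      linarith
  have hθy : ∀ y : ℕ, z < y → (VV A (Real.log y) : ℝ) ^ θ ≤ Real.log y := by
    intro y hy
    rw [hθ]
    exact VV_theta hA6 (log_150 (by omega))
  have h2' : AT.BW |C2| E2 := fun V Y hV hVY a b ha hb ha' hb' =>
    (h2 V Y hV hVY a b ha hb ha' hb').trans (by
      apply mul_le_mul_of_nonneg_right _ (by positivity)
      exact mul_le_mul_of_nonneg_right (le_abs_self C2)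
        (pow_nonneg (Real.log_natCast_nonneg Y) _))
  choose C' hC' using fun π : ι → Fin 4 => patU (hB (fun _ _ => 0) (fun _ _ => by simp))
    (abs_nonneg C2) h2' hL
    (show 6 * (N * Fintype.card ι + 2 * E2) ≤ A by omega) hδ0.le hS hθy hK π
  refine ⟨∑ π, C' π, fun κ hκ y hy => ?_⟩
  rw [Pool.Agent.U214.GT.AG.total_eq, Pool.Agent.W262.RK.AT.patterns z y (AT.VV A (Real.log y)) (AT.YY A (Real.log y)), sum_mul]
  exact (abs_sum_le_sum_abs _ _).trans (sum_le_sum fun π _ =>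
    hC' π κ (hB κ hκ) (hE κ hκ) y hy)

/-- **The abstract bound**, all weights -/
theorem at_sU (ι : Type) [Fintype ι] [DecidableEq ι] (w : ι → ℝ) (L : ι → ι → Bool)
    (h : ι → ℕ → ℝ) (B C0 : ℝ) (M : ι → ℝ) (z1 : ℕ) (K : ℝ)
    (H : ∀ i, Wt (h i) B C0 (M i) z1)
    (hw : ∀ i, 0 < w i) (hL : ∀ i, L i i = false)
    (hK : ∀ U : Finset ι, (∀ i ∈ U, ∀ j ∈ U, L i j = L j i) → ∑ i ∈ U, w i * M i ≤ K) :
    ∃ z0 : ℕ, ∀ z, z0 ≤ z → ∃ C : ℝ, ∀ κ : ι → ℕ → ℝ, (∀ i p, |κ i p| ≤ 1) → ∀ y, z < y →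
      |∑ d ∈ Tup ι z y, (∏ i, gh (fun p => w i * h i p) (d i)) * SymG L κ d| ≤
        C * (Real.log y) ^ K := by
  classical
  obtain ⟨m, hm⟩ : ∃ m, m = ⌈∑ i, w i * |B|⌉₊ + 1 := ⟨_, rfl⟩
  have hm0 : 0 < m := by omega
  have hmr : (0 : ℝ) < m := by exact_mod_cast hm0
  have hwB : ∀ i, w i * B ≤ m := by
    intro i
    have h1 : w i * |B| ≤ ∑ i, w i * |B| := single_le_sum (f := fun i => w i * |B|)
      (fun j _ => mul_nonneg (hw j).le (abs_nonneg _)) (mem_univ i)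
    have h2 := Nat.le_ceil (∑ i, w i * |B|)
    have h3 : w i * B ≤ w i * |B| := mul_le_mul_of_nonneg_left (le_abs_self B) (hw i).le
    have h4 : (m : ℝ) = (⌈∑ i, w i * |B|⌉₊ : ℝ) + 1 := by rw [hm]; push_cast; ring
    linarith
  obtain ⟨z0, hz0⟩ := at_gU (ι × Fin m) (fun x => w x.1 / m) (fun x x' => L x.1 x'.1)
    (fun x => h x.1) B C0 (fun x => M x.1) z1 K (fun x => H x.1)
    (fun x => ⟨div_pos (hw x.1) hmr, by
      rw [div_mul_eq_mul_div, div_le_one hmr]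
      exact hwB x.1⟩) (fun x => hL x.1) (fun U hU => by
      have h1 : U ⊆ (U.image Prod.fst) ×ˢ univ := by
        intro x hx
        rw [mem_product]
        exact ⟨mem_image_of_mem _ hx, mem_univ _⟩
      calc ∑ x ∈ U, w x.1 / m * M x.1 ≤ ∑ x ∈ (U.image Prod.fst) ×ˢ (univ : Finset (Fin m)),
            w x.1 / m * M x.1 := by
            refine sum_le_sum_of_subset_of_nonneg h1 fun x _ _ => ?_
            exact mul_nonneg (div_nonneg (hw _).le hmr.le) (H _).M0.le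
        _ = ∑ i ∈ U.image Prod.fst, w i * M i := by
            rw [sum_product]
            refine sum_congr rfl fun i _ => ?_
            simp only
            rw [sum_const, card_univ, Fintype.card_fin, nsmul_eq_mul]
            field_simp
        _ ≤ K := by
            refine hK _ fun i hi j hj => ?_
            obtain ⟨x, hx, rfl⟩ := mem_image.1 hi
            obtain ⟨x', hx', rfl⟩ := mem_image.1 hj
            exact hU x hx x' hx')
  refine ⟨z0, fun z hz => ?_⟩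
  obtain ⟨C, hC⟩ := hz0 z hz
  refine ⟨C, fun κ hκ y hy => ?_⟩
  have := hC (fun x => κ x.1) (fun x => hκ x.1) y hy
  rwa [split_Tup m hm0 w L h κ] at this


end Pool.Agent.U214.UN
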