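import Mathlib
import Pool.Agent.U214.UN.ATU
import Pool.Agent.U214.UN.Sc
import Pool.Agent.U214.GT.Main

/-!
# The weighted sums with the characters twisted by the denominator
-/

set_option autoImplicit false

namespace Pool.Agent.U214.UN

open Finset Polynomial Pool.Agent.W262.RK Pool.Agent.U214.PT Pool.Agent.U214.GT Pool.Agent.U214.RM
open Pool.Agent.H474R2.PG (rho)

variable {A B D : ℤ[X]} {d z : ℕ}

/-- the roots, marked by the prime -/
noncomputable def ZT (A B D : ℤ[X]) (j : JJ A B D) (p : ℕ) : Finset ℕ :=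
  (ZJ A B D j p).image (fun θ => p ^ 2 + θ)

/-- the constants, twisted by `n` -/
noncomputable def kT (A B D : ℤ[X]) (n : ℕ) (j : JJ A B D) (θ : ℕ) (k : Fin 3) : ℤ :=
  (if Nat.sqrt θ ∣ n then 1 else (n : ℤ) ^ (KK A B D j.1 k).natDegree) *
    (KK A B D j.1 k).eval (θ : ℤ)

lemma ZT_card (A B D : ℤ[X]) (j : JJ A B D) (p : ℕ) : (ZT A B D j p).card = (ZJ A B D j p).card := by
  unfold ZT
  apply card_image_of_injective
  intro a b h
  simpa using h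

lemma hZ_ZT (A B D : ℤ[X]) (h : ℕ → ℝ) : hZ (ZT A B D) h = hZ (ZJ A B D) h := by
  funext j p
  unfold hZ
  rw [ZT_card]

lemma sqrt_mark {p θ : ℕ} (h : θ < p) : Nat.sqrt (p ^ 2 + θ) = p :=
  Nat.sqrt_add_eq' p (by omega)

lemma eval_mark (f : ℤ[X]) (p θ : ℕ) : (p : ℤ) ∣ f.eval ((p ^ 2 + θ : ℕ) : ℤ) - f.eval (θ : ℤ) := by
  refine dvd_trans ?_ (sub_dvd_eval_sub _ _ f)
  push_cast
  rw [add_sub_cancel_right, sq]
  exact dvd_mul_left _ _

lemma ZT_mem {j : JJ A B D} {p θ : ℕ} (h : θ ∈ ZT A B D j p) :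
    Nat.sqrt θ = p ∧ (p : ℤ) ∣ (fj A B D j.1).eval (θ : ℤ) := by
  unfold ZT at h
  obtain ⟨a, ha, rfl⟩ := mem_image.1 h
  unfold ZJ at ha
  rw [mem_filter, mem_range] at ha
  refine ⟨sqrt_mark ha.1, ?_⟩
  have h1 := eval_mark (fj A B D j.1) p a
  have h2 := dvd_add h1 ha.2
  rwa [sub_add_cancel] at h2

lemma kT_nd (hf : Pg (ft A B D) d z) (n : ℕ) {p : ℕ} (hp : p.Prime) (hz : z < p) (j : JJ A B D)
    {θ : ℕ} (hθ : θ ∈ ZT A B D j p) (k : Fin 3) : ¬ (p : ℤ) ∣ kT A B D n j θ k := by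
  have hpi : Prime (p : ℤ) := Nat.prime_iff_prime_int.1 hp
  obtain ⟨h1, h2⟩ := ZT_mem hθ
  have h3 := K_nd hf hp hz j.1 h2 k
  unfold kT
  rw [h1]
  intro h
  rcases hpi.dvd_or_dvd h with h4 | h4
  · split_ifs at h4 with h5
    · exact hpi.not_isUnit (isUnit_of_dvd_one h4)
    · exact h5 (Int.natCast_dvd_natCast.1 (hpi.dvd_of_dvd_pow h4))
  · exact h3 h4

/-- the sum with the weights, all characters -/
theorem ma_GU {r : ℕ} {e : ℝ} {z1 : ℕ} {C0 : ℝ} (hW : WtJ A B D d z1 C0) (hE : Ex A B D r e)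
    (hn : ft A B D ≠ 0) :
    ∃ z0 : ℕ, ∀ z, z0 ≤ z → z1 ≤ z → ∃ C : ℝ, ∀ n y : ℕ, z < y →
      ∑ s ∈ Tup (JJ A B D) z y, NBS r (cJ A B D) (ZT A B D) (kT A B D n) s *
        ∏ j, gh (h0 (ft A B D)) (s j) ≤ C * (Real.log y) ^ ((nf (ft A B D) : ℝ) + e) := by
  classical
  obtain ⟨z0, hz0⟩ := at_sU (Ir r (cJ A B D)) (w_r (cJ A B D)) (L_r (cJ A B D))
    (fun i => hZ (ZJ A B D) (h0 (ft A B D)) i.1.1)
    (2 * d) C0 (fun i => nf (fj A B D i.1.1.1)) z1 ((nf (ft A B D) : ℝ) + e)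
    (fun i => hW.wj i.1.1) (fun i => by
      unfold w_r wr Pool.Agent.W762.RK2.wc
      split_ifs <;> positivity) (fun i => Ar_orth i.2) (fun U hU => by
      have h1 := comb_m (r := r) (cls := cJ A B D) (M := fun j => (nf (fj A B D j.1) : ℝ))
        (fun j => Nat.cast_nonneg _)
        ((sum_cls A B D 0).trans (nf_cls hn 0)) ((sum_cls A B D 1).trans (nf_cls hn 1))
        ((sum_cls A B D 2).trans (nf_cls hn 2)) hE.nn
        (by rw [fj0, fj1, fj2]; exact hE.h0) (by rw [fj0, fj1, fj2]; exact hE.h1)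
        (by rw [fj0, fj1, fj2]; exact hE.h2) hU
      rw [nf_ft hn]
      exact h1)
  refine ⟨z0, fun z hz hz1 => ?_⟩
  obtain ⟨C, hC⟩ := hz0 z hz
  refine ⟨C, fun n y hy => ?_⟩
  rw [exp_s (cJ A B D) (ZT A B D) (kT A B D n) (h0 (ft A B D)) r z y
    (fun p hp hzp j θ hθ k => kT_nd hW.pg n hp (by omega) j hθ k), hZ_ZT]
  exact le_trans (le_abs_self _)
    (hC (psi (cJ A B D) (ZT A B D) (kT A B D n)) (fun i p => abs_psi _ _ _ i p) y hy)

section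

variable {p : ℕ} (hp : p.Prime) {n : ℕ} (hn : ¬ p ∣ n)

include hp hn

/-- the quadratic character -/
lemma jac_evT (f : ℤ[X]) (m x : ℤ) :
    jacobiSym ((n : ℤ) ^ f.natDegree * f.eval ((p ^ 2 + th p n m : ℕ) : ℤ) * x) p =
      jacobiSym (ev f n m * x) p := by
  haveI : Fact p.Prime := ⟨hp⟩
  symm
  apply jac_cong
  have h4 := ev_sub hp hn f m
  have h5 := eval_mark f p (th p n m)
  have h6 : ev f n m * x - (n : ℤ) ^ f.natDegree * f.eval ((p ^ 2 + th p n m : ℕ) : ℤ) * x =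
      (ev f n m - (n : ℤ) ^ f.natDegree * f.eval ((th p n m : ℕ) : ℤ)) * x -
      (f.eval ((p ^ 2 + th p n m : ℕ) : ℤ) - f.eval ((th p n m : ℕ) : ℤ)) *
        ((n : ℤ) ^ f.natDegree * x) := by ring
  rw [h6]
  exact dvd_sub (h4.mul_right _) (h5.mul_right _)

end

end Pool.Agent.U214.UN
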