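import Mathlib
import Pool.Agent.U214.UN.Rank
import Pool.Agent.U214.UN.Tw

/-!
# The local bound at the point `m / n`, all degrees
-/

set_option autoImplicit false

namespace Pool.Agent.U214.UN

open Finset Polynomial Pool.Agent.W262.RK Pool.Agent.U214.PT Pool.Agent.U214.GT
open Pool.Agent.W307.RT (S1 S2 Gd)
open Pool.Agent.H474R2.PG (rho)

variable {A B D : ℤ[X]} {d z n : ℕ} {m : ℤ}

/-- the compatibility with the difference (all denominators if the degrees are equal) -/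
structure AdT (A B : ℤ[X]) (n : ℕ) : Prop where
  sub : ∀ m, ev (A - B) n m = ev A n m - ev B n m

lemma locGT (hf : Pg (ft A B D) d z) (had : AdT A B n) (hcn : Cp A B D z n m) {p : ℕ}
    (hp : p.Prime) (hz : z < p) (j : Fin 4)
    (hj : (p : ℤ) ∣ ev (fj A B D j) n m) (hj2 : ¬ (p : ℤ) ^ 2 ∣ ev (fj A B D j) n m) :
    LocH j (fun k => (n : ℤ) ^ (KK A B D j k).natDegree *
      (KK A B D j k).eval ((p ^ 2 + th p n m : ℕ) : ℤ))
      (decide (jacobiSym (ev (ft A B D) n m / p) p = -1)) p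
      (ev A n m * ev D n m) (ev B n m * ev D n m) := by
  have hpi : Prime (p : ℤ) := Nat.prime_iff_prime_int.1 hp
  have hp0 : (p : ℤ) ≠ 0 := hpi.ne_zero
  haveI : Fact p.Prime := ⟨hp⟩
  have hq := q_ndU hf hcn hp hz j hj
  have hnn0 : ¬ p ∣ n := hcn.of hp hz hj
  obtain ⟨a, ha⟩ : ∃ a, a = ev A n m := ⟨_, rfl⟩
  obtain ⟨b, hb⟩ : ∃ b, b = ev B n m := ⟨_, rfl⟩
  obtain ⟨c, hc⟩ : ∃ c, c = ev D n m := ⟨_, rfl⟩
  have hnd : ∀ {x y : ℤ}, ¬ (p : ℤ) ∣ x → ¬ (p : ℤ) ∣ y → ¬ (p : ℤ) ∣ x * y := by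
    intro x y h1 h2 h3
    rcases hpi.dvd_or_dvd h3 with h | h
    · exact h1 h
    · exact h2 h
  have hsq1 : ∀ x : ℤ, ¬ (p : ℤ) ∣ x → jacobiSym (x ^ 2) p = 1 := by
    intro x hx
    apply jacobiSym.sq_one'
    rw [← Int.isCoprime_iff_gcd_eq_one]
    exact ((Prime.coprime_iff_not_dvd hpi).2 hx).symm
  have hcp : ∀ x y : ℤ, (p : ℤ) ∣ x → ¬ (p : ℤ) ^ 2 ∣ x → ¬ (p : ℤ) ∣ y → ¬ (p : ℤ) ^ 2 ∣ x * y := by
    intro x y _ h2 h3 h4
    exact h2 ((IsCoprime.pow_left ((Prime.coprime_iff_not_dvd hpi).2 h3)).dvd_of_dvd_mul_right h4)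
  rcases f4 j with rfl | rfl | rfl | rfl
  · rw [fj0, ← ha] at hj hj2
    rw [qj0, ev_mul, ev_mul, had.sub, ← ha, ← hb, ← hc] at hq
    have hb' : ¬ (p : ℤ) ∣ b := fun h => hq ((h.mul_right _).mul_right _)
    have hc' : ¬ (p : ℤ) ∣ c := fun h => hq (h.mul_left _)
    unfold LocH
    rw [if_pos rfl, ← ha, ← hb, ← hc]
    refine ⟨hj.mul_right _, hcp _ _ hj hj2 hc', hnd hb' hc', ?_⟩
    have h1 : ev (KK A B D 0 0) n m = -(b * c) := by
      unfold KK
      rw [if_pos rfl, ev_neg, ev_mul, ← hb, ← hc]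
    rw [jac_evT hp hnn0, h1, show -(b * c) * -(b * c) = (b * c) ^ 2 by ring]
    exact hsq1 _ (hnd hb' hc')
  · rw [fj1, ← hb] at hj hj2
    rw [qj1, ev_mul, ev_mul, had.sub, ← ha, ← hb, ← hc] at hq
    have ha' : ¬ (p : ℤ) ∣ a := fun h => hq ((h.mul_right _).mul_right _)
    have hc' : ¬ (p : ℤ) ∣ c := fun h => hq (h.mul_left _)
    unfold LocH
    rw [if_neg (by decide), if_pos rfl, ← ha, ← hb, ← hc]
    refine ⟨hj.mul_right _, hcp _ _ hj hj2 hc', hnd ha' hc', ?_⟩
    have h1 : ev (KK A B D 1 0) n m = -(a * c) := by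
      unfold KK
      rw [if_neg (by decide), if_pos rfl, ev_neg, ev_mul, ← ha, ← hc]
    rw [jac_evT hp hnn0, h1, show -(a * c) * -(a * c) = (a * c) ^ 2 by ring]
    exact hsq1 _ (hnd ha' hc')
  · rw [fj2, had.sub, ← ha, ← hb] at hj hj2
    rw [qj2, ev_mul, ev_mul, ← ha, ← hb, ← hc] at hq
    have ha' : ¬ (p : ℤ) ∣ a := fun h => hq ((h.mul_right _).mul_right _)
    have hc' : ¬ (p : ℤ) ∣ c := fun h => hq (h.mul_left _)
    unfold LocH
    rw [if_neg (by decide), if_neg (by decide), if_pos rfl, ← ha, ← hb, ← hc, ← sub_mul]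
    refine ⟨hj.mul_right _, hcp _ _ hj hj2 hc', hnd ha' hc', ?_⟩
    have h1 : ev (KK A B D 2 0) n m = a * c := by
      unfold KK
      rw [if_neg (by decide), if_neg (by decide), if_pos rfl, ev_mul, ← ha, ← hc]
    rw [jac_evT hp hnn0, h1, show a * c * (a * c) = (a * c) ^ 2 by ring]
    exact hsq1 _ (hnd ha' hc')
  · rw [fj3, ← hc] at hj hj2
    rw [qj3, ev_mul, ev_mul, had.sub, ← ha, ← hb] at hq
    have ha' : ¬ (p : ℤ) ∣ a := fun h => hq ((h.mul_right _).mul_right _)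
    have hb' : ¬ (p : ℤ) ∣ b := fun h => hq ((h.mul_left _).mul_right _)
    have hab' : ¬ (p : ℤ) ∣ a - b := fun h => hq (h.mul_left _)
    obtain ⟨q, hcq⟩ := hj
    have hq' : ¬ (p : ℤ) ∣ q := by
      intro h
      apply hj2
      rw [hcq, sq]
      exact mul_dvd_mul_left _ h
    have hF : ev (ft A B D) n m / p = a * b * (a - b) * q := by
      unfold ft
      rw [ev_mul, ev_mul, ev_mul, had.sub, ← ha, ← hb, ← hc, hcq]
      rw [show a * b * (a - b) * ((p : ℤ) * q) = (p : ℤ) * (a * b * (a - b) * q) by ring]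
      exact Int.mul_ediv_cancel_left _ hp0
    have hFn : ¬ (p : ℤ) ∣ a * b * (a - b) * q := hnd (hnd (hnd ha' hb') hab') hq'
    have hJ : jacobiSym (a * b * (a - b) * q) p =
        if (decide (jacobiSym (a * b * (a - b) * q) p = -1)) = true then -1 else 1 := by
      split_ifs with h5
      · exact of_decide_eq_true h5
      · have h6 : jacobiSym (a * b * (a - b) * q) p ≠ -1 := fun h7 => h5 (decide_eq_true h7)
        have h7 : (a * b * (a - b) * q).gcd p = 1 := by
          rw [← Int.isCoprime_iff_gcd_eq_one]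
          exact ((Prime.coprime_iff_not_dvd hpi).2 hFn).symm
        rcases jacobiSym.eq_one_or_neg_one h7 with h8 | h8
        · exact h8
        · exact absurd h8 h6
    have hK : ∀ (k : Fin 3) (x : ℤ), ¬ (p : ℤ) ∣ x →
        ev (KK A B D 3 k) n m = x * (a * b * (a - b)) →
        jacobiSym ((n : ℤ) ^ (KK A B D 3 k).natDegree *
          (KK A B D 3 k).eval ((p ^ 2 + th p n m : ℕ) : ℤ) * (x * q)) p =
          jacobiSym (a * b * (a - b) * q) p := by
      intro k x hx h1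
      rw [jac_evT hp hnn0, h1,
        show x * (a * b * (a - b)) * (x * q) = x ^ 2 * (a * b * (a - b) * q) by ring,
        jacobiSym.mul_left (x ^ 2), hsq1 x hx, one_mul]
    have hK0 : ev (KK A B D 3 0) n m = a * (a * b * (a - b)) := by
      unfold KK
      rw [if_neg (by decide), if_neg (by decide), if_neg (by decide), if_pos rfl, ev_mul,
        ev_mul, ev_mul, had.sub, ← ha, ← hb]
    have hK1 : ev (KK A B D 3 1) n m = b * (a * b * (a - b)) := by
      unfold KK
      rw [if_neg (by decide), if_neg (by decide), if_neg (by decide), if_neg (by decide),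
        if_pos rfl, ev_mul, ev_mul, ev_mul, had.sub, ← ha, ← hb]
    have hK2 : ev (KK A B D 3 2) n m = (a - b) * (a * b * (a - b)) := by
      unfold KK
      rw [if_neg (by decide), if_neg (by decide), if_neg (by decide), if_neg (by decide),
        if_neg (by decide), ev_mul, ev_mul, ev_mul, had.sub, ← ha, ← hb]
    have hdiv : ∀ x : ℤ, x * c / p = x * q := by
      intro x
      rw [hcq, mul_left_comm]
      exact Int.mul_ediv_cancel_left _ hp0
    have hnn : ∀ x : ℤ, ¬ (p : ℤ) ∣ x → ¬ (p : ℤ) ^ 2 ∣ x * c := by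
      intro x hx
      rw [mul_comm]
      exact hcp _ _ (by rw [hcq]; exact Dvd.intro _ rfl) hj2 hx
    unfold LocH
    rw [if_neg (by decide), if_neg (by decide), if_neg (by decide), hF, ← ha, ← hb, ← hc,
      ← sub_mul, hdiv, hdiv, hdiv, hK 0 a ha' hK0, hK 1 b hb' hK1, hK 2 (a - b) hab' hK2]
    have hdc : (p : ℤ) ∣ c := by rw [hcq]; exact Dvd.intro _ rfl
    exact ⟨hdc.mul_left _, hdc.mul_left _, hnn a ha', hnn b hb', hnn _ hab', hJ, hJ, hJ⟩

/-- the sign and the residue -/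
noncomputable def cT (A B D : ℤ[X]) (n : ℕ) (m : ℤ) (p : ℕ) : Bool × ℕ :=
  (decide (jacobiSym (ev (ft A B D) n m / p) p = -1), p ^ 2 + th p n m)

/-- **the local bound** -/
lemma rankGT {Q : ℤ → ℤ → ℝ} (hQ : QL Q) (hf : Pg (ft A B D) d z) (had : AdT A B n)
    (hcn : Cp A B D z n m) {y X k e : ℕ}
    (h0 : ev (ft A B D) n m ≠ 0) (hF : (ev (ft A B D) n m).natAbs ≤ X ^ e) (he : 1 ≤ e)
    (hy : 1 ≤ y) (hk : X < (y + 1) ^ k) :
    Q (ev A n m * ev D n m) (ev B n m * ev D n m) ≤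
      (4 : ℝ) ^ (z + 2) * (4 ^ e) ^ k *
        4 ^ (t2 z y (ev (ft A B D) n m)).primeFactors.card *
        (NL (∏ j, S1 z y (vu A B D n m) j)
          (LLc (cJ A B D) (kT A B D n) (S1 z y (vu A B D n m)) (cT A B D n m)) : ℝ) := by
  classical
  have hz2 : 2 ≤ z := by have := hf.zd; omega
  obtain ⟨M, hm⟩ : ∃ M, M = t1 z y (ev (ft A B D) n m) := ⟨_, rfl⟩
  rw [prod_S1U hf hcn h0, ← hm]
  have hmd : M ∣ PP z y := by rw [hm]; exact Nat.dvd_of_mem_divisors (t1_mem _)
  have hPSof : ∀ p : ℕ, p.Prime → p ∣ M → p ∈ PS z y := fun p hp h =>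
    (prime_dvd_PP hp).1 (h.trans hmd)
  have hodd : ∀ p : ℕ, p.Prime → p ∣ M → p ≠ 2 := by
    intro p hp h
    have h1 := (mem_PS.1 (hPSof p hp h)).1.1
    omega
  have ha := fj_neU h0 0
  have hb := fj_neU h0 1
  have hab := fj_neU h0 2
  have hc := fj_neU h0 3
  rw [fj0] at ha
  rw [fj1] at hb
  rw [fj2, had.sub] at hab
  rw [fj3] at hc
  -- the local data
  have hS1 : ∀ (p : ℕ) (j : JJ A B D), p.Prime → p ∣ S1 z y (vu A B D n m) j →
      (p ∈ PS z y ∧ (p : ℤ) ∣ ev (fj A B D j.1) n m ∧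
        ¬ (p : ℤ) ^ 2 ∣ ev (fj A B D j.1) n m) := by
    intro p j hp hpj
    unfold S1 at hpj
    obtain ⟨q, hq, hpq⟩ := (hp.prime.dvd_finsetProd_iff _).1 hpj
    rw [mem_filter] at hq
    rw [(Nat.prime_dvd_prime_iff_eq hp (mem_PS.1 hq.1).2).1 hpq]
    exact hq
  have hloc : ∀ (p : ℕ) (j : JJ A B D), p.Prime → p ∣ S1 z y (vu A B D n m) j →
      (∀ k, ¬ (p : ℤ) ∣ kT A B D n j (cT A B D n m p).2 k) ∧
      LocH (cJ A B D j) (kT A B D n j (cT A B D n m p).2) (cT A B D n m p).1 p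
        (ev A n m * ev D n m) (ev B n m * ev D n m) := by
    intro p j hp hpj
    obtain ⟨hPS, h1, h2⟩ := hS1 p j hp hpj
    have hzp := (mem_PS.1 hPS).1.1
    have hpn := hcn.of hp hzp h1
    have hmem : p ^ 2 + th p n m ∈ ZT A B D j p := by
      unfold ZT ZJ
      refine mem_image_of_mem _ ?_
      rw [mem_filter, mem_range]
      exact ⟨th_lt hp hpn m, (dvd_ev hp hpn _ m).1 h1⟩
    refine ⟨fun k => kT_nd hf n hp hzp j hmem k, ?_⟩
    have hkT : kT A B D n j (cT A B D n m p).2 = fun k => (n : ℤ) ^ (KK A B D j.1 k).natDegree *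
        (KK A B D j.1 k).eval ((p ^ 2 + th p n m : ℕ) : ℤ) := by
      funext k
      unfold kT cT
      simp only
      rw [sqrt_mark (th_lt hp hpn m), if_neg hpn]
    rw [hkT]
    exact locGT hf had hcn hp hzp j.1 h1 h2
  have hbd := hQ.bd M (LLc (cJ A B D) (kT A B D n) (S1 z y (vu A B D n m)) (cT A B D n m))
    (ev A n m * ev D n m) (ev B n m * ev D n m)
    (mul_ne_zero ha hc) (mul_ne_zero hb hc)
    (fun h => hab (by rw [mul_right_cancel₀ hc h, sub_self]))
    (by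
      rw [← Nat.not_even_iff_odd, even_iff_two_dvd]
      intro h
      exact hodd 2 Nat.prime_two h rfl)
    ((PP_squarefree z y).squarefree_of_dvd hmd)
    (fun p hp hpd => by
      have hx : ∀ j, p ∣ S1 z y (vu A B D n m) j → XC (LL (cJ A B D j)
          (kT A B D n j (cT A B D n m p).2) (cT A B D n m p).1 p) := fun j hj =>
        Pool.Agent.W342.RK2.xcl _ _ _ p hp (hodd p hp hpd) (hloc p j hp hj).1
      exact ⟨fun j hj => (hx j hj).1, fun a1 b1 c1 d1 a2 b2 c2 d2 e1 e2 j hj =>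
        (hx j hj).2 a1 b1 c1 d1 a2 b2 c2 d2 (e1 j hj) (e2 j hj)⟩)
    (fun p hp hpd => by
      have hpd' := hpd
      rw [hm, ← prod_S1U hf hcn h0] at hpd'
      obtain ⟨j, _, hj⟩ := (hp.prime.dvd_finsetProd_iff _).1 hpd'
      obtain ⟨h1, h2⟩ := hloc p j hp hj
      refine ⟨_, _, _, h1, h2, fun v w h g hL i hi => ?_⟩
      have hij : i = j := by
        by_contra hne
        exact (gdU hf hcn h0).2 p hp (mem_PS.1 (hS1 p j hp hj).1).1.1 i j hne
          ⟨(hS1 p i hp hi).2.1, (hS1 p j hp hj).2.1⟩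
      rw [hij]
      exact hL)
  refine hbd.trans ?_
  apply mul_le_mul_of_nonneg_right _ (Nat.cast_nonneg _)
  have hcard := bad_le (z := z) (y := y) (2 * (ev A n m * ev D n m) * (ev B n m * ev D n m) *
    (ev A n m * ev D n m - ev B n m * ev D n m)).natAbs.primeFactors
    (fun q hq => by
      have hp := Nat.prime_of_mem_primeFactors hq
      refine ⟨hp, fun hzq => ?_⟩
      have hqi : Prime (q : ℤ) := Nat.prime_iff_prime_int.1 hp
      have hdv : (q : ℤ) ∣ 2 * (ev A n m * ev D n m) * (ev B n m * ev D n m) *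
        (ev A n m * ev D n m - ev B n m * ev D n m) :=
        Int.natCast_dvd.2 (Nat.dvd_of_mem_primeFactors hq)
      unfold ft
      rw [ev_mul, ev_mul, ev_mul, had.sub]
      rw [← sub_mul] at hdv
      rcases hqi.dvd_or_dvd hdv with h1 | h1
      · rcases hqi.dvd_or_dvd h1 with h2 | h2
        · rcases hqi.dvd_or_dvd h2 with h3 | h3
          · exfalso
            have h4 : q ∣ 2 := by exact_mod_cast h3
            have h5 := Nat.le_of_dvd (by norm_num) h4
            omega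
          · rcases hqi.dvd_or_dvd h3 with h4 | h4
            · exact ((h4.mul_right _).mul_right _).mul_right _
            · exact h4.mul_left _
        · rcases hqi.dvd_or_dvd h2 with h4 | h4
          · exact ((h4.mul_left _).mul_right _).mul_right _
          · exact h4.mul_left _
      · rcases hqi.dvd_or_dvd h1 with h4 | h4
        · exact (h4.mul_left _).mul_right _
        · exact h4.mul_left _) h0 hF he hy hk
  rw [← hm] at hcard
  calc (4 : ℝ) ^ _ ≤ (4 : ℝ) ^ ((z + 2) + e * k +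
        (t2 z y (ev (ft A B D) n m)).primeFactors.card) :=
        pow_le_pow_right₀ (by norm_num) (by omega)
    _ = _ := by
        rw [pow_add, pow_add, pow_mul]

end Pool.Agent.U214.UN
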