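import Mathlib
import Pool.Agent.U214.UN.RankT
import Pool.Agent.U214.UN.Main
import Pool.Agent.U214.UN.AntX

/-!
# The uniform summation, all degrees
-/

set_option autoImplicit false

namespace Pool.Agent.U214.UN

open Finset Polynomial Pool.Agent.W262.RK Pool.Agent.U214.PT Pool.Agent.U214.GT Pool.Agent.U214.RM
open Pool.Agent.W307.RT (S1 S2 Gd)
open Pool.Agent.W591.RK2 (mem_Tup')
open Pool.Agent.H474R2.PG (rho)

variable {A B D : ℤ[X]} {d z : ℕ}

/-- **the uniform summation** -/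
theorem sum_RGT {r : ℕ} {e : ℝ} {z1 : ℕ} {C0 : ℝ} (hW : WtJ A B D d z1 C0) (hE : Ex A B D r e)
    (hn : ft A B D ≠ 0) (hlc : ∀ p : ℕ, p.Prime → z1 < p → ¬ (p : ℤ) ∣ (ft A B D).leadingCoeff)
    (hdg : (ft A B D).natDegree ≤ d) {E : ℝ} (hE1 : 1 ≤ E) (N : ℕ → ℕ) (hN : ∀ X, N X ≠ 0)
    (U : ℕ → ℤ) (T : ℕ → Finset (ℕ × ℤ))
    (hTN : ∀ X, ∀ ω ∈ T X, ω.1 = N X ∧ U X + 1 ≤ ω.2 ∧ ω.2 ≤ U X + X)
    (hT0 : ∀ X, ∀ ω ∈ T X, ev (ft A B D) ω.1 ω.2 ≠ 0)
    (hTc : ∀ X, ∀ ω ∈ T X, Cp A B D z1 ω.1 ω.2) (R : ℕ × ℤ → ℝ) (hR0 : ∀ ω, 0 ≤ R ω)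
    {z2 y2 : ℕ} (hR : ∀ z, z2 ≤ z → ∃ A' : ℝ, 0 ≤ A' ∧ ∀ X y k : ℕ, ∀ ω ∈ T X, y2 ≤ y →
      y ≤ X → X < (y + 1) ^ k →
      R ω ≤ A' * E ^ k * ((4 : ℝ) ^ r) ^ (t2 z y (ev (ft A B D) ω.1 ω.2)).primeFactors.card *
        (NL (∏ j, S1 z y (vu A B D ω.1 ω.2) j)
          (LLc (cJ A B D) (kT A B D ω.1) (S1 z y (vu A B D ω.1 ω.2)) (cT A B D ω.1 ω.2)) : ℝ) ^ r) :
    ∃ C : ℝ, ∀ X : ℕ, 1 ≤ X →
      ∑ ω ∈ T X, R ω ≤ C * (wd d (N X) * X * (1 + Real.log X) ^ e) := by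
  classical
  obtain ⟨z0, hz0⟩ := ma_GU hW hE hn
  obtain ⟨z, hz⟩ : ∃ z, z = z0 + z1 + z2 + 2 := ⟨_, rfl⟩
  have hz2 : 2 ≤ z := by omega
  have Hz := hW.w1.mono (show z1 ≤ z by omega)
  have hfz : Pg (ft A B D) d z := Pg.mono hW.pg (by omega)
  have hd1 := hW.d1
  have hdr : (1 : ℝ) ≤ d := by exact_mod_cast hd1
  obtain ⟨C', hC'⟩ := hz0 z (by omega) (by omega)
  obtain ⟨C1', hC1', hP'⟩ := hW.sv z (by omega)
  obtain ⟨K, y0, hK1, hcn⟩ := cntqU d (nf (ft A B D))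
  obtain ⟨A', hA0, hA⟩ := hR z (by omega)
  obtain ⟨Q, hQ⟩ : ∃ Q : ℝ, Q = (4 : ℝ) ^ r * d := ⟨_, rfl⟩
  obtain ⟨C, hCd⟩ : ∃ C : ℝ, C = 4 * C1' + 1 := ⟨_, rfl⟩
  have hC0 : 0 ≤ C := by rw [hCd]; positivity
  have hQ0 : 0 ≤ Q := by rw [hQ]; positivity
  have hlogE : 0 ≤ Real.log E := Real.log_nonneg hE1
  have hkn : ∀ n p : ℕ, p.Prime → z < p → ∀ j, ∀ θ ∈ ZT A B D j p, ∀ i,
      ¬ (p : ℤ) ∣ kT A B D n j θ i := fun n p hp hzp j θ hθ k => kT_nd hfz n hp hzp j hθ k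
  have hCp : ∀ X, ∀ ω ∈ T X, Cp A B D z ω.1 ω.2 := fun X ω hω p hp hzp h =>
    hTc X ω hω p hp (by omega) h
  obtain ⟨E', hE'0, hE'⟩ := bracketW Hz hQ0 (JJ A B D) (16 * (Real.log E + 1)) hz2 (by linarith)
  have hant := antX (J := JJ A B D) (Ω := ℕ × ℤ) Hz Pool.Agent.W358.RK2.gr
    (f := fun ω => vu A B D ω.1 ω.2)
    (T := T)
    (S := fun X => wd d (N X) * (X : ℝ))
    (G := fun X _ s => NBS r (cJ A B D) (ZT A B D) (kT A B D (N X)) s) (R := R)
    (C := C * A') (D := E) (A1 := E' * |C'|) (Q := Q) (κ := e)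
    (K := K) (y0 := y0 + y2 + 3) (Me := nf (ft A B D)) hz2 (fun X hX => by
      have h1 : (1 : ℝ) ≤ X := by exact_mod_cast hX
      have h2 := one_le_wd d (N X)
      calc (1 : ℝ) = 1 * 1 := (one_mul 1).symm
        _ ≤ wd d (N X) * X := mul_le_mul h2 h1 zero_le_one (by linarith))
    (fun X ω hω => gdU hfz (hCp X ω hω) (hT0 X ω hω))
    (fun X y s => NBS_nonneg r _ _ _ s) hR0 (by positivity)
    hE1 hK1 hQ0 hE.nn (fun X y hy => ?_) ?_
  · exact hant
  · have hy3 : 3 ≤ y := by omega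
    have hl1 := log3 hy3
    have hδ : 0 ≤ 16 * (Real.log E + 1) / Real.log y := div_nonneg (by linarith) (by linarith)
    have hm := main_ineqW Hz hQ0 (JJ A B D) y (NBS r (cJ A B D) (ZT A B D) (kT A B D (N X)))
      (16 * (Real.log E + 1) / Real.log y) hδ (NBS_nonneg r _ _ _)
      (fun s e hse => by
        rw [hQ]
        exact subb_s Pool.Agent.W125.RK2.sub4 Pool.Agent.W342.RK2.xcl r (cJ A B D) (ZT A B D)
          (kT A B D (N X)) d z y hz2 hd1 (hkn (N X)) (fun p hp hzp j => by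
            rw [ZT_card]
            exact ZJ_card hfz hp hzp j) s e hse)
    refine hm.trans ?_
    have hn0 : 0 ≤ ∑ s ∈ Tup (JJ A B D) z y, NBS r (cJ A B D) (ZT A B D) (kT A B D (N X)) s *
        ∏ j, gh (h0 (ft A B D)) (s j) := by
      refine sum_nonneg fun s hs => mul_nonneg (NBS_nonneg r _ _ _ s) (prod_nonneg fun j _ => ?_)
      exact gh_nn Hz hs j
    have h1 : ∑ s ∈ Tup (JJ A B D) z y, NBS r (cJ A B D) (ZT A B D) (kT A B D (N X)) s *
        ∏ j, gh (h0 (ft A B D)) (s j) ≤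
        |C'| * ((1 + Real.log y) ^ e * (Real.log y) ^ (nf (ft A B D))) := by
      refine (hC' (N X) y hy).trans ?_
      rw [Real.rpow_add (by linarith), Real.rpow_natCast]
      have h2 : (Real.log y) ^ e ≤ (1 + Real.log y) ^ e :=
        Real.rpow_le_rpow (by linarith) (by linarith) hE.nn
      have h3 : 0 ≤ (Real.log y) ^ (nf (ft A B D)) := by positivity
      have h4 : 0 ≤ (Real.log y) ^ e := Real.rpow_nonneg (by linarith) _
      calc C' * ((Real.log y) ^ (nf (ft A B D)) * (Real.log y) ^ e)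
          ≤ |C'| * ((Real.log y) ^ (nf (ft A B D)) * (Real.log y) ^ e) :=
            mul_le_mul_of_nonneg_right (le_abs_self _) (mul_nonneg h3 h4)
        _ ≤ |C'| * ((1 + Real.log y) ^ e * (Real.log y) ^ (nf (ft A B D))) := by
            apply mul_le_mul_of_nonneg_left _ (abs_nonneg _)
            rw [mul_comm]
            exact mul_le_mul_of_nonneg_right h2 h3
    calc _ ≤ E' * ∑ s ∈ Tup (JJ A B D) z y, NBS r (cJ A B D) (ZT A B D) (kT A B D (N X)) s *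
          ∏ j, gh (h0 (ft A B D)) (s j) := mul_le_mul_of_nonneg_right (hE' y hy) hn0
      _ ≤ E' * (|C'| * ((1 + Real.log y) ^ e * (Real.log y) ^ (nf (ft A B D)))) :=
          mul_le_mul_of_nonneg_left h1 hE'0
      _ = _ := by ring
  intro X y Y k hy0 hzy hyK hk s hs v hv u hu h8 T' hT' hT2
  have hyX : y ≤ X := le_trans (Nat.le_self_pow (by omega) y) hyK
  have hX1 : 1 ≤ X := by omega
  have hy3 : 3 ≤ y := by omega
  obtain ⟨s', hs'd⟩ : ∃ s', s' = ∏ j, s j := ⟨_, rfl⟩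
  obtain ⟨v', hv'd⟩ : ∃ v', v' = ∏ j, v j := ⟨_, rfl⟩
  obtain ⟨u', hu'd⟩ : ∃ u', u' = ∏ j, u j := ⟨_, rfl⟩
  have hs' : s' ∈ (PP z y).divisors := by rw [hs'd]; exact prod_dv hs
  have hv' : v' ∈ (PP z y).divisors := by rw [hv'd]; exact prod_dv hv
  have hu' : u' ∈ (PP y Y).divisors := by rw [hu'd]; exact prod_dv hu
  have h8' : (s' * v' * u') ^ 8 ≤ X := by
    rw [hs'd, hv'd, hu'd, ← prod_mul_distrib, ← prod_mul_distrib]
    exact h8
  have hPs : Ps s = s'.primeFactors := by rw [hs'd]; rfl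
  have hgs0 : 0 ≤ gh (h0 (ft A B D)) s' := ghn Hz (Nat.dvd_of_mem_divisors hs')
  have hgv0 : 0 ≤ gh (h0 (ft A B D)) v' := ghn Hz (Nat.dvd_of_mem_divisors hv')
  have hNB0 := NBS_nonneg r (cJ A B D) (ZT A B D) (kT A B D (N X)) s
  have hly : 0 ≤ Real.log y := Real.log_natCast_nonneg y
  have hwd1 := one_le_wd d (N X)
  have eS : gh (h0 (ft A B D)) s' = ∏ j, gh (h0 (ft A B D)) (s j) := by
    rw [hs'd]; exact gh_T hs _
  have eV : Q ^ v'.primeFactors.card * (gh (h0 (ft A B D)) v' / v') =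
      ∏ j, Q ^ (v j).primeFactors.card * (gh (h0 (ft A B D)) (v j) / v j) := by
    rw [hv'd, gh_T hv, pow_T hv, Nat.cast_prod, ← prod_div_distrib, ← prod_mul_distrib]
  have eU : (2 * (d : ℝ)) ^ u'.primeFactors.card / u' =
      ∏ j, (2 * (d : ℝ)) ^ (u j).primeFactors.card / (u j : ℝ) := by
    rw [hu'd, pow_T hu, Nat.cast_prod, ← prod_div_distrib]
  rw [← eV, ← eS, ← eU]
  -- the empty case
  rcases T'.eq_empty_or_nonempty with hTe | ⟨ω0, hω0⟩
  · rw [hTe, sum_empty]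
    positivity
  have hgd : ∀ ω ∈ T', ev (ft A B D) ω.1 ω.2 ≠ 0 ∧ ω.1 = N X ∧ U X + 1 ≤ ω.2 ∧ ω.2 ≤ U X + X ∧
      t1 z y (ev (ft A B D) ω.1 ω.2) = s' ∧ t2 z y (ev (ft A B D) ω.1 ω.2) = v' ∧
      (u' : ℤ) ∣ ev (ft A B D) ω.1 ω.2 := by
    intro ω hω
    have hω' := hT' hω
    have hc := hCp X ω hω'
    have h0 := hT0 X ω hω'
    obtain ⟨h1, h2, h3⟩ := hTN X ω hω'
    obtain ⟨hts, htv, htu⟩ := hT2 ω hω
    refine ⟨h0, h1, h2, h3, ?_, ?_, ?_⟩
    · rw [← prod_S1U hfz hc h0, hts, hs'd]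
    · rw [← prod_S2U hfz hc h0, htv, hv'd]
    · rw [hu'd, Nat.cast_prod]
      refine Finset.prod_dvd_of_coprime ?_ fun j _ => ?_
      · intro i _ j _ hij
        exact Nat.isCoprime_iff_coprime.2 (Tup_cop hu i j hij)
      · refine (htu j).trans ?_
        rw [ft_ev A B D ω.1 ω.2 j.1]
        exact Dvd.intro _ rfl
  -- the primes dividing the values do not divide the denominator
  have hsn : ∀ p : ℕ, p.Prime → z < p → (p ∣ s' ∨ p ∣ v') → ¬ p ∣ N X := by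
    intro p hp hzp hpd
    obtain ⟨-, h1, -, -, h4, h5, -⟩ := hgd ω0 hω0
    have h6 : (p : ℤ) ∣ ev (ft A B D) ω0.1 ω0.2 := by
      rcases hpd with h | h
      · rw [← h4] at h
        exact ((dvd_t1 hp).1 h).2.1
      · rw [← h5] at h
        exact (dvd_pow_self (p : ℤ) two_ne_zero).trans ((dvd_t2 hp).1 h).2
    have h7 := hCp X ω0 (hT' hω0) p hp hzp h6
    rwa [h1] at h7
  obtain ⟨g, hg⟩ : ∃ g : (∀ p ∈ Ps s, Bool × ℕ) → ℝ,
    g = fun c => (NL (∏ j, s j) (LLc (cJ A B D) (kT A B D (N X)) s (xt (Ps s) c)) : ℝ) ^ r := ⟨_, rfl⟩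
  have hg0 : ∀ c, 0 ≤ g c := fun c => by rw [hg]; exact pow_nonneg (Nat.cast_nonneg _) _
  obtain ⟨cc, hcc⟩ : ∃ cc : ℕ × ℤ → (∀ p ∈ Ps s, Bool × ℕ),
    cc = fun ω p _ => cT A B D ω.1 ω.2 p := ⟨_, rfl⟩
  have hsj : ∀ ω ∈ T', ∀ (p : ℕ) (j : JJ A B D), p.Prime → p ∣ s j →
      (p : ℤ) ∣ ev (fj A B D j.1) ω.1 ω.2 := by
    intro ω hω p j hp hpj
    have h1 := (hT2 ω hω).1
    rw [← h1] at hpj
    unfold S1 at hpj
    obtain ⟨q, hq, hpq⟩ := (hp.prime.dvd_finsetProd_iff _).1 hpj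
    rw [mem_filter] at hq
    rw [(Nat.prime_dvd_prime_iff_eq hp (mem_PS.1 hq.1).2).1 hpq]
    exact hq.2.1
  have hxt : ∀ ω, ∀ p ∈ Ps s, xt (Ps s) (cc ω) p = cT A B D ω.1 ω.2 p := by
    intro ω p hp
    unfold xt
    rw [dif_pos hp, hcc]
  have h1 : ∀ ω ∈ T', R ω ≤ A' * E ^ k * ((4 : ℝ) ^ r) ^ v'.primeFactors.card * g (cc ω) := by
    intro ω hω
    obtain ⟨h0t, -, -, -, ht1, ht2, _⟩ := hgd ω hω
    have h2 := hA X y k ω (hT' hω) (by omega) hyX hk
    rw [ht2, (hT2 ω hω).1] at h2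
    refine h2.trans (le_of_eq ?_)
    rw [hg]
    simp only
    congr 3
    apply Pool.Agent.W125.RK2.NL_congr
    intro p hp
    funext v w h g
    unfold LLc
    rw [hxt ω p hp, (hgd ω hω).2.1]
  have hzs : ∀ p : ℕ, p.Prime → p ∣ s' → z < p := fun p hp h => (dv_prime hs' hp h).1
  have hmaps : ∀ ω ∈ T', cc ω ∈ (Ps s).pi (Cf (ZT A B D) s) := by
    intro ω hω
    rw [mem_pi]
    intro p hp
    have hpp := Nat.prime_of_mem_primeFactors hp
    obtain ⟨j, _, hj⟩ := (hpp.prime.dvd_finsetProd_iff _).1 (Nat.dvd_of_mem_primeFactors hp)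
    have hps : p ∣ s' := by rw [hs'd]; exact Nat.dvd_of_mem_primeFactors hp
    have hpn : ¬ p ∣ ω.1 := by
      rw [(hgd ω hω).2.1]
      exact hsn p hpp (hzs p hpp hps) (Or.inl hps)
    rw [hcc]
    unfold Cf
    rw [mem_product, Zs_eq (Tup_cop hs) _ hpp hj]
    refine ⟨mem_univ _, ?_⟩
    unfold ZT ZJ cT
    refine mem_image_of_mem _ ?_
    rw [mem_filter, mem_range]
    exact ⟨th_lt hpp hpn _, (dvd_ev hpp hpn _ _).1 (hsj ω hω p j hpp hj)⟩
  have h2 : ∑ ω ∈ T', g (cc ω) = ∑ c ∈ (Ps s).pi (Cf (ZT A B D) s),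
        ((T'.filter (fun ω => cc ω = c)).card : ℝ) * g c := by
    rw [← sum_fiberwise_of_maps_to hmaps]
    refine sum_congr rfl fun c _ => ?_
    rw [← nsmul_eq_mul, ← sum_const]
    refine sum_congr rfl fun ω hω => ?_
    rw [(mem_filter.1 hω).2]
  -- the polynomial in the variable `t`
  obtain ⟨F, hF⟩ : ∃ F, F = pu (ft A B D) (N X) (U X) := ⟨_, rfl⟩
  have hρF : ∀ p : ℕ, p.Prime → z < p → rho F p ≤ d := by
    intro p hp hzp
    rw [hF]
    refine (rho_le_deg hp _ ?_).trans ?_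
    · rw [lc_pu]
      exact hlc p hp (by omega)
    · rw [nd_pu]
      exact hdg
  have hprF : ∏ p ∈ PS z y, (1 - (rho F p : ℝ) / p) ≤
      C1' * wd d (N X) / (Real.log y) ^ (nf (ft A B D)) := by
    have h3 := prod_w (U X) hfz.zd (hN X) hfz.rho (by rw [← hF]; exact hρF) y
    rw [← hF] at h3
    refine h3.trans ((mul_le_mul_of_nonneg_left (hP' y hy3 hzy) (by linarith)).trans (le_of_eq ?_))
    ring
  have hghs : gh (h0 F) s' = gh (h0 (ft A B D)) s' := by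
    unfold gh h0
    refine prod_congr rfl fun p hp => ?_
    have hpp := Nat.prime_of_mem_primeFactors hp
    have hpd := Nat.dvd_of_mem_primeFactors hp
    rw [hF, rho_pu hpp (hsn p hpp (hzs p hpp hpd) (Or.inl hpd))]
  have hghv : gh (h0 F) v' = gh (h0 (ft A B D)) v' := by
    unfold gh h0
    refine prod_congr rfl fun p hp => ?_
    have hpp := Nat.prime_of_mem_primeFactors hp
    have hpd := Nat.dvd_of_mem_primeFactors hp
    rw [hF, rho_pu hpp (hsn p hpp (dv_prime hv' hpp hpd).1 (Or.inr hpd))]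
  obtain ⟨W, hW'⟩ : ∃ W : ℝ, W = C * (wd d (N X) * X) * (1 / 2) ^ s'.primeFactors.card *
        gh (h0 (ft A B D)) s' *
        ((d : ℝ) ^ v'.primeFactors.card * (gh (h0 (ft A B D)) v' / v')) *
          ((d : ℝ) ^ u'.primeFactors.card / u') / (Real.log y) ^ (nf (ft A B D)) := ⟨_, rfl⟩
  have h3 : ∀ c ∈ (Ps s).pi (Cf (ZT A B D) s),
      ((T'.filter (fun ω => cc ω = c)).card : ℝ) * g c ≤ W * g c := by
    intro c _
    refine mul_le_mul_of_nonneg_right ?_ (hg0 c)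
    obtain ⟨Tn, hTn⟩ : ∃ Tn : Finset ℕ, Tn =
      (T'.filter (fun ω => cc ω = c)).image (fun ω => (ω.2 - U X).toNat) := ⟨_, rfl⟩
    have hcard : (T'.filter (fun ω => cc ω = c)).card = Tn.card := by
      rw [hTn, card_image_of_injOn]
      intro ω hω ω' hω' h
      have h5 := hgd ω (mem_filter.1 (Finset.mem_coe.1 hω)).1
      have h6 := hgd ω' (mem_filter.1 (Finset.mem_coe.1 hω')).1
      simp only at h
      apply Prod.ext
      · rw [h5.2.1, h6.2.1]
      · have h7 := h5.2.2.1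
        have h8 := h6.2.2.1
        omega
    have hTn' : ∀ t ∈ Tn, ∃ ω ∈ T', cc ω = c ∧ (t : ℤ) + U X = ω.2 ∧ 1 ≤ t ∧ t ≤ X := by
      intro t ht
      rw [hTn, mem_image] at ht
      obtain ⟨ω, hω, rfl⟩ := ht
      rw [mem_filter] at hω
      have h5 := hgd ω hω.1
      have h7 := h5.2.2.1
      have h8 := h5.2.2.2.1
      refine ⟨ω, hω.1, hω.2, ?_, ?_, ?_⟩ <;> omega
    have h4 := hcn F z hfz.zd hρF (C1' * wd d (N X)) (mul_nonneg hC1' (by linarith)) X y Y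
      (by omega) hzy hprF hyK s' hs' v' hv' u' hu' h8'
      (s'.primeFactors.filter (fun p => (xt (Ps s) c p).1 = true))
      (fun p => ((((xt (Ps s) c p).2 : ℤ) * N X - U X) % (p : ℤ)).toNat) Tn
      (by
        intro t ht
        obtain ⟨ω, _, _, _, h5, h6⟩ := hTn' t ht
        exact mem_Icc.2 ⟨h5, h6⟩)
      (by
        intro t ht
        obtain ⟨ω, hω, hωc, hωt, _, _⟩ := hTn' t ht
        obtain ⟨h0t, hωN, -, -, ht1, ht2, htu⟩ := hgd ω hω
        have hev : F.eval (t : ℤ) = ev (ft A B D) ω.1 ω.2 := by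
          rw [hF, pu_eval, hωt, hωN]
        refine ⟨?_, ⟨?_, ?_, ?_⟩, ?_, ?_⟩
        · intro p hp hzp hpd
          rw [hev] at hpd
          have hpn := hCp X ω (hT' hω) p hp hzp hpd
          rw [hF, pu_der, hωt, ← hωN]
          exact der_nd hp hpn _ _ (hfz.der p hp hzp _ ((dvd_ev hp hpn _ _).1 hpd))
        · rw [hev, ht1]
        · rw [hev, ht2]
        · rw [hev]
          exact htu
        · rw [hev]
          unfold ngs
          refine filter_congr fun p hp => ?_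
          rw [← hPs] at hp
          rw [← hωc, hxt ω p hp]
          unfold cT
          simp only [decide_eq_true_eq]
        · intro p hp
          have hpp := Nat.prime_of_mem_primeFactors hp
          have hpd := Nat.dvd_of_mem_primeFactors hp
          have hpn := hsn p hpp (hzs p hpp hpd) (Or.inl hpd)
          have hp' := hp
          rw [← hPs] at hp'
          rw [← hωc, hxt ω p hp']
          unfold cT
          simp only
          haveI : Fact p.Prime := ⟨hpp⟩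
          have hpos : (0 : ℤ) < p := by exact_mod_cast hpp.pos
          have h5 : ((t : ℤ) : ZMod p) =
              ((((p ^ 2 + th p ω.1 ω.2 : ℕ) : ℤ) * (N X : ℤ) - U X : ℤ) : ZMod p) := by
            have h6 := th_cast hpp (n := ω.1) (by rw [hωN]; exact hpn) ω.2
            have h7 : (ω.2 : ZMod p) = (t : ZMod p) + (U X : ZMod p) := by
              rw [← hωt]
              push_cast
              rfl
            push_cast
            rw [ZMod.natCast_self, zero_pow two_ne_zero, zero_add, h6, ← hωN, mul_assoc, inv_mul_cancel₀ (nz hpp (by rw [hωN]; exact hpn)), mul_one,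
              h7, add_sub_cancel_right]
          have h6 := (ZMod.intCast_eq_intCast_iff' _ _ _).1 h5
          rw [← h6]
          omega)
    rw [hcard, hW']
    refine h4.trans ?_
    rw [hghs, hghv]
    apply div_le_div_of_nonneg_right _ (by positivity)
    have h9 : (4 * (C1' * wd d (N X)) + 1) * X ≤ C * (wd d (N X) * X) := by
      have h10 : (4 * (C1' * wd d (N X)) + 1) ≤ C * wd d (N X) := by
        rw [hCd]
        linarith
      calc (4 * (C1' * wd d (N X)) + 1) * X ≤ (C * wd d (N X)) * X :=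
            mul_le_mul_of_nonneg_right h10 (Nat.cast_nonneg X)
        _ = _ := by ring
    gcongr
  have hNB : NBS r (cJ A B D) (ZT A B D) (kT A B D (N X)) s = (1 / 2) ^ s'.primeFactors.card *
      ∑ c ∈ (Ps s).pi (Cf (ZT A B D) s), g c := by
    unfold NBS
    rw [hg, hPs]
  have hd2 : (d : ℝ) ^ u'.primeFactors.card / u' ≤ (2 * (d : ℝ)) ^ u'.primeFactors.card / u' := by
    apply div_le_div_of_nonneg_right _ (Nat.cast_nonneg _)
    apply pow_le_pow_left₀ (Nat.cast_nonneg _)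
    linarith
  calc ∑ ω ∈ T', R ω ≤ ∑ ω ∈ T', A' * E ^ k * ((4 : ℝ) ^ r) ^ v'.primeFactors.card *
          g (cc ω) := sum_le_sum h1
    _ = A' * E ^ k * ((4 : ℝ) ^ r) ^ v'.primeFactors.card *
        ∑ c ∈ (Ps s).pi (Cf (ZT A B D) s),
        ((T'.filter (fun ω => cc ω = c)).card : ℝ) * g c := by
        rw [← mul_sum, h2]
    _ ≤ A' * E ^ k * ((4 : ℝ) ^ r) ^ v'.primeFactors.card *
        ∑ c ∈ (Ps s).pi (Cf (ZT A B D) s), W * g c :=
        mul_le_mul_of_nonneg_left (sum_le_sum h3) (by positivity)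
    _ = C * A' * E ^ k * (wd d (N X) * X) * (NBS r (cJ A B D) (ZT A B D) (kT A B D (N X)) s *
          gh (h0 (ft A B D)) s') *
          ((((4 : ℝ) ^ r) ^ v'.primeFactors.card * (d : ℝ) ^ v'.primeFactors.card) *
            (gh (h0 (ft A B D)) v' / v')) *
          ((d : ℝ) ^ u'.primeFactors.card / u') / (Real.log y) ^ (nf (ft A B D)) := by
        rw [← mul_sum, hNB, hW']
        ring
    _ ≤ C * A' * E ^ k * (wd d (N X) * X) * (NBS r (cJ A B D) (ZT A B D) (kT A B D (N X)) s *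
          gh (h0 (ft A B D)) s') *
          ((((4 : ℝ) ^ r) ^ v'.primeFactors.card * (d : ℝ) ^ v'.primeFactors.card) *
            (gh (h0 (ft A B D)) v' / v')) *
          ((2 * (d : ℝ)) ^ u'.primeFactors.card / u') / (Real.log y) ^ (nf (ft A B D)) := by
        apply div_le_div_of_nonneg_right _ (by positivity)
        apply mul_le_mul_of_nonneg_left hd2 (by positivity)
    _ = _ := by
        rw [← mul_pow, ← hQ]

end Pool.Agent.U214.UN
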