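import Mathlib
import Pool.Agent.U214.UN.MainT
import Pool.Agent.U214.UN.Fam

/-!
# The uniform moments, all degrees: assembly
-/

set_option autoImplicit false

namespace Pool.Agent.U214.UN

open Finset Polynomial Pool.Agent.W262.RK Pool.Agent.U214.PT Pool.Agent.U214.GT
open UniqueFactorizationMonoid
open Pool.Agent.W307.RT (S1 S2 Gd)
open Pool.Agent.H474R2.PG (rho)

variable {A B D : ℤ[X]} {d z n : ℕ} {m : ℤ}

lemma adT_one (A B : ℤ[X]) : AdT A B 1 where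
  sub := fun m => by rw [ev_one, ev_one, ev_one, eval_sub]

lemma ev_eq_sum {f : ℤ[X]} {a : ℕ} (h : f.natDegree = a) (n : ℕ) (m : ℤ) :
    ev f n m = ∑ i ∈ range (a + 1), f.coeff i * (n : ℤ) ^ (a - i) * m ^ i := by
  unfold ev
  rw [eval_eq_sum_range, natDegree_scaleRoots, h]
  refine sum_congr rfl fun i _ => ?_
  rw [coeff_scaleRoots, h]

lemma adT_deg {A B : ℤ[X]} (h1 : B.natDegree = A.natDegree)
    (h2 : (A - B).natDegree = A.natDegree) (n : ℕ) : AdT A B n where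
  sub := fun m => by
    rw [ev_eq_sum h2, ev_eq_sum rfl, ev_eq_sum h1, ← sum_sub_distrib]
    refine sum_congr rfl fun i _ => ?_
    rw [coeff_sub]
    ring

/-- the moments away from the zeros, uniformly -/
theorem coreT {Q : ℤ → ℤ → ℝ} (hQ : QL Q) (hs : Sep (ft A B D))
    (hd : 0 < (ft A B D).natDegree) {r : ℕ} {e : ℝ} (hE : Ex A B D r e) (K : ℕ) :
    ∃ C : ℝ, ∀ X n : ℕ, ∀ u : ℤ, 1 ≤ X → 1 ≤ n → n ≤ X ^ K → u.natAbs ≤ X ^ K → AdT A B n →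
      ∑ m ∈ Pt (ft A B D) n u X, Q (ev A n m * ev D n m) (ev B n m * ev D n m) ^ r ≤
        C * (wd (ft A B D).natDegree n * X * (1 + Real.log X) ^ e) := by
  classical
  obtain ⟨z0, C0, hW0⟩ := wtJ_of hs hd
  have hn : ft A B D ≠ 0 := fun h => by
    rw [h, natDegree_zero] at hd
    exact absurd hd (lt_irrefl 0)
  obtain ⟨z1, hz1⟩ : ∃ z1, z1 = z0 + (ft A B D).leadingCoeff.natAbs := ⟨_, rfl⟩
  have hW := WtJ.mono hW0 (show z0 ≤ z1 by omega)
  have hlc : ∀ p : ℕ, p.Prime → z1 < p → ¬ (p : ℤ) ∣ (ft A B D).leadingCoeff := by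
    intro p hp hz h
    have h1 := Nat.le_of_dvd (Int.natAbs_pos.2 (leadingCoeff_ne_zero.2 hn)) (Int.natCast_dvd.1 h)
    omega
  obtain ⟨L, hL⟩ := ev_bound (ft A B D)
  obtain ⟨d, hdd⟩ : ∃ d, d = (ft A B D).natDegree := ⟨_, rfl⟩
  rw [← hdd] at hW hL hd ⊢
  obtain ⟨R, hR⟩ : ∃ R : ℕ × ℤ → ℝ, R = fun ω : ℕ × ℤ =>
    Q (ev A ω.1 ω.2 * ev D ω.1 ω.2) (ev B ω.1 ω.2 * ev D ω.1 ω.2) ^ r := ⟨_, rfl⟩
  have hR0 : ∀ ω, 0 ≤ R ω := fun ω => by
    rw [hR]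
    exact pow_nonneg (hQ.nn _ _) _
  -- the worst case
  obtain ⟨S, hS⟩ : ∃ S : ℕ → ℕ × ℤ → ℝ, S = fun X ω =>
    ∑ m ∈ Pt (ft A B D) ω.1 ω.2 X, R (ω.1, m) := ⟨_, rfl⟩
  have hwc : ∀ X : ℕ, ∃ ω : ℕ × ℤ, ω.1 ≠ 0 ∧ (1 ≤ X → ω.1 ≤ X ^ K ∧ ω.2.natAbs ≤ X ^ K ∧
      AdT A B ω.1 ∧ ∀ ω' : ℕ × ℤ, 1 ≤ ω'.1 → ω'.1 ≤ X ^ K → ω'.2.natAbs ≤ X ^ K →
        AdT A B ω'.1 → S X ω' / wd d ω'.1 ≤ S X ω / wd d ω.1) := by
    intro X
    by_cases hX : 1 ≤ X
    swap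
    · exact ⟨(1, 0), one_ne_zero, fun h => absurd h hX⟩
    obtain ⟨F, hF⟩ : ∃ F : Finset (ℕ × ℤ), F = ((Icc 1 (X ^ K)) ×ˢ
      (Icc (-((X ^ K : ℕ) : ℤ)) ((X ^ K : ℕ) : ℤ))).filter (fun ω => AdT A B ω.1) := ⟨_, rfl⟩
    have h1K : 1 ≤ X ^ K := Nat.one_le_pow _ _ hX
    have hne : F.Nonempty := by
      refine ⟨(1, 0), ?_⟩
      rw [hF, mem_filter, mem_product, mem_Icc, mem_Icc]
      refine ⟨⟨⟨le_rfl, h1K⟩, ?_, ?_⟩, adT_one A B⟩
      · show -((X ^ K : ℕ) : ℤ) ≤ 0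
        omega
      · show (0 : ℤ) ≤ ((X ^ K : ℕ) : ℤ)
        omega
    obtain ⟨ω, hω, hmax⟩ := exists_max_image F (fun ω => S X ω / wd d ω.1) hne
    rw [hF, mem_filter, mem_product, mem_Icc, mem_Icc] at hω
    refine ⟨ω, by omega, fun _ => ⟨hω.1.1.2, by omega, hω.2, fun ω' h1 h2 h3 h4 => ?_⟩⟩
    refine hmax ω' ?_
    rw [hF, mem_filter, mem_product, mem_Icc, mem_Icc]
    exact ⟨⟨⟨h1, h2⟩, by omega, by omega⟩, h4⟩
  choose W hW0 hW1 using hwc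
  obtain ⟨T, hT⟩ : ∃ T : ℕ → Finset (ℕ × ℤ), T = fun X => if 1 ≤ X then
    (Pt (ft A B D) (W X).1 (W X).2 X).image (fun m => ((W X).1, m)) else ∅ := ⟨_, rfl⟩
  have hTm : ∀ X, ∀ ω ∈ T X, 1 ≤ X ∧ ω.1 = (W X).1 ∧ ω.2 ∈ Pt (ft A B D) (W X).1 (W X).2 X := by
    intro X ω hω
    rw [hT] at hω
    simp only at hω
    split_ifs at hω with h1
    · obtain ⟨m, hm, rfl⟩ := mem_image.1 hω
      exact ⟨h1, rfl, hm⟩
    · simp at hω
  have hPt : ∀ X, ∀ ω ∈ T X, IsCoprime ω.2 (ω.1 : ℤ) ∧ ev (ft A B D) ω.1 ω.2 ≠ 0 ∧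
      (W X).2 + 1 ≤ ω.2 ∧ ω.2 ≤ (W X).2 + X := by
    intro X ω hω
    obtain ⟨_, h1, h2⟩ := hTm X ω hω
    unfold Pt at h2
    rw [mem_filter, mem_Ioc] at h2
    rw [h1]
    exact ⟨h2.2.1, h2.2.2, by omega, h2.1.2⟩
  obtain ⟨e0, he0⟩ : ∃ e0, e0 = (K + 2) * d + 1 := ⟨_, rfl⟩
  obtain ⟨C, hC⟩ := sum_RGT (E := ((4 : ℝ) ^ e0) ^ r) hW hE hn hlc (by rw [hdd])
    (one_le_pow₀ (one_le_pow₀ (by norm_num))) (fun X => (W X).1) hW0 (fun X => (W X).2) T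
    (fun X ω hω => ⟨(hTm X ω hω).2.1, (hPt X ω hω).2.2⟩)
    (fun X ω hω => (hPt X ω hω).2.1) (fun X ω hω => cp_of hlc (hPt X ω hω).1) R hR0 (z2 := z1)
    (y2 := L + 2) (fun z hz => by
      refine ⟨((4 : ℝ) ^ (z + 2)) ^ r, by positivity, fun X y k ω hω hy2y hyX hk => ?_⟩
      obtain ⟨hX1, hω1, -⟩ := hTm X ω hω
      obtain ⟨hcop, h0, hlo, hhi⟩ := hPt X ω hω
      obtain ⟨hnK, huK, had, -⟩ := hW1 X hX1
      have hX2 : 2 ≤ X := by omega
      have hpow : X ^ K + X ≤ X ^ (K + 2) := by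
        have h1K : 1 ≤ X ^ K := Nat.one_le_pow _ _ hX1
        calc X ^ K + X ≤ X ^ K * X + X ^ K * X := by nlinarith
          _ = X ^ K * X * 2 := by ring
          _ ≤ X ^ K * X * X := Nat.mul_le_mul_left _ hX2
          _ = X ^ (K + 2) := by ring
      have hF : (ev (ft A B D) ω.1 ω.2).natAbs ≤ X ^ e0 := by
        have h1 := hL ω.1 ω.2 (X ^ (K + 2)) (Nat.one_le_pow _ _ hX1)
          (by rw [hω1]; omega) (by omega)
        refine h1.trans ?_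
        calc L * (X ^ (K + 2)) ^ d ≤ X * (X ^ (K + 2)) ^ d := Nat.mul_le_mul_right _ (by omega)
          _ = X ^ e0 := by
              rw [he0]
              ring
      rw [← hω1] at had
      have h6 := rankGT hQ (Pg.mono hW.pg hz) had (fun p hp hzp => cp_of hlc hcop p hp (by omega))
        h0 hF (by omega) (by omega : 1 ≤ y) hk
      rw [hR]
      simp only
      refine (pow_le_pow_left₀ (hQ.nn _ _) h6 r).trans (le_of_eq ?_)
      rw [mul_pow, mul_pow, mul_pow, pow_right_comm _ k r,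
        pow_right_comm _ (t2 z y (ev (ft A B D) ω.1 ω.2)).primeFactors.card r])
  refine ⟨C, fun X n u hX hn1 hnK huK had => ?_⟩
  have h1 := hC X hX
  obtain ⟨-, -, -, hmax⟩ := hW1 X hX
  have h2 := hmax (n, u) hn1 hnK huK had
  have h3 : ∑ ω ∈ T X, R ω = S X (W X) := by
    rw [hT, hS]
    simp only
    rw [if_pos hX, sum_image]
    intro a _ b _ hab
    exact (Prod.ext_iff.1 hab).2
  rw [h3] at h1
  have hw1 := one_le_wd d (W X).1
  have hw2 := one_le_wd d n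
  have h4 : S X (W X) / wd d (W X).1 ≤ C * (X * (1 + Real.log X) ^ e) := by
    rw [div_le_iff₀ (by linarith)]
    refine h1.trans (le_of_eq ?_)
    ring
  have h5 := h2.trans h4
  rw [div_le_iff₀ (by linarith)] at h5
  have h6 : S X (n, u) = ∑ m ∈ Pt (ft A B D) n u X,
      Q (ev A n m * ev D n m) (ev B n m * ev D n m) ^ r := by
    rw [hS, hR]
  rw [← h6]
  refine h5.trans (le_of_eq ?_)
  ring

section

variable {Q : ℤ → ℤ → ℝ}

/-- the moments away from the zeros, uniformly, in general -/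
theorem coreT' (hQ : QL Q) (hs : Sep (ft A B D)) {r : ℕ} {e : ℝ} (hE : Ex A B D r e) (K : ℕ) :
    ∃ C : ℝ, ∀ X n : ℕ, ∀ u : ℤ, 1 ≤ X → 1 ≤ n → n ≤ X ^ K → u.natAbs ≤ X ^ K → AdT A B n →
      ∑ m ∈ Pt (ft A B D) n u X, Q (ev A n m * ev D n m) (ev B n m * ev D n m) ^ r ≤
        C * (wd (ft A B D).natDegree n * X * (1 + Real.log X) ^ e) := by
  rcases Nat.eq_zero_or_pos (ft A B D).natDegree with h | h
  swap
  · exact coreT hQ hs h hE K
  by_cases h0 : ft A B D = 0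
  · refine ⟨0, fun X n u hX _ _ _ _ => ?_⟩
    unfold Pt
    rw [filter_false_of_mem, sum_empty]
    · simp
    · rintro m _ ⟨_, h1⟩
      apply h1
      rw [h0, ← C_0, ev_C]
  have h1 : ∀ j, ∀ (n : ℕ) (m : ℤ), ev (fj A B D j) n m = (fj A B D j).coeff 0 := by
    intro j n m
    have h2 : (fj A B D j).natDegree = 0 := by
      rw [← fj_mul A B D j] at h h0
      rw [natDegree_mul (left_ne_zero_of_mul h0) (right_ne_zero_of_mul h0)] at h
      omega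
    exact ev_const h2 n m
  have hA := h1 0
  have hB := h1 1
  have hD := h1 3
  rw [fj0] at hA
  rw [fj1] at hB
  rw [fj3] at hD
  refine ⟨Q (A.coeff 0 * D.coeff 0) (B.coeff 0 * D.coeff 0) ^ r, fun X n u hX _ _ _ _ => ?_⟩
  simp only [hA, hB, hD]
  refine le_trans ?_ (le_WL (pow_nonneg (hQ.nn _ _) _) hE.nn (one_le_wd _ _) hX)
  rw [sum_const, nsmul_eq_mul, mul_comm]
  refine mul_le_mul_of_nonneg_left ?_ (pow_nonneg (hQ.nn _ _) _)
  exact_mod_cast card_Pt _ _ _ _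

/-- the twist by a polynomial which is `D` up to squares -/
theorem allT (hQ : QL Q) {A B D D' G : ℤ[X]} {c : ℤ} (hc : c ≠ 0)
    (hD : C (c ^ 2) * D' = G ^ 2 * D) (hs : Sep (ft A B D)) {r : ℕ} {e : ℝ}
    (hE : Ex A B D r e) (K : ℕ) :
    ∃ C : ℝ, ∀ X n : ℕ, ∀ u : ℤ, 1 ≤ X → 1 ≤ n → n ≤ X ^ K → u.natAbs ≤ X ^ K → AdT A B n →
      ∑ m ∈ Pt (ft A B D') n u X, Q (ev A n m * ev D' n m) (ev B n m * ev D' n m) ^ r ≤
        C * (wd (ft A B D).natDegree n * X * (1 + Real.log X) ^ e) := by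
  classical
  obtain ⟨C, hC⟩ := coreT' hQ hs hE K
  refine ⟨C, fun X n u hX hn1 hnK huK had => le_trans ?_ (hC X n u hX hn1 hnK huK had)⟩
  have hevD : ∀ m, c ^ 2 * ev D' n m = (ev G n m) ^ 2 * ev D n m := by
    intro m
    have := congrArg (fun f => ev f n m) hD
    simpa only [ev_mul, ev_C, ev_pow] using this
  have hpt : ∀ m ∈ Pt (ft A B D') n u X, m ∈ Pt (ft A B D) n u X ∧
      Q (ev A n m * ev D' n m) (ev B n m * ev D' n m) ^ r =
        Q (ev A n m * ev D n m) (ev B n m * ev D n m) ^ r := by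
    intro m hm
    unfold Pt at hm ⊢
    rw [mem_filter] at hm ⊢
    have h3 := hm.2.2
    have h0 := h3
    unfold ft at h3
    rw [ev_mul, ev_mul, ev_mul] at h3
    have hd' := right_ne_zero_of_mul h3
    have hab := right_ne_zero_of_mul (left_ne_zero_of_mul h3)
    have hb := right_ne_zero_of_mul (left_ne_zero_of_mul (left_ne_zero_of_mul h3))
    have ha := left_ne_zero_of_mul (left_ne_zero_of_mul (left_ne_zero_of_mul h3))
    rw [had.sub] at hab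
    have hprod : (ev G n m) ^ 2 * ev D n m ≠ 0 := by
      rw [← hevD m]
      exact mul_ne_zero (pow_ne_zero 2 hc) hd'
    have hd := right_ne_zero_of_mul hprod
    have hg : ev G n m ≠ 0 := fun h => hprod (by rw [h]; ring)
    refine ⟨⟨hm.1, hm.2.1, ?_⟩, ?_⟩
    · unfold ft
      rw [ev_mul, ev_mul, ev_mul, had.sub]
      exact mul_ne_zero (mul_ne_zero (mul_ne_zero ha hb) hab) hd
    have hne : ∀ x : ℤ, x ≠ 0 → ev A n m * x ≠ ev B n m * x := fun x hx h =>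
      hab (by rw [mul_right_cancel₀ hx h, sub_self])
    congr 1
    rw [← hQ.sq (mul_ne_zero ha hd') (mul_ne_zero hb hd') (hne _ hd') hc,
      ← hQ.sq (mul_ne_zero ha hd) (mul_ne_zero hb hd) (hne _ hd) hg,
      show c ^ 2 * (ev A n m * ev D' n m) =
        (ev G n m) ^ 2 * (ev A n m * ev D n m) by
          linear_combination ev A n m * hevD m,
      show c ^ 2 * (ev B n m * ev D' n m) =
        (ev G n m) ^ 2 * (ev B n m * ev D n m) by
          linear_combination ev B n m * hevD m]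
  calc ∑ m ∈ Pt (ft A B D') n u X, Q (ev A n m * ev D' n m) (ev B n m * ev D' n m) ^ r
      = ∑ m ∈ Pt (ft A B D') n u X, Q (ev A n m * ev D n m) (ev B n m * ev D n m) ^ r :=
        sum_congr rfl fun m hm => (hpt m hm).2
    _ ≤ _ := sum_le_sum_of_subset_of_nonneg (fun m hm => (hpt m hm).1)
        (fun m _ _ => pow_nonneg (hQ.nn _ _) _)

end

end Pool.Agent.U214.UN
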