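import Mathlib
import Pool.Agent.U214.UN.AsmT

/-!
# The average of the weights of the denominators
-/

set_option autoImplicit false

namespace Pool.Agent.U214.UN

open Finset Pool.Agent.W262.RK Pool.Agent.U214.PT Pool.Agent.U214.GT

/-- the size of the local factor -/
lemma wd_g {d p : ℕ} (h : 2 * d + 2 < p) : (p : ℝ) / ((p : ℝ) - d) ≤ 1 + 2 * d / p := by
  have h1 : (2 * d + 2 : ℝ) < p := by exact_mod_cast h
  have h0 : (0 : ℝ) ≤ d := Nat.cast_nonneg _
  have hp : (0 : ℝ) < p := by linarith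
  rw [div_le_iff₀ (by linarith)]
  have h2 : (1 + 2 * (d : ℝ) / p) * (p - d) = p + d * (1 - 2 * d / p) := by
    field_simp
    ring
  have h3 : 2 * (d : ℝ) / p ≤ 1 := by
    rw [div_le_one hp]
    linarith
  rw [h2]
  nlinarith

lemma wd_le_pow (d n : ℕ) : wd d n ≤
    ∑ s ∈ (n.primeFactors.filter (fun p => 2 * d + 2 < p)).powerset, ∏ p ∈ s, (2 * (d : ℝ) / p) := by
  unfold wd
  calc ∏ p ∈ n.primeFactors.filter (fun p => 2 * d + 2 < p), ((p : ℝ) / ((p : ℝ) - d))
      ≤ ∏ p ∈ n.primeFactors.filter (fun p => 2 * d + 2 < p), (1 + 2 * (d : ℝ) / p) := by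
        refine prod_le_prod (fun p hp => ?_) fun p hp => wd_g (mem_filter.1 hp).2
        exact zero_le_one.trans (wd_fac (mem_filter.1 hp).2)
    _ = _ := by
        rw [prod_one_add]

/-- the sum of the inverse squares -/
lemma sum_inv_sq (V : ℕ) : ∑ k ∈ Icc 1 V, 1 / (k : ℝ) ^ 2 ≤ 2 := by
  have h : ∀ V : ℕ, 1 ≤ V → ∑ k ∈ Icc 1 V, 1 / (k : ℝ) ^ 2 ≤ 2 - 1 / (V : ℝ) := by
    intro V hV
    induction V, hV using Nat.le_induction with
    | base => norm_num
    | succ V hV ih =>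
      rw [sum_Icc_succ_top (by omega)]
      have hVr : (0 : ℝ) < V := by exact_mod_cast (by omega : 0 < V)
      have h1 : 1 / (((V + 1 : ℕ) : ℝ)) ^ 2 ≤ 1 / (V : ℝ) - 1 / ((V + 1 : ℕ) : ℝ) := by
        push_cast
        rw [div_sub_div _ _ hVr.ne' (by positivity), div_le_div_iff₀ (by positivity) (by positivity)]
        nlinarith
      linarith
  rcases Nat.eq_zero_or_pos V with h0 | h0
  · rw [h0]
    norm_num
  · have := h V h0
    have h1 : (0 : ℝ) ≤ 1 / (V : ℝ) := by positivity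
    linarith

/-- the multiples in an interval -/
lemma card_mult (v Y r : ℕ) (hr : 0 < r) :
    (((Ioc v (v + Y)).filter (fun n => r ∣ n)).card : ℝ) ≤ Y / r + 1 := by
  have h1 := Nat.Ioc_filter_dvd_card_eq_div v r
  have h2 := Nat.Ioc_filter_dvd_card_eq_div (v + Y) r
  have h3 : (Ioc 0 (v + Y)).filter (fun n => r ∣ n) =
      (Ioc 0 v).filter (fun n => r ∣ n) ∪ (Ioc v (v + Y)).filter (fun n => r ∣ n) := by
    rw [← filter_union, Ioc_union_Ioc_eq_Ioc (Nat.zero_le v) (by omega)]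
  have h4 : Disjoint ((Ioc 0 v).filter (fun n => r ∣ n)) ((Ioc v (v + Y)).filter (fun n => r ∣ n)) := by
    apply disjoint_filter_filter
    rw [disjoint_left]
    intro a ha hb
    rw [mem_Ioc] at ha hb
    omega
  rw [h3, card_union_of_disjoint h4, h1] at h2
  have hrr : (0 : ℝ) < r := by exact_mod_cast hr
  have h5 : ((v / r : ℕ) : ℝ) + (((Ioc v (v + Y)).filter (fun n => r ∣ n)).card : ℝ) =
      (((v + Y) / r : ℕ) : ℝ) := by exact_mod_cast h2
  have h6 : (((v + Y) / r : ℕ) : ℝ) ≤ ((v + Y : ℕ) : ℝ) / r := Nat.cast_div_le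
  have h7 : (v : ℝ) / r < ((v / r : ℕ) : ℝ) + 1 := by
    rw [div_lt_iff₀ hrr]
    have h8 : v < (v / r + 1) * r := by
      have := Nat.lt_div_mul_add hr (a := v)
      nlinarith
    exact_mod_cast h8
  push_cast at h6
  rw [add_div] at h6
  linarith

open Pool.Agent.H474R2.PG (Sg PR)

/-- the average of the weights -/
theorem sum_wd (d K : ℕ) : ∃ C : ℝ, 0 ≤ C ∧ ∀ v Y : ℕ, 1 ≤ Y → v + Y ≤ 2 * Y ^ K →
    ∑ n ∈ Ioc v (v + Y), wd d n ≤ C * Y := by
  classical
  obtain ⟨c, hc, hM⟩ := mert_one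
  obtain ⟨M, hMd⟩ : ∃ M : ℕ, M = 2 * d := ⟨_, rfl⟩
  have hMr : (2 * (d : ℝ)) = M := by rw [hMd]; push_cast; rfl
  obtain ⟨Z, hZ⟩ : ∃ Z : ℝ, Z = 2 + K * (M + 1) := ⟨_, rfl⟩
  have hZ0 : 0 ≤ Z := by rw [hZ]; positivity
  refine ⟨Real.exp (M * 2) + Real.exp (M * c) * Z ^ M, by positivity, fun v Y hY hV => ?_⟩
  obtain ⟨V, hVd⟩ : ∃ V, V = v + Y := ⟨_, rfl⟩
  obtain ⟨P, hP⟩ : ∃ P, P = (Icc 1 V).filter Nat.Prime := ⟨_, rfl⟩
  obtain ⟨G, hG⟩ : ∃ G : Finset ℕ → ℝ, G = fun (s : Finset ℕ) => ∏ p ∈ s, (2 * (d : ℝ) / (p : ℝ)) := ⟨_, rfl⟩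
  have hG0 : ∀ s, 0 ≤ G s := fun s => by rw [hG]; exact prod_nonneg fun _ _ => by positivity
  have h1 : ∀ n ∈ Ioc v (v + Y), wd d n ≤
      ∑ s ∈ P.powerset.filter (fun s => ∏ p ∈ s, p ∣ n), G s := by
    intro n hn
    rw [mem_Ioc] at hn
    refine (wd_le_pow d n).trans ?_
    rw [hG]
    refine sum_le_sum_of_subset_of_nonneg ?_ fun s _ _ => prod_nonneg fun _ _ => by positivity
    intro s hs
    rw [mem_powerset] at hs
    rw [mem_filter, mem_powerset, hP]
    have hs' : ∀ p ∈ s, p.Prime ∧ p ∣ n := fun p hp => by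
      have := (mem_filter.1 (hs hp)).1
      exact ⟨Nat.prime_of_mem_primeFactors this, Nat.dvd_of_mem_primeFactors this⟩
    refine ⟨fun p hp => ?_, ?_⟩
    · obtain ⟨h2, h3⟩ := hs' p hp
      have h4 := Nat.le_of_dvd (by omega) h3
      rw [mem_filter, mem_Icc]
      exact ⟨⟨h2.one_lt.le, by omega⟩, h2⟩
    · exact Finset.prod_primes_dvd n (fun p hp => (hs' p hp).1.prime) fun p hp => (hs' p hp).2
  have hpos : ∀ s ∈ P.powerset, 0 < ∏ p ∈ s, p := by
    intro s hs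
    refine prod_pos fun p hp => ?_
    have := mem_powerset.1 hs hp
    rw [hP, mem_filter] at this
    exact this.2.pos
  have h2 : ∑ n ∈ Ioc v (v + Y), wd d n ≤
      ∑ s ∈ P.powerset, G s * (Y / ((∏ p ∈ s, p : ℕ) : ℝ) + 1) := by
    calc ∑ n ∈ Ioc v (v + Y), wd d n ≤ ∑ n ∈ Ioc v (v + Y),
          ∑ s ∈ P.powerset.filter (fun s => ∏ p ∈ s, p ∣ n), G s := sum_le_sum h1
      _ = ∑ s ∈ P.powerset, ∑ n ∈ (Ioc v (v + Y)).filter (fun n => ∏ p ∈ s, p ∣ n), G s := by
          simp only [sum_filter]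
          rw [sum_comm]
      _ ≤ _ := by
          refine sum_le_sum fun s hs => ?_
          rw [sum_const, nsmul_eq_mul, mul_comm]
          exact mul_le_mul_of_nonneg_left (card_mult v Y _ (hpos s hs)) (hG0 s)
  have h3 : ∑ s ∈ P.powerset, G s * (Y / ((∏ p ∈ s, p : ℕ) : ℝ) + 1) =
      Y * ∏ p ∈ P, (1 + 2 * (d : ℝ) / p * (1 / p)) + ∏ p ∈ P, (1 + 2 * (d : ℝ) / p) := by
    rw [prod_one_add, prod_one_add, mul_sum, ← sum_add_distrib]
    refine sum_congr rfl fun s _ => ?_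
    rw [prod_mul_distrib, prod_div_distrib (f := fun _ => (1 : ℝ)), prod_const_one, hG]
    push_cast
    ring
  have hexp : ∀ f : ℕ → ℝ, (∀ p, 0 ≤ f p) → ∏ p ∈ P, (1 + f p) ≤ Real.exp (∑ p ∈ P, f p) := by
    intro f hf
    rw [Real.exp_sum]
    refine prod_le_prod (fun p _ => by have := hf p; linarith) fun p _ => ?_
    rw [add_comm]
    exact Real.add_one_le_exp _
  have h4 : ∏ p ∈ P, (1 + 2 * (d : ℝ) / p * (1 / p)) ≤ Real.exp (M * 2) := by
    refine (hexp _ fun p => by positivity).trans (Real.exp_le_exp.2 ?_)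
    calc ∑ p ∈ P, 2 * (d : ℝ) / p * (1 / p) = M * ∑ p ∈ P, 1 / (p : ℝ) ^ 2 := by
          rw [mul_sum]
          refine sum_congr rfl fun p _ => ?_
          rw [hMr]
          ring
      _ ≤ M * 2 := by
          apply mul_le_mul_of_nonneg_left _ (Nat.cast_nonneg _)
          refine le_trans ?_ (sum_inv_sq V)
          rw [hP]
          exact sum_le_sum_of_subset_of_nonneg (filter_subset _ _) fun _ _ _ => by positivity
  obtain ⟨W, hW⟩ : ∃ W : ℝ, W = max (V : ℝ) 3 := ⟨_, rfl⟩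
  have hW3 : 3 ≤ W := by rw [hW]; exact le_max_right _ _
  have hYr : (1 : ℝ) ≤ Y := by exact_mod_cast hY
  have hYK : (1 : ℝ) ≤ (Y : ℝ) ^ K := one_le_pow₀ hYr
  have hWY : W ≤ 3 * (Y : ℝ) ^ K := by
    rw [hW]
    apply max_le
    · have : (V : ℝ) ≤ 2 * (Y : ℝ) ^ K := by rw [hVd]; exact_mod_cast hV
      linarith
    · linarith
  have hlW1 : 1 < Real.log W := by
    have h5 : Real.log 3 ≤ Real.log W := Real.log_le_log (by norm_num) hW3
    have h6 := log3 (x := 3) le_rfl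
    push_cast at h6
    linarith
  have h5 : ∏ p ∈ P, (1 + 2 * (d : ℝ) / p) ≤ Real.exp (M * c) * Z ^ M * Y := by
    have h6 : ∑ p ∈ P, 2 * (d : ℝ) / p ≤ M * (Real.log (Real.log W) + c) := by
      have h7 := (abs_le.1 (hM W hW3)).2
      have h8 : ∑ p ∈ P, (1 : ℝ) / p ≤ Sg (fun _ => 1) W := by
        unfold Sg PR
        simp only [Nat.cast_one]
        refine sum_le_sum_of_subset_of_nonneg ?_ fun _ _ _ => by positivity
        rw [hP]
        refine filter_subset_filter _ (Icc_subset_Icc_right ?_)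
        apply Nat.le_floor
        rw [hW]
        exact le_max_left _ _
      calc ∑ p ∈ P, 2 * (d : ℝ) / p = M * ∑ p ∈ P, (1 : ℝ) / p := by
            rw [mul_sum]
            refine sum_congr rfl fun p _ => ?_
            rw [hMr]
            ring
        _ ≤ _ := by
            apply mul_le_mul_of_nonneg_left _ (Nat.cast_nonneg _)
            push_cast at h7
            linarith
    have h9 : Real.log W ≤ Z * (Y : ℝ) ^ ((1 : ℝ) / (M + 1)) := by
      have a1 : Real.log W ≤ Real.log 3 + K * Real.log Y := by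
        have := Real.log_le_log (by linarith) hWY
        rwa [Real.log_mul (by norm_num) (by positivity), Real.log_pow] at this
      have a2 : Real.log 3 ≤ 2 := by
        have := Real.log_le_sub_one_of_pos (show (0 : ℝ) < 3 by norm_num)
        linarith
      have a3 : Real.log Y ≤ (Y : ℝ) ^ ((1 : ℝ) / (M + 1)) / ((1 : ℝ) / (M + 1)) :=
        Real.log_le_rpow_div (by linarith) (by positivity)
      have a4 : (Y : ℝ) ^ ((1 : ℝ) / (M + 1)) / ((1 : ℝ) / (M + 1)) =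
          (M + 1) * (Y : ℝ) ^ ((1 : ℝ) / (M + 1)) := by
        field_simp
      have a5 : (1 : ℝ) ≤ (Y : ℝ) ^ ((1 : ℝ) / (M + 1)) :=
        Real.one_le_rpow hYr (by positivity)
      rw [a4] at a3
      have a6 : (K : ℝ) * Real.log Y ≤ K * ((M + 1) * (Y : ℝ) ^ ((1 : ℝ) / (M + 1))) :=
        mul_le_mul_of_nonneg_left a3 (Nat.cast_nonneg _)
      calc Real.log W ≤ 2 + K * ((M + 1) * (Y : ℝ) ^ ((1 : ℝ) / (M + 1))) := by linarith
        _ ≤ 2 * (Y : ℝ) ^ ((1 : ℝ) / (M + 1)) +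
            K * ((M + 1) * (Y : ℝ) ^ ((1 : ℝ) / (M + 1))) := by linarith
        _ = _ := by rw [hZ]; ring
    have h10 : (Real.log W) ^ M ≤ Z ^ M * Y := by
      calc (Real.log W) ^ M ≤ (Z * (Y : ℝ) ^ ((1 : ℝ) / (M + 1))) ^ M :=
            pow_le_pow_left₀ (by linarith) h9 M
        _ = Z ^ M * (Y : ℝ) ^ ((1 : ℝ) / (M + 1) * M) := by
            rw [mul_pow, ← Real.rpow_natCast (_ ^ _), ← Real.rpow_mul (by linarith)]
        _ ≤ Z ^ M * (Y : ℝ) ^ (1 : ℝ) := by
            apply mul_le_mul_of_nonneg_left _ (by positivity)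
            apply Real.rpow_le_rpow_of_exponent_le hYr
            rw [one_div, inv_mul_le_iff₀ (by positivity)]
            linarith
        _ = _ := by rw [Real.rpow_one]
    calc ∏ p ∈ P, (1 + 2 * (d : ℝ) / p) ≤ Real.exp (∑ p ∈ P, 2 * (d : ℝ) / p) :=
          hexp _ fun p => by positivity
      _ ≤ Real.exp (M * (Real.log (Real.log W) + c)) := Real.exp_le_exp.2 h6
      _ = Real.exp (M * c) * (Real.log W) ^ M := by
          rw [mul_add, Real.exp_add, mul_comm (Real.exp _), Real.exp_nat_mul (Real.log _),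
            Real.exp_log (by linarith)]
      _ ≤ _ := by
          rw [mul_assoc]
          exact mul_le_mul_of_nonneg_left h10 (Real.exp_pos _).le
  calc ∑ n ∈ Ioc v (v + Y), wd d n ≤ _ := h2
    _ = _ := h3
    _ ≤ Y * Real.exp (M * 2) + Real.exp (M * c) * Z ^ M * Y :=
        add_le_add (mul_le_mul_of_nonneg_left h4 (Nat.cast_nonneg _)) h5
    _ = _ := by ring

end Pool.Agent.U214.UN
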