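import Mathlib
import Pool.Agent.U214.UN.Box

/-!
# The moments over the boxes of coprime pairs
-/

set_option autoImplicit false

namespace Pool.Agent.U214.UN

open Finset Polynomial Pool.Agent.W262.RK Pool.Agent.U214.PT Pool.Agent.U214.GT

/-- the value of the homogenization of `f` -/
def hom (f : ℤ[X]) (m n : ℤ) : ℤ :=
  ∑ i ∈ range (f.natDegree + 1), f.coeff i * m ^ i * n ^ (f.natDegree - i)

lemma hom_ev (f : ℤ[X]) (m : ℤ) (n : ℕ) : hom f m n = ev f n m := by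
  rw [ev_eq_sum rfl]
  unfold hom
  refine sum_congr rfl fun i _ => ?_
  ring

variable {Q : ℤ → ℤ → ℝ}

/-- **the moments over the boxes** -/
theorem famBox (hQ : QL Q) {A B D : ℤ[X]} (hB : B.natDegree = A.natDegree)
    (hAB : (A - B).natDegree = A.natDegree) (hD : D ≠ 0)
    (hS : Squarefree ((A * B * (A - B)).map (Int.castRingHom ℚ)))
    (hev : ∀ P : ℚ[X], Irreducible P → P ∣ (A * B * (A - B)).map (Int.castRingHom ℚ) →
      Even (multiplicity P (D.map (Int.castRingHom ℚ))))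
    {r : ℕ} {e : ℝ} (he : 0 ≤ e)
    (h0 : ((2 : ℝ) ^ r - 1) * (nf A - ((nf B : ℝ) + nf (A - B)) / 2 ^ r) ≤ e)
    (h1 : ((2 : ℝ) ^ r - 1) * (nf B - ((nf A : ℝ) + nf (A - B)) / 2 ^ r) ≤ e)
    (h2 : ((2 : ℝ) ^ r - 1) * (nf (A - B) - ((nf A : ℝ) + nf B) / 2 ^ r) ≤ e) (K : ℕ) :
    ∃ C : ℝ, ∀ X Y v : ℕ, ∀ u : ℤ, 1 ≤ X → 1 ≤ Y → v + Y ≤ X ^ K → v + Y ≤ Y ^ K →
      u.natAbs ≤ X ^ K →
      ∑ w ∈ ((Ioc u (u + X)) ×ˢ (Ioc v (v + Y))).filter (fun w : ℤ × ℕ =>
        IsCoprime w.1 (w.2 : ℤ) ∧ hom A w.1 w.2 * hom B w.1 w.2 * (hom A w.1 w.2 - hom B w.1 w.2) *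
          hom D w.1 w.2 ≠ 0),
        Q (hom A w.1 w.2 * hom D w.1 w.2) (hom B w.1 w.2 * hom D w.1 w.2) ^ r ≤
        C * (X * Y * (1 + Real.log X) ^ e) := by
  classical
  obtain ⟨c, g, f, hc, hg, hf, hs, heq⟩ := sep_of_even hD hS hev
  obtain ⟨C, hC⟩ := allT (D := f) (r := r) (e := e) hQ hc heq hs ⟨he, h0, h1, h2⟩ K
  obtain ⟨C', hC'0, hC'⟩ := sum_wd (ft A B f).natDegree K
  refine ⟨|C| * C', fun X Y v u hX hY hVX hVY hu => ?_⟩
  have hadT : ∀ n, AdT A B n := fun n => adT_deg hB hAB n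
  have hXr : (1 : ℝ) ≤ X := by exact_mod_cast hX
  have hE : 0 ≤ (1 + Real.log X) ^ e :=
    Real.rpow_nonneg (by have := Real.log_nonneg hXr; linarith) _
  have hw0 : ∀ n, 0 ≤ wd (ft A B f).natDegree n := fun n => zero_le_one.trans (one_le_wd _ _)
  calc _ = ∑ n ∈ Ioc v (v + Y), ∑ m ∈ Pt (ft A B D) n u X,
        Q (ev A n m * ev D n m) (ev B n m * ev D n m) ^ r := by
        rw [sum_filter, sum_product_right]
        refine sum_congr rfl fun n _ => ?_
        unfold Pt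
        rw [sum_filter]
        refine sum_congr rfl fun m _ => ?_
        simp only [hom_ev]
        unfold ft
        rw [ev_mul, ev_mul, ev_mul, (hadT n).sub]
    _ ≤ ∑ n ∈ Ioc v (v + Y), |C| * (wd (ft A B f).natDegree n * X * (1 + Real.log X) ^ e) := by
        refine sum_le_sum fun n hn => ?_
        rw [mem_Ioc] at hn
        refine (hC X n u hX (by omega) (by omega) hu (hadT n)).trans ?_
        apply mul_le_mul_of_nonneg_right (le_abs_self C)
        exact mul_nonneg (mul_nonneg (hw0 n) (by linarith)) hE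
    _ = |C| * (∑ n ∈ Ioc v (v + Y), wd (ft A B f).natDegree n) * (X * (1 + Real.log X) ^ e) := by
        rw [← mul_sum, ← sum_mul, ← sum_mul]
        ring
    _ ≤ |C| * (C' * Y) * (X * (1 + Real.log X) ^ e) := by
        apply mul_le_mul_of_nonneg_right _ (mul_nonneg (by linarith) hE)
        exact mul_le_mul_of_nonneg_left (hC' v Y hY (by omega)) (abs_nonneg _)
    _ = _ := by ring

end Pool.Agent.U214.UN
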