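import Mathlib
import Pool.Agent.U214.UN.BoxT

/-!
# All the curves with full rational two-torsion, up to a fixed twist
-/

set_option autoImplicit false

namespace Pool.Agent.U214.UN

open Finset Polynomial Pool.Agent.W262.RK Pool.Agent.U214.PT Pool.Agent.U214.GT
open UniqueFactorizationMonoid

lemma nf_lin {f : ℤ[X]} (a b : ℤ) (ha : a ≠ 0) (hf : f = C a * X + C b) : nf f = 1 := by
  unfold nf
  have h : Irreducible (f.map (Int.castRingHom ℚ)) := by
    apply irreducible_of_degree_eq_one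
    rw [hf, Polynomial.map_add, Polynomial.map_mul, map_C, map_C, map_X]
    exact degree_linear (by simpa using ha)
  rw [normalizedFactors_irreducible h, Multiset.card_singleton]

/-- the exponent -/
noncomputable def e2 (r : ℕ) : ℝ := ((2 : ℝ) ^ r - 1) * (1 - 2 / 2 ^ r)

lemma e2_nn (r : ℕ) : 0 ≤ e2 r := by
  unfold e2
  rcases Nat.eq_zero_or_pos r with h | h
  · subst h; norm_num
  · have h1 : (2 : ℝ) ≤ 2 ^ r := by
      calc (2 : ℝ) = 2 ^ 1 := by norm_num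
        _ ≤ 2 ^ r := pow_le_pow_right₀ (by norm_num) h
    have h2 : (2 : ℝ) / 2 ^ r ≤ 1 := by
      rw [div_le_one (by positivity)]
      exact h1
    exact mul_nonneg (by linarith) (by linarith)

/-- the polynomials `t`, `-(t + 1)`, `2 t + 1` -/
lemma sqf3 : Squarefree (((X : ℤ[X]) * (-(X + 1)) * (X - -(X + 1))).map (Int.castRingHom ℚ)) := by
  have h : ((X : ℤ[X]) * (-(X + 1)) * (X - -(X + 1))).map (Int.castRingHom ℚ) =
      -((X : ℚ[X]) * (X + 1) * (C 2 * X + 1)) := by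
    simp only [Polynomial.map_mul, Polynomial.map_neg, Polynomial.map_add, Polynomial.map_sub,
      map_X, Polynomial.map_one]
    rw [show (C (2 : ℚ) : ℚ[X]) = 2 by rfl]
    ring
  rw [h]
  have i1 : Irreducible (X : ℚ[X]) := irreducible_X
  have i2 : Irreducible (X + 1 : ℚ[X]) := by
    apply irreducible_of_degree_eq_one
    have := degree_linear (a := (1 : ℚ)) (b := 1) one_ne_zero
    simpa using this
  have i3 : Irreducible (C (-2) * X + C (-1) : ℚ[X]) := by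
    apply irreducible_of_degree_eq_one
    exact degree_linear (a := (-2 : ℚ)) (b := -1) (by norm_num)
  have c1 : IsCoprime (X : ℚ[X]) (X + 1) := ⟨-1, 1, by ring⟩
  have c2 : IsCoprime ((X : ℚ[X]) * (X + 1)) (C (-2) * X + C (-1)) := by
    refine ⟨-4, C (-2) * X + C (-1), ?_⟩
    rw [show (C (-2 : ℚ) : ℚ[X]) = -2 by rw [map_neg]; rfl,
      show (C (-1 : ℚ) : ℚ[X]) = -1 by rw [map_neg, map_one]]
    ring
  have h5 : -((X : ℚ[X]) * (X + 1) * (C 2 * X + 1)) =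
      (X * (X + 1)) * (C (-2) * X + C (-1)) := by
    rw [show (C (-2 : ℚ) : ℚ[X]) = -2 by rw [map_neg]; rfl,
      show (C (-1 : ℚ) : ℚ[X]) = -1 by rw [map_neg, map_one],
      show (C (2 : ℚ) : ℚ[X]) = 2 by rfl]
    ring
  rw [h5]
  exact squarefree_mul_iff.2 ⟨c2.isRelPrime, squarefree_mul_iff.2 ⟨c1.isRelPrime,
    i1.squarefree, i2.squarefree⟩, i3.squarefree⟩

lemma natDeg3 : (-(X + 1) : ℤ[X]).natDegree = (X : ℤ[X]).natDegree ∧
    (X - -(X + 1) : ℤ[X]).natDegree = (X : ℤ[X]).natDegree := by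
  have h1 : (-(X + 1) : ℤ[X]) = C (-1) * X + C (-1) := by
    simp only [map_neg, map_one]
    ring
  have h2 : (X - -(X + 1) : ℤ[X]) = C 2 * X + C 1 := by
    rw [show (C (2 : ℤ) : ℤ[X]) = 2 by rfl, map_one]
    ring
  rw [h2, h1, natDegree_linear (by norm_num), natDegree_linear (by norm_num), natDegree_X]
  exact ⟨rfl, rfl⟩

/-- **the box theorem for the curves with full two-torsion**: `a = m`, `b = -(m + n)` -/
theorem full_box {Q : ℤ → ℤ → ℝ} (hQ : QL Q) {c : ℤ} (hc : c ≠ 0) (r K : ℕ) :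
    ∃ C : ℝ, ∀ X Y v : ℕ, ∀ u : ℤ, 1 ≤ X → 1 ≤ Y → v + Y ≤ X ^ K → v + Y ≤ Y ^ K →
      u.natAbs ≤ X ^ K →
      ∑ w ∈ ((Ioc u (u + X)) ×ˢ (Ioc v (v + Y))).filter (fun w : ℤ × ℕ =>
        IsCoprime w.1 (w.2 : ℤ) ∧ w.1 * -(w.1 + w.2) * (2 * w.1 + w.2) ≠ 0),
        Q (w.1 * c) (-(w.1 + w.2) * c) ^ r ≤ C * (X * Y * (1 + Real.log X) ^ e2 r) := by
  classical
  have hn1 : nf (X : ℤ[X]) = 1 := nf_lin 1 0 one_ne_zero (by simp)
  have hn2 : nf (-(X + 1) : ℤ[X]) = 1 := nf_lin (-1) (-1) (by norm_num) (by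
    simp only [map_neg, map_one]
    ring)
  have hn3 : nf (X - -(X + 1) : ℤ[X]) = 1 := nf_lin 2 1 two_ne_zero (by
    rw [show (C (2 : ℤ) : ℤ[X]) = 2 by rfl, map_one]
    ring)
  have he : ((2 : ℝ) ^ r - 1) * (((1 : ℕ) : ℝ) - (((1 : ℕ) : ℝ) + ((1 : ℕ) : ℝ)) / 2 ^ r) ≤ e2 r := by
    unfold e2
    norm_num
  obtain ⟨C0, hC⟩ := famBox (A := X) (B := -(X + 1)) (D := C c) (r := r) (e := e2 r) hQ natDeg3.1
    natDeg3.2 (by simpa using hc) sqf3 (fun P hP _ => by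
      have h1 : multiplicity P ((C c : ℤ[X]).map (Int.castRingHom ℚ)) = 0 := by
        apply multiplicity_eq_zero.2
        intro h
        apply hP.not_isUnit
        refine isUnit_of_dvd_unit h ?_
        rw [map_C]
        exact isUnit_C.2 (by simpa using hc)
      rw [h1]
      exact Even.zero) (e2_nn r) (by rw [hn1, hn2, hn3]; exact he)
      (by rw [hn1, hn2, hn3]; exact he) (by rw [hn1, hn2, hn3]; exact he) K
  refine ⟨C0, fun X Y v u hX hY h1 h2 h3 => ?_⟩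
  have h4 := hC X Y v u hX hY h1 h2 h3
  have hA : ∀ m n : ℤ, hom (Polynomial.X : ℤ[X]) m n = m := by
    intro m n
    unfold hom
    rw [natDegree_X, sum_range_succ, sum_range_one]
    simp
  have hB : ∀ m n : ℤ, hom (-(Polynomial.X + 1) : ℤ[X]) m n = -(m + n) := by
    intro m n
    unfold hom
    rw [natDeg3.1, natDegree_X, sum_range_succ, sum_range_one]
    simp [coeff_one]
  have hD : ∀ m n : ℤ, hom (C c : ℤ[X]) m n = c := by
    intro m n
    unfold hom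
    rw [natDegree_C, zero_add, sum_range_one]
    simp
  simp only [hA, hB, hD] at h4
  refine le_trans (le_of_eq ?_) h4
  apply sum_congr _ fun _ _ => rfl
  apply filter_congr
  intro w _
  have : w.1 * -(w.1 + w.2) * (w.1 - -(w.1 + w.2)) * c ≠ 0 ↔
      w.1 * -(w.1 + w.2) * (2 * w.1 + w.2) ≠ 0 := by
    rw [show w.1 - -(w.1 + (w.2 : ℤ)) = 2 * w.1 + w.2 by ring, mul_ne_zero_iff]
    exact ⟨fun h => h.1, fun h => ⟨h, hc⟩⟩
  rw [this]

/-- the coprime pairs -/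
noncomputable def Pr2 (H : ℕ) : Finset (ℤ × ℤ) :=
  ((Icc (-(H : ℤ)) H) ×ˢ (Icc (-(H : ℤ)) H)).filter (fun w : ℤ × ℤ =>
    IsCoprime w.1 w.2 ∧ w.1 * w.2 * (w.1 - w.2) ≠ 0)

lemma half2 {Q : ℤ → ℤ → ℝ} (hQ : QL Q) {c : ℤ} (hc : c ≠ 0) (r : ℕ) :
    ∃ C : ℝ, 0 ≤ C ∧ ∀ H : ℕ, 1 ≤ H → ∑ w ∈ (Pr2 H).filter (fun w => w.1 + w.2 < 0),
      Q (w.1 * c) (w.2 * c) ^ r ≤ C * ((H : ℝ) ^ 2 * (1 + Real.log H) ^ e2 r) := by
  classical
  obtain ⟨C, hC⟩ := full_box hQ hc r 1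
  refine ⟨|C| * (6 * 3 ^ e2 r), by positivity, fun H hH => ?_⟩
  have h1 := hC (2 * H + 1) (2 * H) 0 (-(H : ℤ) - 1) (by omega) (by omega)
    (by rw [pow_one]; omega) (by rw [pow_one]; omega) (by rw [pow_one]; omega)
  have hHr : (1 : ℝ) ≤ H := by exact_mod_cast hH
  have hl : 0 ≤ Real.log H := Real.log_nonneg hHr
  have h2 : ∑ w ∈ (Pr2 H).filter (fun w => w.1 + w.2 < 0), Q (w.1 * c) (w.2 * c) ^ r ≤
      ∑ w ∈ ((Ioc (-(H : ℤ) - 1) (-(H : ℤ) - 1 + ((2 * H + 1 : ℕ) : ℤ))) ×ˢ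
        (Ioc 0 (0 + 2 * H))).filter (fun w : ℤ × ℕ =>
        IsCoprime w.1 (w.2 : ℤ) ∧ w.1 * -(w.1 + w.2) * (2 * w.1 + w.2) ≠ 0),
        Q (w.1 * c) (-(w.1 + w.2) * c) ^ r := by
    refine le_trans (le_of_eq ?_) (sum_le_sum_of_subset_of_nonneg
      (s := ((Pr2 H).filter (fun w => w.1 + w.2 < 0)).image
        (fun w => (w.1, (-(w.1 + w.2)).toNat))) ?_ fun _ _ _ => pow_nonneg (hQ.nn _ _) _)
    · rw [sum_image]
      · refine sum_congr rfl fun w hw => ?_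
        have h3 := (mem_filter.1 hw).2
        simp only
        rw [Int.toNat_of_nonneg (by omega)]
        congr 2
        ring
      · intro a ha b hb hab
        have h3 := (mem_filter.1 ha).2
        have h4 := (mem_filter.1 hb).2
        have h5 := congrArg Prod.fst hab
        have h6 := congrArg Prod.snd hab
        simp only at h5 h6
        have h7 : a.2 = b.2 := by omega
        exact Prod.ext h5 h7
    · intro w hw
      obtain ⟨a, ha, rfl⟩ := mem_image.1 hw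
      rw [mem_filter] at ha
      obtain ⟨ha1, ha2⟩ := ha
      unfold Pr2 at ha1
      rw [mem_filter, mem_product, mem_Icc, mem_Icc] at ha1
      rw [mem_filter, mem_product, mem_Ioc, mem_Ioc]
      simp only
      rw [Int.toNat_of_nonneg (by omega)]
      refine ⟨⟨by omega, by omega⟩, ?_, ?_⟩
      · obtain ⟨x, y, hxy⟩ := ha1.2.1
        exact ⟨x - y, -y, by linear_combination hxy⟩
      · have h3 : a.1 * -(a.1 + -(a.1 + a.2)) * (2 * a.1 + -(a.1 + a.2)) =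
          a.1 * a.2 * (a.1 - a.2) := by ring
        rw [h3]
        exact ha1.2.2
  refine (h2.trans h1).trans ?_
  have h3 : (1 + Real.log ((2 * H + 1 : ℕ) : ℝ)) ^ e2 r ≤ 3 ^ e2 r * (1 + Real.log H) ^ e2 r := by
    rw [← Real.mul_rpow (by norm_num) (by linarith)]
    have h4 : Real.log ((2 * H + 1 : ℕ) : ℝ) ≤ 2 + Real.log H := by
      have h5 : ((2 * H + 1 : ℕ) : ℝ) ≤ 3 * H := by
        push_cast
        linarith
      have h6 := Real.log_le_log (by positivity) h5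
      rw [Real.log_mul (by norm_num) (by positivity)] at h6
      have h7 := Real.log_le_sub_one_of_pos (show (0 : ℝ) < 3 by norm_num)
      linarith
    have h5 : 0 ≤ Real.log ((2 * H + 1 : ℕ) : ℝ) := Real.log_nonneg (by push_cast; linarith)
    exact Real.rpow_le_rpow (by linarith) (by linarith) (e2_nn r)
  have h4 : 0 ≤ (1 + Real.log ((2 * H + 1 : ℕ) : ℝ)) ^ e2 r :=
    Real.rpow_nonneg (by
      have := Real.log_nonneg (show (1 : ℝ) ≤ ((2 * H + 1 : ℕ) : ℝ) by push_cast; linarith)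
      linarith) _
  have h5 : ((2 * H + 1 : ℕ) : ℝ) * ((2 * H : ℕ) : ℝ) ≤ 6 * (H : ℝ) ^ 2 := by
    push_cast
    nlinarith
  calc C * (((2 * H + 1 : ℕ) : ℝ) * ((2 * H : ℕ) : ℝ) *
        (1 + Real.log ((2 * H + 1 : ℕ) : ℝ)) ^ e2 r)
      ≤ |C| * (((2 * H + 1 : ℕ) : ℝ) * ((2 * H : ℕ) : ℝ) *
        (1 + Real.log ((2 * H + 1 : ℕ) : ℝ)) ^ e2 r) :=
        mul_le_mul_of_nonneg_right (le_abs_self C) (mul_nonneg (by positivity) h4)
    _ ≤ |C| * (6 * (H : ℝ) ^ 2 * (3 ^ e2 r * (1 + Real.log H) ^ e2 r)) := by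
        apply mul_le_mul_of_nonneg_left _ (abs_nonneg C)
        exact mul_le_mul h5 h3 h4 (by positivity)
    _ = _ := by ring

/-- **the moments over the coprime pairs** -/
theorem full2 {Q : ℤ → ℤ → ℝ} (hQ : QL Q) {c : ℤ} (hc : c ≠ 0) (r : ℕ) :
    ∃ C : ℝ, ∀ H : ℕ, 1 ≤ H → ∑ w ∈ Pr2 H, Q (c * w.1) (c * w.2) ^ r ≤
      C * ((H : ℝ) ^ 2 * (1 + Real.log H) ^ e2 r) := by
  classical
  obtain ⟨C1, hC1, h1⟩ := half2 hQ hc r
  obtain ⟨C2, hC2, h2⟩ := half2 hQ (neg_ne_zero.2 hc) r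
  refine ⟨C1 + C2 + (Q (1 * c) (-1 * c) ^ r + Q (-1 * c) (1 * c) ^ r), fun H hH => ?_⟩
  have hHr : (1 : ℝ) ≤ H := by exact_mod_cast hH
  have hl : 0 ≤ Real.log H := Real.log_nonneg hHr
  obtain ⟨W, hW⟩ : ∃ W : ℝ, W = (H : ℝ) ^ 2 * (1 + Real.log H) ^ e2 r := ⟨_, rfl⟩
  have hW1 : 1 ≤ W := by
    rw [hW]
    have a1 : (1 : ℝ) ≤ (H : ℝ) ^ 2 := one_le_pow₀ hHr
    have a2 : (1 : ℝ) ≤ (1 + Real.log H) ^ e2 r := Real.one_le_rpow (by linarith) (e2_nn r)
    nlinarith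
  have g1 := h1 H hH
  have g2 := h2 H hH
  rw [← hW] at g1 g2 ⊢
  have hsplit : ∑ w ∈ Pr2 H, Q (c * w.1) (c * w.2) ^ r =
      ∑ w ∈ (Pr2 H).filter (fun w => w.1 + w.2 < 0), Q (w.1 * c) (w.2 * c) ^ r +
      (∑ w ∈ (Pr2 H).filter (fun w => 0 < w.1 + w.2), Q (w.1 * c) (w.2 * c) ^ r +
      ∑ w ∈ (Pr2 H).filter (fun w => w.1 + w.2 = 0), Q (w.1 * c) (w.2 * c) ^ r) := by
    rw [sum_filter, sum_filter, sum_filter, ← sum_add_distrib, ← sum_add_distrib]
    refine sum_congr rfl fun w _ => ?_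
    rw [mul_comm c, mul_comm c]
    rcases lt_trichotomy (w.1 + w.2) 0 with h | h | h
    · rw [if_pos h, if_neg (by omega), if_neg (by omega)]; ring
    · rw [if_neg (by omega), if_neg (by omega), if_pos h]; ring
    · rw [if_neg (by omega), if_pos h, if_neg (by omega)]; ring
  have g3 : ∑ w ∈ (Pr2 H).filter (fun w => 0 < w.1 + w.2), Q (w.1 * c) (w.2 * c) ^ r ≤
      C2 * W := by
    refine le_trans (le_of_eq ?_) g2
    refine sum_bij' (fun w _ => (-w.1, -w.2)) (fun w _ => (-w.1, -w.2)) ?_ ?_ ?_ ?_ ?_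
    · intro w hw
      rw [mem_filter] at hw ⊢
      obtain ⟨hw1, hw2⟩ := hw
      unfold Pr2 at hw1 ⊢
      rw [mem_filter, mem_product, mem_Icc, mem_Icc] at hw1 ⊢
      simp only
      refine ⟨⟨⟨by omega, by omega⟩, hw1.2.1.neg_neg, ?_⟩, by omega⟩
      have h3 : -w.1 * -w.2 * (-w.1 - -w.2) = -(w.1 * w.2 * (w.1 - w.2)) := by ring
      rw [h3]
      exact neg_ne_zero.2 hw1.2.2
    · intro w hw
      rw [mem_filter] at hw ⊢
      obtain ⟨hw1, hw2⟩ := hw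
      unfold Pr2 at hw1 ⊢
      rw [mem_filter, mem_product, mem_Icc, mem_Icc] at hw1 ⊢
      simp only
      refine ⟨⟨⟨by omega, by omega⟩, hw1.2.1.neg_neg, ?_⟩, by omega⟩
      have h3 : -w.1 * -w.2 * (-w.1 - -w.2) = -(w.1 * w.2 * (w.1 - w.2)) := by ring
      rw [h3]
      exact neg_ne_zero.2 hw1.2.2
    · intro w _
      simp
    · intro w _
      simp
    · intro w _
      simp only
      rw [neg_mul_neg, neg_mul_neg]
  have g4 : ∑ w ∈ (Pr2 H).filter (fun w => w.1 + w.2 = 0), Q (w.1 * c) (w.2 * c) ^ r ≤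
      Q (1 * c) (-1 * c) ^ r + Q (-1 * c) (1 * c) ^ r := by
    have h3 : (Pr2 H).filter (fun w => w.1 + w.2 = 0) ⊆ {((1 : ℤ), (-1 : ℤ)), (-1, 1)} := by
      intro w hw
      rw [mem_filter] at hw
      obtain ⟨hw1, hw2⟩ := hw
      unfold Pr2 at hw1
      rw [mem_filter] at hw1
      obtain ⟨x, y, hxy⟩ := hw1.2.1
      have h4 : w.2 = -w.1 := by omega
      have h5 : w.1 ∣ 1 := ⟨x - y, by rw [h4] at hxy; linear_combination -hxy⟩
      rw [mem_insert, mem_singleton]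
      rcases Int.isUnit_iff.1 (isUnit_of_dvd_one h5) with h6 | h6
      · left
        exact Prod.ext h6 (by rw [h4, h6])
      · right
        exact Prod.ext h6 (by rw [h4, h6]; norm_num)
    refine (sum_le_sum_of_subset_of_nonneg h3 fun _ _ _ => pow_nonneg (hQ.nn _ _) _).trans ?_
    rw [sum_pair (by decide)]
  have g5 : 0 ≤ Q (1 * c) (-1 * c) ^ r + Q (-1 * c) (1 * c) ^ r :=
    add_nonneg (pow_nonneg (hQ.nn _ _) _) (pow_nonneg (hQ.nn _ _) _)
  rw [hsplit]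
  nlinarith

end Pool.Agent.U214.UN
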